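import Mathlib
import Pool.Agent.K7.H74.WS.Fin

set_option autoImplicit false

/-! Waring-Goldbach with real exponents: the mean square over the exponent. -/

namespace Pool.Agent.K7.H94.EW
open Finset MeasureTheory Complex
open Pool.Agent.K7.H74.WS (e norm_e e_cont e_add e_neg e_sub e_zero e_lip osc int_neg double_sum bern_lower)

lemma pw_cont {x : ℕ} (hx : 1 ≤ x) : Continuous fun c : ℝ => (x : ℝ) ^ c :=
  Real.continuous_const_rpow (by positivity)

lemma pair_ge {P x y : ℕ} (hP : 1 ≤ P) (hPy : P ≤ y) (hyx : y < x) {a c : ℝ} (ha : 2 ≤ a) (hc : a ≤ c) :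
    (P : ℝ) ^ (a - 1) * ((x : ℝ) - y) ≤ (x : ℝ) ^ c * Real.log x - (y : ℝ) ^ c * Real.log y := by
  have hP1 : (1 : ℝ) ≤ P := by exact_mod_cast hP
  have hPy' : (P : ℝ) ≤ y := by exact_mod_cast hPy
  have hyx' : (y : ℝ) + 1 ≤ x := by exact_mod_cast hyx
  have hy0 : (0 : ℝ) < y := by linarith
  have hx0 : (0 : ℝ) < x := by linarith
  have hx2 : (2 : ℝ) ≤ x := by linarith
  have h1 := bern_lower (a := (y : ℝ)) (b := x) (ρ := c) hy0 (by linarith) (by linarith)
  have h2 : (P : ℝ) ^ (a - 1) ≤ (y : ℝ) ^ (c - 1) :=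
    (Real.rpow_le_rpow (by positivity) hPy' (by linarith)).trans
      (Real.rpow_le_rpow_of_exponent_le (by linarith) (by linarith))
  have h3 : 0 ≤ (P : ℝ) ^ (a - 1) := by positivity
  have h4 : 2 * ((P : ℝ) ^ (a - 1) * ((x : ℝ) - y)) ≤ (x : ℝ) ^ c - (y : ℝ) ^ c := by
    refine le_trans ?_ h1
    have e1 : 2 * (P : ℝ) ^ (a - 1) ≤ c * (y : ℝ) ^ (c - 1) := mul_le_mul (by linarith) h2 h3 (by linarith)
    calc 2 * ((P : ℝ) ^ (a - 1) * ((x : ℝ) - y)) = 2 * (P : ℝ) ^ (a - 1) * ((x : ℝ) - y) := by ring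
      _ ≤ _ := mul_le_mul_of_nonneg_right e1 (by linarith)
  have h5 : 0 ≤ (P : ℝ) ^ (a - 1) * ((x : ℝ) - y) := mul_nonneg h3 (by linarith)
  have hl2 : (1 : ℝ) / 2 ≤ Real.log x := by
    have h6 : Real.log 2 ≤ Real.log x := Real.log_le_log (by norm_num) hx2
    have := Real.log_two_gt_d9
    linarith
  have hly : Real.log y ≤ Real.log x := Real.log_le_log hy0 (by linarith)
  have hyc : 0 ≤ (y : ℝ) ^ c := by positivity
  have h7 : (y : ℝ) ^ c * Real.log y ≤ (y : ℝ) ^ c * Real.log x := mul_le_mul_of_nonneg_left hly hyc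
  have h8 : 2 * ((P : ℝ) ^ (a - 1) * ((x : ℝ) - y)) * (1 / 2) ≤ ((x : ℝ) ^ c - (y : ℝ) ^ c) * Real.log x :=
    mul_le_mul h4 hl2 (by norm_num) (by linarith)
  linarith

/-- the integral over the exponent for a pair of arguments -/
lemma pair_int {P x y : ℕ} (hP : 1 ≤ P) (hPy : P ≤ y) (hyx : y < x) {a a' b : ℝ} (ha : 2 ≤ a) (haa : a ≤ a')
    (hab : a' ≤ b) {α : ℝ} (hα : α ≠ 0) :
    ‖∫ c in a'..b, e (α * ((x : ℝ) ^ c - (y : ℝ) ^ c))‖ ≤ 1 / (|α| * (P : ℝ) ^ (a - 1) * ((x : ℝ) - y)) := by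
  have hP1 : (1 : ℝ) ≤ P := by exact_mod_cast hP
  have hPy' : (P : ℝ) ≤ y := by exact_mod_cast hPy
  have hyx' : (y : ℝ) + 1 ≤ x := by exact_mod_cast hyx
  have hy0 : (0 : ℝ) < y := by linarith
  have hx0 : (0 : ℝ) < x := by linarith
  have hPa : 0 < (P : ℝ) ^ (a - 1) := by positivity
  have hxy : (0 : ℝ) < (x : ℝ) - y := by linarith
  have hpi := Real.pi_gt_three
  have key : ∀ β : ℝ, 0 < β → ‖∫ c in a'..b, e (β * ((x : ℝ) ^ c - (y : ℝ) ^ c))‖ ≤
      1 / (β * (P : ℝ) ^ (a - 1) * ((x : ℝ) - y)) := by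
    intro β hβ
    have hd : ∀ t : ℝ, HasDerivAt (fun c : ℝ => (x : ℝ) ^ c) ((x : ℝ) ^ t * Real.log x) t := fun t =>
      (Real.hasStrictDerivAt_const_rpow hx0 t).hasDerivAt
    have hd' : ∀ t : ℝ, HasDerivAt (fun c : ℝ => (y : ℝ) ^ c) ((y : ℝ) ^ t * Real.log y) t := fun t =>
      (Real.hasStrictDerivAt_const_rpow hy0 t).hasDerivAt
    have h1 := osc (a := a') (b := b) hab
      (φ := fun c => 2 * Real.pi * (β * ((x : ℝ) ^ c - (y : ℝ) ^ c)))
      (φ1 := fun c => 2 * Real.pi * (β * ((x : ℝ) ^ c * Real.log x - (y : ℝ) ^ c * Real.log y)))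
      (φ2 := fun c => 2 * Real.pi * (β * ((x : ℝ) ^ c * Real.log x * Real.log x - (y : ℝ) ^ c * Real.log y * Real.log y)))
      (fun t => (((hd t).sub (hd' t)).const_mul β).const_mul (2 * Real.pi))
      (fun t => ((((hd t).mul_const (Real.log x)).sub ((hd' t).mul_const (Real.log y))).const_mul β).const_mul (2 * Real.pi))
      (by
        have c1 := pw_cont (x := x) (by omega)
        have c2 := pw_cont (x := y) (by omega)
        fun_prop)
      (fun t ht => by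
        have h2 := pair_ge hP hPy hyx ha (haa.trans ht.1)
        have h3 : 0 ≤ Real.log y := Real.log_nonneg (by linarith)
        have h4 : Real.log y ≤ Real.log x := Real.log_le_log hy0 (by linarith)
        have h5 : 0 ≤ (x : ℝ) ^ t * Real.log x := mul_nonneg (by positivity) (by linarith)
        have h6 : (y : ℝ) ^ t * Real.log y * Real.log y ≤ (x : ℝ) ^ t * Real.log x * Real.log x := by
          apply mul_le_mul _ h4 h3 h5
          have := mul_pos hPa hxy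
          linarith
        have : 0 ≤ (x : ℝ) ^ t * Real.log x * Real.log x - (y : ℝ) ^ t * Real.log y * Real.log y := by linarith
        positivity)
      (l := 2 * (β * (P : ℝ) ^ (a - 1) * ((x : ℝ) - y))) (by positivity)
      (fun t ht => by
        have h2 := pair_ge hP hPy hyx ha (haa.trans ht.1)
        have h3 : β * (P : ℝ) ^ (a - 1) * ((x : ℝ) - y) ≤ β * ((x : ℝ) ^ t * Real.log x - (y : ℝ) ^ t * Real.log y) := by
          rw [mul_assoc]
          exact mul_le_mul_of_nonneg_left h2 hβ.le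
        have h4 : 0 ≤ β * (P : ℝ) ^ (a - 1) * ((x : ℝ) - y) := by positivity
        have h5 : 2 * (β * (P : ℝ) ^ (a - 1) * ((x : ℝ) - y)) ≤ 2 * Real.pi * (β * (P : ℝ) ^ (a - 1) * ((x : ℝ) - y)) :=
          mul_le_mul_of_nonneg_right (by linarith) h4
        refine h5.trans ?_
        exact mul_le_mul_of_nonneg_left h3 (by positivity))
    have h2 : ∀ c : ℝ, e (β * ((x : ℝ) ^ c - (y : ℝ) ^ c)) =
      cexp (((fun c : ℝ => 2 * Real.pi * (β * ((x : ℝ) ^ c - (y : ℝ) ^ c))) c : ℝ) * I) := fun c => rfl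
    simp_rw [h2]
    refine h1.trans (le_of_eq ?_)
    field_simp
  rcases lt_or_gt_of_ne hα with h | h
  · have h1 : ∀ c : ℝ, α * ((x : ℝ) ^ c - (y : ℝ) ^ c) = -(-α * ((x : ℝ) ^ c - (y : ℝ) ^ c)) := fun c => by ring
    simp_rw [h1]
    rw [int_neg (f := fun c => -α * ((x : ℝ) ^ c - (y : ℝ) ^ c)), abs_of_neg h]
    exact key (-α) (by linarith)
  · rw [abs_of_pos h]
    exact key α h

/-- the weighted block sum -/
noncomputable def B (u : ℕ → ℝ) (P : ℕ) (α c : ℝ) : ℂ := ∑ x ∈ Ico P (3 * P), (u x : ℂ) * e (α * (x : ℝ) ^ c)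

lemma B_cont (u : ℕ → ℝ) {P : ℕ} (_hP : 1 ≤ P) : Continuous fun p : ℝ × ℝ => B u P p.1 p.2 := by
  unfold B
  refine continuous_finsetSum _ fun x hx => continuous_const.mul (e_cont.comp ?_)
  rw [mem_Ico] at hx
  exact continuous_fst.mul ((pw_cont (x := x) (by omega)).comp continuous_snd)

lemma B_cont2 (u : ℕ → ℝ) {P : ℕ} (hP : 1 ≤ P) (α : ℝ) : Continuous fun c : ℝ => B u P α c :=
  (B_cont u hP).comp (by fun_prop : Continuous fun c : ℝ => ((α, c) : ℝ × ℝ))

lemma B_le {u : ℕ → ℝ} {P : ℕ} {ℓ : ℝ} (hu : ∀ x ∈ Ico P (3 * P), |u x| ≤ ℓ) (α c : ℝ) : ‖B u P α c‖ ≤ 2 * P * ℓ := by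
  unfold B
  refine (norm_sum_le _ _).trans ?_
  have h1 : ∀ x ∈ Ico P (3 * P), ‖(u x : ℂ) * e (α * (x : ℝ) ^ c)‖ ≤ ℓ := by
    intro x hx
    rw [norm_mul, norm_e, mul_one, Complex.norm_real, Real.norm_eq_abs]
    exact hu x hx
  refine (sum_le_sum h1).trans (le_of_eq ?_)
  rw [sum_const, Nat.card_Ico, nsmul_eq_mul, show 3 * P - P = 2 * P by omega]
  push_cast
  ring

/-- the mean square over the exponent -/
theorem sqmean {P : ℕ} (hP : 1 ≤ P) {a b : ℝ} (ha : 2 ≤ a) (hab : a ≤ b) {α : ℝ} (hα : α ≠ 0) {u : ℕ → ℝ} {ℓ : ℝ}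
    (hu : ∀ x ∈ Ico P (3 * P), |u x| ≤ ℓ) :
    ∫ c in a..b, ‖B u P α c‖ ^ 2 ≤
      ℓ ^ 2 * (2 * P * (b - a) + 4 * P * (1 + Real.log (2 * P)) / (|α| * (P : ℝ) ^ (a - 1))) := by
  have hP0 : (0 : ℝ) < P := by exact_mod_cast hP
  have hα0 : 0 < |α| := abs_pos.2 hα
  have hPa : 0 < (P : ℝ) ^ (a - 1) := by positivity
  have hℓ : 0 ≤ ℓ := (abs_nonneg _).trans (hu P (by rw [mem_Ico]; omega))
  set h : ℕ → ℕ → ℝ → ℂ := fun x y c => (u x : ℂ) * (u y : ℂ) * e (α * ((x : ℝ) ^ c - (y : ℝ) ^ c)) with hh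
  have hhc : ∀ x ∈ Ico P (3 * P), ∀ y ∈ Ico P (3 * P), Continuous (h x y) := by
    intro x hx y hy
    rw [mem_Ico] at hx hy
    have c1 := pw_cont (x := x) (by omega)
    have c2 := pw_cont (x := y) (by omega)
    exact continuous_const.mul (e_cont.comp (by fun_prop))
  have h1 : ∀ c : ℝ, ((‖B u P α c‖ ^ 2 : ℝ) : ℂ) = ∑ x ∈ Ico P (3 * P), ∑ y ∈ Ico P (3 * P), h x y c := by
    intro c
    push_cast
    rw [← Complex.mul_conj', B, map_sum, sum_mul_sum]
    apply sum_congr rfl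
    intro x _
    apply sum_congr rfl
    intro y _
    rw [hh]
    simp only
    rw [map_mul, Complex.conj_ofReal, mul_sub, e_sub]
    ring
  have h2 : ((∫ c in a..b, ‖B u P α c‖ ^ 2 : ℝ) : ℂ) =
      ∑ x ∈ Ico P (3 * P), ∑ y ∈ Ico P (3 * P), ∫ c in a..b, h x y c := by
    rw [← intervalIntegral.integral_ofReal]
    simp_rw [h1]
    rw [intervalIntegral.integral_finsetSum (fun x hx =>
      (continuous_finsetSum _ fun y hy => hhc x hx y hy).intervalIntegrable _ _)]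
    apply sum_congr rfl
    intro x hx
    rw [intervalIntegral.integral_finsetSum (fun y hy => (hhc x hx y hy).intervalIntegrable _ _)]
  rw [double_sum] at h2
  have h3 : ‖∑ x ∈ Ico P (3 * P), ∫ c in a..b, h x x c‖ ≤ ℓ ^ 2 * (2 * P * (b - a)) := by
    have e1 : ∀ x ∈ Ico P (3 * P), ‖∫ c in a..b, h x x c‖ ≤ ℓ ^ 2 * (b - a) := by
      intro x hx
      have e2 : ∀ c ∈ Set.uIoc a b, ‖h x x c‖ ≤ ℓ ^ 2 := by
        intro c _
        rw [hh]
        simp only
        rw [norm_mul, norm_mul, norm_e, mul_one, Complex.norm_real, Real.norm_eq_abs]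
        have := hu x hx
        nlinarith [abs_nonneg (u x)]
      have := intervalIntegral.norm_integral_le_of_norm_le_const e2
      rwa [abs_of_nonneg (by linarith)] at this
    refine (norm_sum_le _ _).trans ((sum_le_sum e1).trans (le_of_eq ?_))
    rw [sum_const, Nat.card_Ico, nsmul_eq_mul, show 3 * P - P = 2 * P by omega]
    push_cast
    ring
  -- the correlations
  have hsw : ∀ (x y : ℕ), ∫ c in a..b, h x y c = (u x : ℂ) * (u y : ℂ) * ∫ c in a..b, e (α * ((x : ℝ) ^ c - (y : ℝ) ^ c)) := by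
    intro x y
    rw [hh]
    simp only
    rw [intervalIntegral.integral_const_mul]
  have h4 : ∀ D ∈ Ico 1 (3 * P - P), ‖∑ y ∈ Ico P (3 * P - D), ((∫ c in a..b, h (y + D) y c) + ∫ c in a..b, h y (y + D) c)‖ ≤
      ℓ ^ 2 * (4 * P / (|α| * (P : ℝ) ^ (a - 1))) * (1 / D) := by
    intro D hD
    rw [mem_Ico] at hD
    have hD1 : 1 ≤ D := hD.1
    have hD0 : (0 : ℝ) < D := by exact_mod_cast hD1
    have e1 : ∀ y ∈ Ico P (3 * P - D), ‖(∫ c in a..b, h (y + D) y c) + ∫ c in a..b, h y (y + D) c‖ ≤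
        ℓ ^ 2 * (2 / (|α| * (P : ℝ) ^ (a - 1) * D)) := by
      intro y hy
      rw [mem_Ico] at hy
      have u1 := hu (y + D) (by rw [mem_Ico]; omega)
      have u2 := hu y (by rw [mem_Ico]; omega)
      have p1 := pair_int (x := y + D) (y := y) hP hy.1 (by omega) ha le_rfl hab hα
      have p2 := pair_int (x := y + D) (y := y) hP hy.1 (by omega) ha le_rfl hab (neg_ne_zero.2 hα)
      rw [abs_neg] at p2
      have eD : ((y + D : ℕ) : ℝ) - y = D := by push_cast; ring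
      rw [eD] at p1 p2
      have e3 : ∀ c : ℝ, e (-α * (((y + D : ℕ) : ℝ) ^ c - (y : ℝ) ^ c)) = e (α * ((y : ℝ) ^ c - ((y + D : ℕ) : ℝ) ^ c)) := by
        intro c
        congr 1
        ring
      simp_rw [e3] at p2
      rw [hsw, hsw]
      have n1 : ‖(u (y + D) : ℂ) * (u y : ℂ)‖ ≤ ℓ ^ 2 := by
        rw [norm_mul, Complex.norm_real, Complex.norm_real, Real.norm_eq_abs, Real.norm_eq_abs]
        nlinarith [abs_nonneg (u (y + D)), abs_nonneg (u y)]
      have n2 : ‖(u y : ℂ) * (u (y + D) : ℂ)‖ ≤ ℓ ^ 2 := by rw [mul_comm]; exact n1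
      refine (norm_add_le _ _).trans ?_
      rw [norm_mul, norm_mul ((u y : ℂ) * (u (y + D) : ℂ))]
      have q1 := mul_le_mul n1 p1 (norm_nonneg _) (by positivity)
      have q2 := mul_le_mul n2 p2 (norm_nonneg _) (by positivity)
      refine (add_le_add q1 q2).trans (le_of_eq ?_)
      field_simp
      norm_num
    refine (norm_sum_le _ _).trans ((sum_le_sum e1).trans ?_)
    rw [sum_const, Nat.card_Ico, nsmul_eq_mul]
    have e2 : ((3 * P - D - P : ℕ) : ℝ) ≤ 2 * P := by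
      have : 3 * P - D - P ≤ 2 * P := by omega
      exact_mod_cast this
    calc ((3 * P - D - P : ℕ) : ℝ) * (ℓ ^ 2 * (2 / (|α| * (P : ℝ) ^ (a - 1) * D))) ≤
        (2 * P) * (ℓ ^ 2 * (2 / (|α| * (P : ℝ) ^ (a - 1) * D))) := mul_le_mul_of_nonneg_right e2 (by positivity)
      _ = _ := by
        field_simp
        ring
  have hlog : 0 ≤ Real.log (2 * P) := Real.log_nonneg (by
    have : (1 : ℝ) ≤ P := by exact_mod_cast hP
    linarith)
  have h5 : ‖((∫ c in a..b, ‖B u P α c‖ ^ 2 : ℝ) : ℂ)‖ ≤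
      ℓ ^ 2 * (2 * P * (b - a)) + ℓ ^ 2 * (4 * P / (|α| * (P : ℝ) ^ (a - 1))) * (1 + Real.log (2 * P)) := by
    rw [h2]
    refine (norm_add_le _ _).trans (add_le_add h3 ?_)
    refine (norm_sum_le _ _).trans ((sum_le_sum h4).trans ?_)
    rw [← mul_sum]
    apply mul_le_mul_of_nonneg_left _ (by positivity)
    have e3 : ∑ D ∈ Ico 1 (3 * P - P), 1 / (D : ℝ) ≤ ((harmonic (2 * P) : ℚ) : ℝ) := by
      rw [harmonic]
      push_cast
      rw [show 3 * P - P = 2 * P by omega, Finset.sum_Ico_eq_sum_range]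
      have e4 : ∀ i ∈ range (2 * P - 1), 1 / (((1 + i : ℕ)) : ℝ) = ((i : ℝ) + 1)⁻¹ := by
        intro i _
        rw [one_div]
        congr 1
        push_cast
        ring
      rw [sum_congr rfl e4]
      apply sum_le_sum_of_subset_of_nonneg
      · intro i hi
        rw [mem_range] at hi ⊢
        omega
      · intro i _ _
        positivity
    refine e3.trans ?_
    have := harmonic_le_one_add_log (2 * P)
    refine this.trans (le_of_eq ?_)
    push_cast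
    rfl
  rw [Complex.norm_real] at h5
  refine (le_abs_self _).trans (h5.trans (le_of_eq ?_))
  ring

/-- from the mean square to the mean -/
lemma mean_of_sq {g : ℝ → ℝ} (hg : Continuous g) {a b Q : ℝ} (hab : a ≤ b) (hab1 : b - a ≤ 1) (hQ : 0 < Q)
    (h : ∫ c in a..b, g c ^ 2 ≤ Q ^ 2) : ∫ c in a..b, g c ≤ Q := by
  have h1 : ∫ c in a..b, g c ≤ ∫ c in a..b, (g c ^ 2 * (1 / (2 * Q)) + Q / 2) := by
    apply intervalIntegral.integral_mono_on hab (hg.intervalIntegrable _ _)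
      ((by fun_prop : Continuous fun c => g c ^ 2 * (1 / (2 * Q)) + Q / 2).intervalIntegrable _ _)
    intro c _
    have h2 : 0 ≤ (g c - Q) ^ 2 := sq_nonneg _
    have h3 : g c ^ 2 * (1 / (2 * Q)) + Q / 2 - g c = (g c - Q) ^ 2 * (1 / (2 * Q)) := by
      field_simp
      ring
    have h4 : 0 ≤ (g c - Q) ^ 2 * (1 / (2 * Q)) := by positivity
    linarith
  refine h1.trans ?_
  rw [intervalIntegral.integral_add ((by fun_prop : Continuous fun c => g c ^ 2 * (1 / (2 * Q))).intervalIntegrable _ _)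
    (by simp), intervalIntegral.integral_mul_const, intervalIntegral.integral_const, smul_eq_mul]
  have h2 : (∫ c in a..b, g c ^ 2) * (1 / (2 * Q)) ≤ Q ^ 2 * (1 / (2 * Q)) :=
    mul_le_mul_of_nonneg_right h (by positivity)
  have h3 : Q ^ 2 * (1 / (2 * Q)) = Q / 2 := by
    field_simp
  have h4 : (b - a) * (Q / 2) ≤ 1 * (Q / 2) := mul_le_mul_of_nonneg_right hab1 (by positivity)
  linarith

/-- the mean over the exponent of the modulus of a block -/
theorem block {P : ℕ} (hP : 1 ≤ P) {a b : ℝ} (ha : 2 ≤ a) (hab : a ≤ b) (hab1 : b - a ≤ 1) {α : ℝ} (hα : α ≠ 0)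
    {u : ℕ → ℝ} {ℓ : ℝ} (hℓ : 0 < ℓ) (hu : ∀ x ∈ Ico P (3 * P), |u x| ≤ ℓ) :
    ∫ c in a..b, ‖B u P α c‖ ≤ 2 * ℓ * (1 + Real.log (2 * P)) * (√(P : ℝ) + |α| ^ (-(1 / a))) := by
  have hP1 : (1 : ℝ) ≤ P := by exact_mod_cast hP
  have hP0 : (0 : ℝ) < P := by linarith
  have hα0 : 0 < |α| := abs_pos.2 hα
  have ha0 : 0 < a := by linarith
  have hlog : 0 ≤ Real.log (2 * P) := Real.log_nonneg (by linarith)
  set v : ℝ := |α| ^ (-(1 / a)) with hv
  have hv0 : 0 < v := Real.rpow_pos_of_pos hα0 _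
  have hva : v ^ a = |α|⁻¹ := by
    rw [hv, ← Real.rpow_mul hα0.le, show -(1 / a) * a = -1 by field_simp, Real.rpow_neg_one]
  have hs : √(P : ℝ) * √(P : ℝ) = P := Real.mul_self_sqrt hP0.le
  have hs0 : 0 < √(P : ℝ) := Real.sqrt_pos.2 hP0
  rcases le_or_gt (P : ℝ) v with hPv | hPv
  · have h1 : ∫ c in a..b, ‖B u P α c‖ ≤ ∫ _c in a..b, 2 * P * ℓ := by
      apply intervalIntegral.integral_mono_on hab ((B_cont2 u hP α).norm.intervalIntegrable _ _) (by simp)
      intro c _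
      exact B_le hu α c
    rw [intervalIntegral.integral_const, smul_eq_mul] at h1
    have h2 : (b - a) * (2 * P * ℓ) ≤ 1 * (2 * P * ℓ) := mul_le_mul_of_nonneg_right hab1 (by positivity)
    calc ∫ c in a..b, ‖B u P α c‖ ≤ 2 * P * ℓ := by linarith
      _ = 2 * ℓ * 1 * P := by ring
      _ ≤ 2 * ℓ * (1 + Real.log (2 * P)) * (√(P : ℝ) + v) := by
          apply mul_le_mul _ (by linarith) hP0.le (by positivity)
          apply mul_le_mul_of_nonneg_left (by linarith) (by positivity)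
  · apply mean_of_sq (B_cont2 u hP α).norm hab hab1 (by positivity)
    refine (sqmean hP ha hab hα hu).trans ?_
    have h1 : 2 * P * (b - a) ≤ 2 * (P : ℝ) := by nlinarith
    have h2 : 4 * P * (1 + Real.log (2 * P)) / (|α| * (P : ℝ) ^ (a - 1)) ≤ 4 * (1 + Real.log (2 * P)) * v ^ 2 := by
      rw [div_le_iff₀ (by positivity)]
      have e1 : |α| = (v ^ a)⁻¹ := by rw [hva, inv_inv]
      have e2 : (v : ℝ) ^ a = v ^ (a - 2) * v ^ 2 := by
        rw [← Real.rpow_two, ← Real.rpow_add hv0]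
        congr 1
        ring
      have e3 : (P : ℝ) ^ (a - 1) = (P : ℝ) ^ (a - 2) * P := by
        rw [← Real.rpow_add_one hP0.ne']
        congr 1
        ring
      have e4 : v ^ (a - 2) ≤ (P : ℝ) ^ (a - 2) := Real.rpow_le_rpow hv0.le hPv.le (by linarith)
      have e5 : 0 < v ^ (a - 2) := Real.rpow_pos_of_pos hv0 _
      have e6 : 4 * (1 + Real.log (2 * P)) * v ^ 2 * (|α| * (P : ℝ) ^ (a - 1)) =
          4 * P * (1 + Real.log (2 * P)) * ((P : ℝ) ^ (a - 2) / v ^ (a - 2)) := by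
        rw [e1, e2, e3]
        field_simp
      rw [e6]
      have e7 : 1 ≤ (P : ℝ) ^ (a - 2) / v ^ (a - 2) := by rw [le_div_iff₀ e5]; linarith
      calc 4 * P * (1 + Real.log (2 * P)) = 4 * P * (1 + Real.log (2 * P)) * 1 := (mul_one _).symm
        _ ≤ _ := mul_le_mul_of_nonneg_left e7 (by positivity)
    have h3 : 2 * (P : ℝ) + 4 * (1 + Real.log (2 * P)) * v ^ 2 ≤ (2 * (1 + Real.log (2 * P)) * (√(P : ℝ) + v)) ^ 2 := by
      set l := Real.log (2 * P)
      have e0 : (√(P : ℝ) + v) ^ 2 = P + 2 * (√(P : ℝ) * v) + v ^ 2 := by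
        have : (√(P : ℝ) + v) ^ 2 = √(P : ℝ) * √(P : ℝ) + 2 * (√(P : ℝ) * v) + v ^ 2 := by ring
        rw [this, hs]
      have e1 : (2 * (1 + l) * (√(P : ℝ) + v)) ^ 2 = 4 * (1 + l) ^ 2 * (P + 2 * (√(P : ℝ) * v) + v ^ 2) := by
        rw [mul_pow, e0]; ring
      rw [e1]
      have e2 : 1 + l ≤ (1 + l) ^ 2 := by nlinarith
      have e3 : 0 ≤ √(P : ℝ) * v := by positivity
      have e4 : (1 + l) * (P + v ^ 2) ≤ (1 + l) ^ 2 * (P + 2 * (√(P : ℝ) * v) + v ^ 2) := by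
        apply mul_le_mul e2 (by linarith) (by positivity) (by positivity)
      nlinarith
    calc ℓ ^ 2 * (2 * P * (b - a) + 4 * P * (1 + Real.log (2 * P)) / (|α| * (P : ℝ) ^ (a - 1))) ≤
        ℓ ^ 2 * (2 * P + 4 * (1 + Real.log (2 * P)) * v ^ 2) := by
          apply mul_le_mul_of_nonneg_left _ (by positivity)
          linarith
      _ ≤ ℓ ^ 2 * (2 * (1 + Real.log (2 * P)) * (√(P : ℝ) + v)) ^ 2 := mul_le_mul_of_nonneg_left h3 (by positivity)
      _ = _ := by ring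

end Pool.Agent.K7.H94.EW
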