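import Mathlib
import Pool.Agent.K7.H94.EW.Sq

set_option autoImplicit false

/-! Waring-Goldbach with real exponents: full sums, their means over the exponent, the main terms. -/

namespace Pool.Agent.K7.H94.EW
open Finset MeasureTheory Complex
open Pool.Agent.K7.H74.WS (e norm_e e_cont e_add e_neg e_sub e_zero e_lip osc int_neg)

/-- the weight of the primes -/
noncomputable def lw (x : ℕ) : ℝ := if x.Prime then Real.log x else 0

lemma lw_nonneg (x : ℕ) : 0 ≤ lw x := by
  unfold lw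
  split_ifs
  · exact Real.log_natCast_nonneg x
  · exact le_rfl

lemma lw_le {x : ℕ} {N : ℕ} (h : x ≤ N) : |lw x| ≤ Real.log N := by
  rw [abs_of_nonneg (lw_nonneg x)]
  unfold lw
  split_ifs with hp
  · exact Real.log_le_log (by exact_mod_cast hp.pos) (by exact_mod_cast h)
  · exact Real.log_natCast_nonneg N

/-- the exponential sum over the primes below `3 ^ m` -/
noncomputable def S (m : ℕ) (α c : ℝ) : ℂ := ∑ x ∈ Ico 1 (3 ^ m), (lw x : ℂ) * e (α * (x : ℝ) ^ c)

/-- the main term -/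
noncomputable def M (m : ℕ) (α c : ℝ) : ℂ := ∫ u in (0 : ℝ)..(3 : ℝ) ^ m, e (α * u ^ c)

lemma S_cont (m : ℕ) : Continuous fun p : ℝ × ℝ => S m p.1 p.2 := by
  unfold S
  refine continuous_finsetSum _ fun x hx => continuous_const.mul (e_cont.comp ?_)
  rw [mem_Ico] at hx
  exact continuous_fst.mul ((pw_cont (x := x) (by omega)).comp continuous_snd)

lemma S_cont2 (m : ℕ) (α : ℝ) : Continuous fun c : ℝ => S m α c :=
  (S_cont m).comp (by fun_prop : Continuous fun c : ℝ => ((α, c) : ℝ × ℝ))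

lemma theta_sum (N : ℕ) : ∑ x ∈ Ico 1 (N + 1), lw x = Chebyshev.theta N := by
  rw [Chebyshev.theta_eq_sum_Icc, Nat.floor_natCast, sum_filter]
  have h1 : Icc 0 N = insert 0 (Ico 1 (N + 1)) := by
    ext x
    simp only [mem_Icc, mem_insert, mem_Ico]
    omega
  rw [h1, sum_insert (by simp)]
  simp [lw, Nat.not_prime_zero]

lemma S_le (m : ℕ) (α c : ℝ) : ‖S m α c‖ ≤ 2 * (3 : ℝ) ^ m := by
  unfold S
  refine (norm_sum_le _ _).trans ?_
  have h1 : ∀ x ∈ Ico 1 (3 ^ m), ‖(lw x : ℂ) * e (α * (x : ℝ) ^ c)‖ = lw x := by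
    intro x _
    rw [norm_mul, norm_e, mul_one, Complex.norm_real, Real.norm_of_nonneg (lw_nonneg x)]
  rw [sum_congr rfl h1]
  obtain ⟨N, hN⟩ : ∃ N, 3 ^ m = N + 1 := ⟨3 ^ m - 1, by have := Nat.one_le_pow m 3 (by norm_num); omega⟩
  rw [hN, theta_sum]
  have h2 := Chebyshev.theta_le_log4_mul_x (x := (N : ℝ)) (Nat.cast_nonneg _)
  have h3 : Real.log 4 ≤ 2 := by
    have : Real.log 4 = 2 * Real.log 2 := by
      rw [show (4 : ℝ) = 2 ^ 2 by norm_num, Real.log_pow]; norm_num
    have := Real.log_two_lt_d9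
    linarith
  have h4 : (N : ℝ) ≤ (3 : ℝ) ^ m := by
    have : ((3 ^ m : ℕ) : ℝ) = (N : ℝ) + 1 := by rw [hN]; push_cast; ring
    push_cast at this
    linarith
  have h5 : (0 : ℝ) ≤ N := Nat.cast_nonneg _
  nlinarith

lemma S_succ (m : ℕ) (α c : ℝ) : S (m + 1) α c = S m α c + B lw (3 ^ m) α c := by
  unfold S B
  rw [← sum_Ico_consecutive _ (Nat.one_le_pow m 3 (by norm_num)) (by rw [pow_succ]; omega : 3 ^ m ≤ 3 ^ (m + 1))]
  congr 2
  rw [pow_succ, mul_comm]

lemma S_sum (m : ℕ) (α c : ℝ) : S m α c = ∑ i ∈ range m, B lw (3 ^ i) α c := by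
  induction m with
  | zero => simp [S]
  | succ m ih => rw [S_succ, ih, sum_range_succ]

lemma log3_le : Real.log 3 ≤ 2 := by
  have := Real.log_le_sub_one_of_pos (by norm_num : (0 : ℝ) < 3)
  linarith

/-- the mean over the exponent -/
theorem S_mean (m : ℕ) {a b : ℝ} (ha : 2 ≤ a) (hab : a ≤ b) (hab1 : b - a ≤ 1) {α : ℝ} (hα : α ≠ 0) :
    ∫ c in a..b, ‖S m α c‖ ≤ 8 * ((m : ℝ) + 1) ^ 3 * (√((3 : ℝ) ^ m) + |α| ^ (-(1 / a))) := by
  have h1 : ∫ c in a..b, ‖S m α c‖ ≤ ∫ c in a..b, ∑ i ∈ range m, ‖B lw (3 ^ i) α c‖ := by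
    apply intervalIntegral.integral_mono_on hab ((S_cont2 m α).norm.intervalIntegrable _ _)
      ((continuous_finsetSum _ fun i _ => (B_cont2 lw (Nat.one_le_pow i 3 (by norm_num)) α).norm).intervalIntegrable _ _)
    intro c _
    rw [S_sum]
    exact norm_sum_le _ _
  refine h1.trans ?_
  rw [intervalIntegral.integral_finsetSum (fun i _ => (B_cont2 lw (Nat.one_le_pow i 3 (by norm_num)) α).norm.intervalIntegrable _ _)]
  set v : ℝ := |α| ^ (-(1 / a)) with hv
  have hv0 : 0 ≤ v := by positivity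
  have h2 : ∀ i ∈ range m, ∫ c in a..b, ‖B lw (3 ^ i) α c‖ ≤ 8 * ((m : ℝ) + 1) ^ 2 * (√((3 : ℝ) ^ m) + v) := by
    intro i hi
    rw [mem_range] at hi
    have hi' : (i : ℝ) + 1 ≤ m := by exact_mod_cast hi
    have hi0 : (0 : ℝ) ≤ i := Nat.cast_nonneg _
    have h3 : 0 < 2 * ((m : ℝ)) := by linarith
    have h4 := block (P := 3 ^ i) (Nat.one_le_pow i 3 (by norm_num)) ha hab hab1 hα (u := lw) h3 (by
      intro x hx
      rw [mem_Ico] at hx
      refine (lw_le (N := 3 ^ (i + 1)) (by rw [pow_succ]; omega)).trans ?_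
      push_cast
      rw [Real.log_pow]
      push_cast
      have := log3_le
      nlinarith)
    refine h4.trans ?_
    push_cast
    have h5 : 1 + Real.log (2 * (3 : ℝ) ^ i) ≤ 2 * ((m : ℝ) + 1) := by
      rw [Real.log_mul (by norm_num) (by positivity), Real.log_pow]
      have h6 : Real.log 2 ≤ 1 := by have := Real.log_two_lt_d9; linarith
      have := log3_le
      nlinarith
    have h6 : √((3 : ℝ) ^ i) ≤ √((3 : ℝ) ^ m) := Real.sqrt_le_sqrt (pow_le_pow_right₀ (by norm_num) hi.le)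
    have h7 : 0 ≤ Real.log (2 * (3 : ℝ) ^ i) := Real.log_nonneg (by
      have : (1 : ℝ) ≤ 3 ^ i := one_le_pow₀ (by norm_num)
      linarith)
    calc 2 * (2 * (m : ℝ)) * (1 + Real.log (2 * (3 : ℝ) ^ i)) * (√((3 : ℝ) ^ i) + v) ≤
        2 * (2 * (m : ℝ)) * (2 * ((m : ℝ) + 1)) * (√((3 : ℝ) ^ m) + v) := by
          apply mul_le_mul _ (by linarith) (by positivity) (by positivity)
          exact mul_le_mul_of_nonneg_left h5 (by positivity)
      _ ≤ 8 * ((m : ℝ) + 1) ^ 2 * (√((3 : ℝ) ^ m) + v) := by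
          apply mul_le_mul_of_nonneg_right _ (by positivity)
          nlinarith
  refine (sum_le_sum h2).trans ?_
  rw [sum_const, card_range, nsmul_eq_mul]
  have h3 : 0 ≤ 8 * ((m : ℝ) + 1) ^ 2 * (√((3 : ℝ) ^ m) + v) := by positivity
  calc (m : ℝ) * (8 * ((m : ℝ) + 1) ^ 2 * (√((3 : ℝ) ^ m) + v)) ≤
      ((m : ℝ) + 1) * (8 * ((m : ℝ) + 1) ^ 2 * (√((3 : ℝ) ^ m) + v)) := mul_le_mul_of_nonneg_right (by linarith) h3
    _ = _ := by ring

/-! ### the main term -/

lemma M_le (m : ℕ) (α c : ℝ) : ‖M m α c‖ ≤ (3 : ℝ) ^ m := by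
  unfold M
  have h := intervalIntegral.norm_integral_le_of_norm_le_const (a := 0) (b := (3 : ℝ) ^ m) (C := 1)
    (f := fun u => e (α * u ^ c)) (fun u _ => (norm_e _).le)
  rwa [one_mul, sub_zero, abs_of_nonneg (by positivity)] at h

lemma e_rpow_cont {c : ℝ} (hc : 0 ≤ c) (α : ℝ) : Continuous fun u : ℝ => e (α * u ^ c) :=
  e_cont.comp (continuous_const.mul (Real.continuous_rpow_const hc))

lemma M_cont (m : ℕ) : Continuous fun p : ℝ × ℝ => M m p.1 p.2 := by
  unfold M
  have h0 : (0 : ℝ) ≤ (3 : ℝ) ^ m := by positivity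
  simp_rw [intervalIntegral.integral_of_le h0]
  refine continuous_of_dominated (bound := fun _ => (1 : ℝ)) ?_ ?_ ?_ ?_
  · intro p
    apply Measurable.aestronglyMeasurable
    exact e_cont.measurable.comp (measurable_const.mul (measurable_id.pow_const p.2))
  · intro p
    exact Filter.Eventually.of_forall fun u => (norm_e _).le
  · exact integrable_const _
  · rw [ae_restrict_iff' measurableSet_Ioc]
    refine Filter.Eventually.of_forall fun u hu => ?_
    exact e_cont.comp (continuous_fst.mul ((Real.continuous_const_rpow hu.1.ne').comp continuous_snd))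

lemma M_dec (m : ℕ) {α c : ℝ} (hc : 2 ≤ c) (hα : α ≠ 0) : ‖M m α c‖ ≤ 2 * |α| ^ (-(1 / c)) := by
  have hα0 : 0 < |α| := abs_pos.2 hα
  set v : ℝ := |α| ^ (-(1 / c)) with hv
  have hv0 : 0 < v := Real.rpow_pos_of_pos hα0 _
  have hvc : |α| * v ^ c = 1 := by
    rw [hv, ← Real.rpow_mul hα0.le, show -(1 / c) * c = -1 by field_simp, Real.rpow_neg_one, mul_inv_cancel₀ hα0.ne']
  rcases le_or_gt ((3 : ℝ) ^ m) v with h | h
  · have := M_le m α c
    linarith
  have key : ∀ β : ℝ, 0 < β → β * v ^ c = 1 → ‖∫ u in (0 : ℝ)..(3 : ℝ) ^ m, e (β * u ^ c)‖ ≤ 2 * v := by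
    intro β hβ hβv
    have hcn := e_rpow_cont (c := c) (by linarith) β
    rw [← intervalIntegral.integral_add_adjacent_intervals (b := v) (hcn.intervalIntegrable _ _) (hcn.intervalIntegrable _ _)]
    have h1 : ‖∫ u in (0 : ℝ)..v, e (β * u ^ c)‖ ≤ 1 * |v - 0| :=
      intervalIntegral.norm_integral_le_of_norm_le_const fun v _ => (norm_e _).le
    rw [one_mul, sub_zero, abs_of_pos hv0] at h1
    have hpi := Real.pi_gt_three
    have h2 : ‖∫ u in v..(3 : ℝ) ^ m, e (β * u ^ c)‖ ≤ v := by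
      have h3 := osc (a := v) (b := (3 : ℝ) ^ m) h.le
        (φ := fun u => 2 * Real.pi * (β * u ^ c))
        (φ1 := fun u => 2 * Real.pi * (β * (c * u ^ (c - 1))))
        (φ2 := fun u => 2 * Real.pi * (β * (c * ((c - 1) * u ^ (c - 1 - 1)))))
        (fun t => ((Real.hasDerivAt_rpow_const (Or.inr (by linarith))).const_mul β).const_mul (2 * Real.pi))
        (fun t => (((Real.hasDerivAt_rpow_const (Or.inr (by linarith))).const_mul c).const_mul β).const_mul (2 * Real.pi))
        (by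
          have := Real.continuous_rpow_const (q := c - 1 - 1) (by linarith)
          fun_prop)
        (fun t ht => by
          have h3 : 0 ≤ t := hv0.le.trans ht.1
          have h4 : 0 ≤ c - 1 := by linarith
          positivity)
        (l := 2 * (β * v ^ (c - 1))) (by positivity)
        (fun t ht => by
          have h2 : v ^ (c - 1) ≤ t ^ (c - 1) := Real.rpow_le_rpow hv0.le ht.1 (by linarith)
          have h3 : 0 ≤ v ^ (c - 1) := by positivity
          have h5 : v ^ (c - 1) ≤ c * t ^ (c - 1) := by nlinarith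
          have h6 : β * v ^ (c - 1) ≤ β * (c * t ^ (c - 1)) := mul_le_mul_of_nonneg_left h5 hβ.le
          have h7 : 0 ≤ β * (c * t ^ (c - 1)) := (by positivity : 0 ≤ β * v ^ (c - 1)).trans h6
          nlinarith)
      have h4 : ∀ u : ℝ, e (β * u ^ c) = cexp (((fun u : ℝ => 2 * Real.pi * (β * u ^ c)) u : ℝ) * I) := fun u => rfl
      simp_rw [h4]
      refine h3.trans (le_of_eq ?_)
      have h5 : β * v ^ (c - 1) * v = 1 := by
        rw [mul_assoc, ← Real.rpow_add_one hv0.ne', sub_add_cancel, hβv]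
      field_simp
      linarith
    have := norm_add_le (∫ u in (0 : ℝ)..v, e (β * u ^ c)) (∫ u in v..(3 : ℝ) ^ m, e (β * u ^ c))
    linarith
  unfold M
  rcases lt_or_gt_of_ne hα with h1 | h1
  · have h2 : ∀ u : ℝ, α * u ^ c = -(-α * u ^ c) := fun u => by ring
    simp_rw [h2]
    rw [int_neg (f := fun u => -α * u ^ c)]
    exact key (-α) (by linarith) (by rw [← abs_of_neg h1]; exact hvc)
  · exact key α h1 (by rw [← abs_of_pos h1]; exact hvc)

end Pool.Agent.K7.H94.EW
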