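import Mathlib
import Pool.Agent.K7.H94.EW.Mn
import Pool.Agent.W762.EC.PntA

set_option autoImplicit false

/-! Waring-Goldbach with real exponents: small frequencies, by the prime number theorem. -/

namespace Pool.Agent.K7.H94.EW
open Finset MeasureTheory Complex
open Pool.Agent.K7.H74.WS (e norm_e e_cont e_add e_neg e_sub e_zero e_lip)

lemma pow_growth (K : ℕ) : ∃ C : ℝ, 0 < C ∧ ∀ m : ℕ, ((m : ℝ) + 1) ^ K ≤ C * √((3 : ℝ) ^ m) := by
  have h1 : Filter.Tendsto (fun n : ℕ => (n : ℝ) ^ K / (√(3 : ℝ)) ^ n) Filter.atTop (nhds 0) :=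
    tendsto_pow_const_div_const_pow_of_one_lt K (by
      rw [Real.lt_sqrt (by norm_num)]; norm_num)
  obtain ⟨C, hC⟩ := h1.bddAbove_range
  refine ⟨max C 1 * √3, by positivity, fun m => ?_⟩
  have h2 : ((m + 1 : ℕ) : ℝ) ^ K / (√(3 : ℝ)) ^ (m + 1) ≤ C := hC ⟨m + 1, rfl⟩
  have h3 : (0 : ℝ) < √3 := Real.sqrt_pos.2 (by norm_num)
  rw [div_le_iff₀ (by positivity)] at h2
  have h4 : (√(3 : ℝ)) ^ m = √((3 : ℝ) ^ m) := by
    rw [← Real.sqrt_sq (by positivity : (0 : ℝ) ≤ √(3 : ℝ) ^ m), ← pow_mul, mul_comm m 2, pow_mul, Real.sq_sqrt (by norm_num)]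
  have h5 : C * √3 ^ (m + 1) ≤ max C 1 * √3 ^ (m + 1) := mul_le_mul_of_nonneg_right (le_max_left _ _) (by positivity)
  calc ((m : ℝ) + 1) ^ K = ((m + 1 : ℕ) : ℝ) ^ K := by push_cast; ring
    _ ≤ max C 1 * √3 ^ (m + 1) := h2.trans h5
    _ = max C 1 * √3 * √((3 : ℝ) ^ m) := by rw [pow_succ, h4]; ring

/-- the prime number theorem on the scale `3 ^ m` -/
theorem theta_err (K : ℕ) : ∃ C : ℝ, 0 < C ∧ ∀ m n : ℕ, n ≤ 3 ^ m →
    |Chebyshev.theta n - n| ≤ C * ((3 : ℝ) ^ m / ((m : ℝ) + 1) ^ K) := by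
  obtain ⟨N₁, hN₁⟩ := Pool.Agent.W762.EC.PntA.large (K + 1) (by omega)
  obtain ⟨C₁, hC₁, hg₁⟩ := pow_growth K
  obtain ⟨C₂, hC₂, hg₂⟩ := pow_growth (K + 1)
  have hlog4 : Real.log 4 ≤ 2 := by
    have : Real.log 4 = 2 * Real.log 2 := by
      rw [show (4 : ℝ) = 2 ^ 2 by norm_num, Real.log_pow]; norm_num
    have := Real.log_two_lt_d9
    linarith
  refine ⟨3 * (N₁ + 1) * C₁ + ((35 + 16 * 8 ^ (K + 1)) * 4 ^ (K + 1) + 4 * C₂), by positivity, fun m n hn => ?_⟩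
  have hnR : (n : ℝ) ≤ (3 : ℝ) ^ m := by exact_mod_cast hn
  have hn0 : (0 : ℝ) ≤ n := Nat.cast_nonneg _
  have hm0 : (0 : ℝ) ≤ m := Nat.cast_nonneg _
  set T : ℝ := (3 : ℝ) ^ m with hT
  have hT1 : 1 ≤ T := one_le_pow₀ (by norm_num)
  have hT0 : 0 < T := by linarith
  have hsT : √T * √T = T := Real.mul_self_sqrt hT0.le
  have hsT1 : 1 ≤ √T := Real.one_le_sqrt.2 hT1
  have hmK : 0 < ((m : ℝ) + 1) ^ K := by positivity
  have hq1 : √T ≤ C₁ * (T / ((m : ℝ) + 1) ^ K) := by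
    rw [← mul_div_assoc, le_div_iff₀ hmK]
    calc √T * ((m : ℝ) + 1) ^ K ≤ √T * (C₁ * √T) := mul_le_mul_of_nonneg_left (hg₁ m) (by positivity)
      _ = C₁ * (√T * √T) := by ring
      _ = C₁ * T := by rw [hsT]
  have hq0 : 0 ≤ T / ((m : ℝ) + 1) ^ K := by positivity
  have htriv : |Chebyshev.theta n - n| ≤ 3 * n := by
    have h1 := Chebyshev.theta_nonneg (n : ℝ)
    have h2 := Chebyshev.theta_le_log4_mul_x hn0
    rw [abs_le]
    constructor
    · nlinarith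
    · nlinarith
  by_cases hc : (n : ℝ) ≤ (N₁ + 1) * √T
  · refine htriv.trans ?_
    have h1 : 3 * (n : ℝ) ≤ 3 * ((N₁ + 1) * (C₁ * (T / ((m : ℝ) + 1) ^ K))) := by
      have h2 : ((N₁ : ℝ) + 1) * √T ≤ (N₁ + 1) * (C₁ * (T / ((m : ℝ) + 1) ^ K)) := mul_le_mul_of_nonneg_left hq1 (by positivity)
      linarith
    refine h1.trans ?_
    have h3 : 0 ≤ ((35 + 16 * 8 ^ (K + 1)) * 4 ^ (K + 1) + 4 * C₂) * (T / ((m : ℝ) + 1) ^ K) := by positivity
    linarith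
  · push Not at hc
    have hN1n : N₁ ≤ n := by
      have h1 : (N₁ : ℝ) < n := by nlinarith [(Nat.cast_nonneg N₁ : (0 : ℝ) ≤ N₁)]
      exact_mod_cast h1.le
    have hsn : √T < n := by nlinarith [(Nat.cast_nonneg N₁ : (0 : ℝ) ≤ N₁)]
    have hn1 : (1 : ℝ) ≤ n := by linarith
    have hlog3 : (1 : ℝ) ≤ Real.log 3 := by
      rw [Real.le_log_iff_exp_le (by norm_num)]
      have := Real.exp_one_lt_d9
      linarith
    have hlT : Real.log T = m * Real.log 3 := by rw [hT, Real.log_pow]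
    have hln : (m : ℝ) / 2 ≤ Real.log n := by
      have h1 : Real.log (√T) ≤ Real.log n := Real.log_le_log (by linarith) hsn.le
      rw [Real.log_sqrt hT0.le, hlT] at h1
      nlinarith
    have hln2 : Real.log n ≤ 2 * m := by
      have h1 : Real.log n ≤ Real.log T := Real.log_le_log (by linarith) hnR
      rw [hlT] at h1
      have := log3_le
      nlinarith
    have hm1 : 1 ≤ m := by
      by_contra h
      have : m = 0 := by omega
      subst this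
      simp at hT
      rw [hT] at hnR hsn
      simp at hsn
      linarith
    have hm1' : (1 : ℝ) ≤ m := by exact_mod_cast hm1
    have h1 := hN₁ n hN1n
    have h2 := Chebyshev.abs_psi_sub_theta_le_sqrt_mul_log hn1
    have h3 : |Chebyshev.theta n - n| ≤ |Chebyshev.psi n - n| + |Chebyshev.psi n - Chebyshev.theta n| := by
      have e1 : Chebyshev.theta n - n = (Chebyshev.psi n - n) - (Chebyshev.psi n - Chebyshev.theta n) := by ring
      rw [e1]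
      exact abs_sub _ _
    have h4 : (n : ℝ) / Real.log n ^ (K + 1) ≤ 4 ^ (K + 1) * (T / ((m : ℝ) + 1) ^ K) := by
      have h5 : ((m : ℝ) + 1) / 4 ≤ Real.log n := by linarith
      have h6 : (((m : ℝ) + 1) / 4) ^ (K + 1) ≤ Real.log n ^ (K + 1) := pow_le_pow_left₀ (by positivity) h5 _
      have h7 : 0 < (((m : ℝ) + 1) / 4) ^ (K + 1) := by positivity
      calc (n : ℝ) / Real.log n ^ (K + 1) ≤ T / (((m : ℝ) + 1) / 4) ^ (K + 1) := div_le_div₀ hT0.le hnR h7 h6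
        _ = 4 ^ (K + 1) * (T / ((m : ℝ) + 1) ^ (K + 1)) := by rw [div_pow]; field_simp
        _ ≤ 4 ^ (K + 1) * (T / ((m : ℝ) + 1) ^ K) := by
            apply mul_le_mul_of_nonneg_left _ (by positivity)
            apply div_le_div_of_nonneg_left hT0.le hmK
            exact pow_le_pow_right₀ (by linarith) (by omega)
    have h5 : 2 * √(n : ℝ) * Real.log n ≤ 4 * C₂ * (T / ((m : ℝ) + 1) ^ K) := by
      have h6 : √(n : ℝ) ≤ √T := Real.sqrt_le_sqrt hnR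
      have h7 : 0 ≤ Real.log n := by linarith
      calc 2 * √(n : ℝ) * Real.log n ≤ 2 * √T * (2 * m) := by
            apply mul_le_mul (by linarith) hln2 h7 (by positivity)
        _ ≤ 4 * (√T * ((m : ℝ) + 1)) := by nlinarith
        _ ≤ 4 * (C₂ * (T / ((m : ℝ) + 1) ^ K)) := by
            apply mul_le_mul_of_nonneg_left _ (by norm_num)
            rw [← mul_div_assoc, le_div_iff₀ hmK]
            calc √T * ((m : ℝ) + 1) * ((m : ℝ) + 1) ^ K = √T * ((m : ℝ) + 1) ^ (K + 1) := by ring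
              _ ≤ √T * (C₂ * √T) := mul_le_mul_of_nonneg_left (hg₂ m) (by positivity)
              _ = C₂ * (√T * √T) := by ring
              _ = C₂ * T := by rw [hsT]
        _ = _ := by ring
    have h6 : (35 + 16 * 8 ^ (K + 1)) * ((n : ℝ) / Real.log n ^ (K + 1)) ≤
        (35 + 16 * 8 ^ (K + 1)) * (4 ^ (K + 1) * (T / ((m : ℝ) + 1) ^ K)) := mul_le_mul_of_nonneg_left h4 (by positivity)
    have h7 : 0 ≤ 3 * ((N₁ : ℝ) + 1) * C₁ * (T / ((m : ℝ) + 1) ^ K) := by positivity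
    calc |Chebyshev.theta n - n| ≤ (35 + 16 * 8 ^ (K + 1)) * ((n : ℝ) / Real.log n ^ (K + 1)) + 2 * √(n : ℝ) * Real.log n := by
          linarith
      _ ≤ (35 + 16 * 8 ^ (K + 1)) * (4 ^ (K + 1) * (T / ((m : ℝ) + 1) ^ K)) + 4 * C₂ * (T / ((m : ℝ) + 1) ^ K) := by linarith
      _ ≤ _ := by linarith

/-! ### partial summation -/

/-- partial summation -/
lemma abel (u : ℕ → ℂ) (F : ℕ → ℂ) {N : ℕ} (hN : 1 ≤ N) :
    ∑ x ∈ Ico 1 N, u x * F x = (∑ x ∈ Ico 1 N, u x) * F N -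
      ∑ x ∈ Ico 1 N, (∑ y ∈ Ico 1 (x + 1), u y) * (F (x + 1) - F x) := by
  induction N, hN using Nat.le_induction with
  | base => simp
  | succ N hN ih =>
    rw [sum_Ico_succ_top hN, sum_Ico_succ_top hN, sum_Ico_succ_top hN, ih, sum_Ico_succ_top hN]
    ring

lemma tele (f : ℕ → ℝ) {N : ℕ} (hN : 1 ≤ N) : ∑ x ∈ Ico 1 N, (f (x + 1) - f x) = f N - f 1 := by
  induction N, hN using Nat.le_induction with
  | base => simp
  | succ N hN ih =>
    rw [sum_Ico_succ_top hN, ih]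
    ring

lemma var_le {x y u v : ℝ} (α : ℝ) (h1 : x ≤ u) (h2 : u ≤ v) (h3 : v ≤ y) :
    ‖e (α * v) - e (α * u)‖ ≤ 2 * Real.pi * (|α| * (y - x)) := by
  refine (e_lip _ _).trans ?_
  apply mul_le_mul_of_nonneg_left _ (by have := Real.pi_pos; positivity)
  rw [← mul_sub, abs_mul, abs_of_nonneg (by linarith : 0 ≤ v - u)]
  exact mul_le_mul_of_nonneg_left (by linarith) (abs_nonneg _)

/-- the deviation from the main term for small frequencies -/
theorem low_raw {E : ℝ} {N : ℕ} (hN : 1 ≤ N) (hE : ∀ n : ℕ, n ≤ N → |Chebyshev.theta n - n| ≤ E) (α : ℝ) {c : ℝ} (hc : 0 ≤ c) :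
    ‖(∑ x ∈ Ico 1 N, (lw x : ℂ) * e (α * (x : ℝ) ^ c)) - ∫ u in (0 : ℝ)..(N : ℝ), e (α * u ^ c)‖ ≤
      E * (1 + 2 * Real.pi * (|α| * (N : ℝ) ^ c)) + 2 * Real.pi * (|α| * (N : ℝ) ^ c) + 1 := by
  have hpi := Real.pi_pos
  have hE0 : 0 ≤ E := (abs_nonneg _).trans (hE 0 (by omega))
  set F : ℕ → ℂ := fun x => e (α * (x : ℝ) ^ c) with hF
  set G : ℕ → ℝ := fun x => 2 * Real.pi * (|α| * ((x : ℝ) ^ c)) with hG
  have hcont := e_rpow_cont hc α
  have hmono : ∀ {x y : ℝ}, 0 ≤ x → x ≤ y → x ^ c ≤ y ^ c := fun hx hxy => Real.rpow_le_rpow hx hxy hc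
  have hFs : ∀ x : ℕ, ‖F (x + 1) - F x‖ ≤ G (x + 1) - G x := by
    intro x
    have h1 := var_le (x := (x : ℝ) ^ c) (y := ((x + 1 : ℕ) : ℝ) ^ c) α le_rfl
      (hmono (Nat.cast_nonneg _) (by push_cast; linarith)) le_rfl
    refine h1.trans (le_of_eq ?_)
    rw [hG]; ring
  -- the integral
  have h1 : ∫ u in (0 : ℝ)..(N : ℝ), e (α * u ^ c) = (∫ u in (0 : ℝ)..1, e (α * u ^ c)) +
      ∑ x ∈ Ico 1 N, ∫ u in (x : ℝ)..((x + 1 : ℕ) : ℝ), e (α * u ^ c) := by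
    rw [intervalIntegral.sum_integral_adjacent_intervals_Ico (a := fun n : ℕ => (n : ℝ)) hN
      (fun k _ => hcont.intervalIntegrable _ _), Nat.cast_one,
      intervalIntegral.integral_add_adjacent_intervals (hcont.intervalIntegrable _ _) (hcont.intervalIntegrable _ _)]
  have h2 : ‖∫ u in (0 : ℝ)..1, e (α * u ^ c)‖ ≤ 1 := by
    have h := intervalIntegral.norm_integral_le_of_norm_le_const (a := 0) (b := (1 : ℝ)) (C := 1)
      (f := fun u => e (α * u ^ c)) (fun u _ => (norm_e _).le)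
    simpa using h
  have h3 : ∀ x ∈ Ico 1 N, ‖F x - ∫ u in (x : ℝ)..((x + 1 : ℕ) : ℝ), e (α * u ^ c)‖ ≤ G (x + 1) - G x := by
    intro x _
    have e1 : F x = ∫ _u in (x : ℝ)..((x + 1 : ℕ) : ℝ), F x := by
      rw [intervalIntegral.integral_const]
      push_cast
      simp
    rw [e1, ← intervalIntegral.integral_sub (by simp) (hcont.intervalIntegrable _ _)]
    have h4 : ∀ u ∈ Set.uIoc (x : ℝ) ((x + 1 : ℕ) : ℝ), ‖F x - e (α * u ^ c)‖ ≤ G (x + 1) - G x := by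
      intro u hu
      rw [Set.uIoc_of_le (by push_cast; linarith)] at hu
      rw [norm_sub_rev]
      have h5 := var_le (x := (x : ℝ) ^ c) (y := ((x + 1 : ℕ) : ℝ) ^ c) α le_rfl
        (hmono (Nat.cast_nonneg _) hu.1.le) (hmono ((Nat.cast_nonneg _).trans hu.1.le) hu.2)
      refine h5.trans (le_of_eq ?_)
      rw [hG]; ring
    have h6 := intervalIntegral.norm_integral_le_of_norm_le_const h4
    refine h6.trans (le_of_eq ?_)
    push_cast
    simp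
  have hGN : G N = 2 * Real.pi * (|α| * (N : ℝ) ^ c) := rfl
  have hG1 : 0 ≤ G 1 := by rw [hG]; positivity
  have h7 : ‖(∑ x ∈ Ico 1 N, F x) - ∑ x ∈ Ico 1 N, ∫ u in (x : ℝ)..((x + 1 : ℕ) : ℝ), e (α * u ^ c)‖ ≤ G N := by
    rw [← sum_sub_distrib]
    refine (norm_sum_le _ _).trans ((sum_le_sum h3).trans ?_)
    rw [tele G hN]
    linarith
  -- the weighted sum
  have hsum : ∀ n : ℕ, 1 ≤ n → n ≤ N → ‖∑ x ∈ Ico 1 n, ((lw x : ℂ) - 1)‖ ≤ E := by
    intro n hn1 hnN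
    obtain ⟨k, rfl⟩ : ∃ k, n = k + 1 := ⟨n - 1, by omega⟩
    have e1 : ∑ x ∈ Ico 1 (k + 1), ((lw x : ℂ) - 1) = ((Chebyshev.theta k - k : ℝ) : ℂ) := by
      rw [← theta_sum, sum_sub_distrib, sum_const, Nat.card_Ico]
      push_cast
      simp
    rw [e1, Complex.norm_real]
    exact hE k (by omega)
  have h8 : ‖∑ x ∈ Ico 1 N, ((lw x : ℂ) - 1) * F x‖ ≤ E * (1 + G N) := by
    rw [abel _ _ hN]
    refine (norm_sub_le _ _).trans ?_
    have h9 : ‖(∑ x ∈ Ico 1 N, ((lw x : ℂ) - 1)) * F N‖ ≤ E := by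
      rw [norm_mul, hF, norm_e, mul_one]
      exact hsum N hN le_rfl
    have h10 : ‖∑ x ∈ Ico 1 N, (∑ y ∈ Ico 1 (x + 1), ((lw y : ℂ) - 1)) * (F (x + 1) - F x)‖ ≤ E * G N := by
      refine (norm_sum_le _ _).trans ?_
      have h11 : ∀ x ∈ Ico 1 N, ‖(∑ y ∈ Ico 1 (x + 1), ((lw y : ℂ) - 1)) * (F (x + 1) - F x)‖ ≤ E * (G (x + 1) - G x) := by
        intro x hx
        rw [mem_Ico] at hx
        rw [norm_mul]
        exact mul_le_mul (hsum _ (by omega) (by omega)) (hFs x) (norm_nonneg _) hE0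
      refine (sum_le_sum h11).trans ?_
      rw [← mul_sum, tele G hN]
      apply mul_le_mul_of_nonneg_left _ hE0
      linarith
    linarith
  have h9 : (∑ x ∈ Ico 1 N, (lw x : ℂ) * e (α * (x : ℝ) ^ c)) - ∫ u in (0 : ℝ)..(N : ℝ), e (α * u ^ c) =
      ∑ x ∈ Ico 1 N, ((lw x : ℂ) - 1) * F x +
      ((∑ x ∈ Ico 1 N, F x) - ∑ x ∈ Ico 1 N, ∫ u in (x : ℝ)..((x + 1 : ℕ) : ℝ), e (α * u ^ c)) -
      ∫ u in (0 : ℝ)..1, e (α * u ^ c) := by
    rw [h1]
    have e1 : ∑ x ∈ Ico 1 N, ((lw x : ℂ) - 1) * F x = ∑ x ∈ Ico 1 N, (lw x : ℂ) * F x - ∑ x ∈ Ico 1 N, F x := by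
      rw [← sum_sub_distrib]
      apply sum_congr rfl
      intro x _
      ring
    rw [e1]
    ring
  rw [h9]
  refine (norm_sub_le _ _).trans ?_
  have := norm_add_le (∑ x ∈ Ico 1 N, ((lw x : ℂ) - 1) * F x)
    ((∑ x ∈ Ico 1 N, F x) - ∑ x ∈ Ico 1 N, ∫ u in (x : ℝ)..((x + 1 : ℕ) : ℝ), e (α * u ^ c))
  rw [hGN] at h7 h8
  linarith

/-- the normalised deviation for small frequencies -/
theorem low (K : ℕ) : ∃ C : ℝ, 0 < C ∧ ∀ (m : ℕ) (α c : ℝ), 0 ≤ c →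
    ‖S m α c - M m α c‖ ≤ C * ((1 + |α| * ((3 : ℝ) ^ m) ^ c) * ((3 : ℝ) ^ m / ((m : ℝ) + 1) ^ K)) := by
  obtain ⟨C₀, hC₀, h0⟩ := theta_err K
  obtain ⟨C₁, hC₁, hg₁⟩ := pow_growth K
  have hpi := Real.pi_pos
  have hpi4 := Real.pi_lt_four
  refine ⟨8 * (C₀ + C₁), by positivity, fun m α c hc => ?_⟩
  have h1 := low_raw (N := 3 ^ m) (Nat.one_le_pow m 3 (by norm_num)) (fun n hn => h0 m n hn) α hc
  unfold S M
  push_cast at h1
  refine h1.trans ?_
  set A : ℝ := |α| * ((3 : ℝ) ^ m) ^ c with hA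
  have hA0 : 0 ≤ A := by positivity
  set Q : ℝ := (3 : ℝ) ^ m / ((m : ℝ) + 1) ^ K with hQ
  have hQ0 : 0 < Q := by positivity
  have hT1 : (1 : ℝ) ≤ (3 : ℝ) ^ m := one_le_pow₀ (by norm_num)
  have hsT : √((3 : ℝ) ^ m) ≤ (3 : ℝ) ^ m := by
    rw [Real.sqrt_le_left (by positivity)]
    nlinarith
  have h2 : 1 ≤ C₁ * Q := by
    rw [hQ, ← mul_div_assoc, le_div_iff₀ (by positivity), one_mul]
    exact (hg₁ m).trans (mul_le_mul_of_nonneg_left hsT hC₁.le)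
  have h3 : 2 * Real.pi * A ≤ 8 * A := by nlinarith
  calc C₀ * Q * (1 + 2 * Real.pi * A) + 2 * Real.pi * A + 1 ≤ C₀ * Q * (1 + 8 * A) + (8 * A + 1) * (C₁ * Q) := by
        have e1 : C₀ * Q * (1 + 2 * Real.pi * A) ≤ C₀ * Q * (1 + 8 * A) := mul_le_mul_of_nonneg_left (by linarith) (by positivity)
        have e2 : (8 * A + 1) * 1 ≤ (8 * A + 1) * (C₁ * Q) := mul_le_mul_of_nonneg_left h2 (by positivity)
        linarith
    _ = (C₀ + C₁) * Q * (1 + 8 * A) := by ring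
    _ ≤ (C₀ + C₁) * Q * (8 * (1 + A)) := mul_le_mul_of_nonneg_left (by linarith) (by positivity)
    _ = _ := by ring

end Pool.Agent.K7.H94.EW
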