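import Mathlib
import Pool.Agent.K7.H94.EW.Low

set_option autoImplicit false

/-! Waring-Goldbach with real exponents: the normalised exponential sums. -/

namespace Pool.Agent.K7.H94.EW
open Finset MeasureTheory Complex

/-- the number of triadic blocks -/
noncomputable def mm (J : ℕ) (c : ℝ) : ℕ := ⌈(J : ℝ) / c⌉₊

lemma mm_ge {J : ℕ} {c : ℝ} (hc : 0 < c) : (J : ℝ) ≤ mm J c * c := by
  have := Nat.le_ceil ((J : ℝ) / c)
  rw [div_le_iff₀ hc] at this
  exact this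

lemma mm_lt {J : ℕ} {c : ℝ} (hc : 0 < c) : mm J c * c < J + c := by
  have h := Nat.ceil_lt_add_one (show 0 ≤ (J : ℝ) / c by positivity)
  have h2 := mul_lt_mul_of_pos_right h hc
  rw [add_mul, one_mul, div_mul_cancel₀ _ hc.ne'] at h2
  exact h2

lemma mm_le {J : ℕ} {c : ℝ} (hc : 1 ≤ c) : mm J c ≤ J := by
  unfold mm
  rw [Nat.ceil_le]
  exact div_le_self (Nat.cast_nonneg _) hc

lemma mm_meas (J : ℕ) : Measurable (mm J) := by
  unfold mm
  exact Nat.measurable_ceil.comp (measurable_const.div measurable_id)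

/-- the normalised exponential sum over primes -/
noncomputable def sf (J : ℕ) (α c : ℝ) : ℂ := S (mm J c) α c / (3 : ℂ) ^ (mm J c)

/-- its normalised main term -/
noncomputable def gf (J : ℕ) (α c : ℝ) : ℂ := M (mm J c) α c / (3 : ℂ) ^ (mm J c)

lemma norm3 (m : ℕ) : ‖(3 : ℂ) ^ m‖ = (3 : ℝ) ^ m := by
  rw [norm_pow]
  simp

lemma sf_le (J : ℕ) (α c : ℝ) : ‖sf J α c‖ ≤ 2 := by
  unfold sf
  rw [norm_div, norm3, div_le_iff₀ (by positivity)]
  exact S_le _ _ _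

lemma gf_le (J : ℕ) (α c : ℝ) : ‖gf J α c‖ ≤ 1 := by
  unfold gf
  rw [norm_div, norm3, div_le_iff₀ (by positivity), one_mul]
  exact M_le _ _ _

/-- a family of continuous functions with a measurable choice -/
lemma choice_meas (F : ℕ → ℝ × ℝ → ℂ) (hF : ∀ m, Continuous (F m)) (J : ℕ) :
    Measurable fun p : ℝ × ℝ => F (mm J p.2) p := by
  have h1 : Measurable fun q : ℕ × (ℝ × ℝ) => F q.1 q.2 :=
    measurable_from_prod_countable_right fun m => (hF m).measurable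
  have h2 : Measurable fun p : ℝ × ℝ => ((mm J p.2, p) : ℕ × (ℝ × ℝ)) :=
    ((mm_meas J).comp measurable_snd).prodMk measurable_id
  exact h1.comp h2

/-- the normalised sums -/
noncomputable def sF (m : ℕ) (p : ℝ × ℝ) : ℂ := S m p.1 p.2 / (3 : ℂ) ^ m

/-- the normalised main terms -/
noncomputable def gF (m : ℕ) (p : ℝ × ℝ) : ℂ := M m p.1 p.2 / (3 : ℂ) ^ m

lemma sF_cont (m : ℕ) : Continuous (sF m) := by
  unfold sF
  exact (S_cont m).div_const _

lemma gF_cont (m : ℕ) : Continuous (gF m) := by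
  unfold gF
  exact (M_cont m).div_const _

lemma sf_eq (J : ℕ) (α c : ℝ) : sf J α c = sF (mm J c) (α, c) := by rw [sf, sF]

lemma gf_eq (J : ℕ) (α c : ℝ) : gf J α c = gF (mm J c) (α, c) := by rw [gf, gF]

lemma sf_meas (J : ℕ) : Measurable fun p : ℝ × ℝ => sf J p.1 p.2 := by
  have h := choice_meas sF sF_cont J
  have h2 : (fun p : ℝ × ℝ => sf J p.1 p.2) = fun p : ℝ × ℝ => sF (mm J p.2) p := by
    funext p
    rw [sf_eq]
  rw [h2]
  exact h

lemma gf_meas (J : ℕ) : Measurable fun p : ℝ × ℝ => gf J p.1 p.2 := by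
  have h := choice_meas gF gF_cont J
  have h2 : (fun p : ℝ × ℝ => gf J p.1 p.2) = fun p : ℝ × ℝ => gF (mm J p.2) p := by
    funext p
    rw [gf_eq]
  rw [h2]
  exact h

lemma pair_meas (f : ℝ × ℝ → ℂ) (hf : Measurable f) (α : ℝ) : Measurable fun c : ℝ => f (α, c) := by
  have h2 : Measurable fun c : ℝ => ((α, c) : ℝ × ℝ) := measurable_const.prodMk measurable_id
  exact hf.comp h2

lemma sf_meas2 (J : ℕ) (α : ℝ) : Measurable fun c : ℝ => sf J α c :=
  pair_meas (fun p => sf J p.1 p.2) (sf_meas J) α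

lemma pow3_ge {m J : ℕ} {a : ℝ} (ha : 0 < a) (h : (J : ℝ) ≤ m * a) : ((3 : ℝ) ^ J) ^ (1 / a) ≤ (3 : ℝ) ^ m := by
  rw [← Real.rpow_natCast, ← Real.rpow_natCast, ← Real.rpow_mul (by norm_num)]
  apply Real.rpow_le_rpow_of_exponent_le (by norm_num)
  rw [mul_one_div, div_le_iff₀ ha]
  exact h

lemma inv_mono {A a b : ℝ} (hA : 1 ≤ A) (ha : 0 < a) (hab : a ≤ b) : A ^ (-(1 / a)) ≤ A ^ (-(1 / b)) := by
  apply Real.rpow_le_rpow_of_exponent_le hA
  have : 1 / b ≤ 1 / a := one_div_le_one_div_of_le ha hab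
  linarith

lemma alpha_ne {α T : ℝ} (h : 1 ≤ |α| * T) : α ≠ 0 := by
  rintro rfl
  rw [abs_zero, zero_mul] at h
  linarith

lemma decay {m J : ℕ} {a α : ℝ} (ha : 0 < a) (h : (J : ℝ) ≤ m * a) (hα : α ≠ 0) :
    |α| ^ (-(1 / a)) / (3 : ℝ) ^ m ≤ (|α| * (3 : ℝ) ^ J) ^ (-(1 / a)) := by
  have h1 := pow3_ge ha h
  have hα0 : 0 < |α| := abs_pos.2 hα
  rw [Real.mul_rpow hα0.le (by positivity), Real.rpow_neg (by positivity : (0 : ℝ) ≤ (3 : ℝ) ^ J), ← div_eq_mul_inv]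
  apply div_le_div_of_nonneg_left (by positivity) (by positivity) h1

lemma gf_dec {J : ℕ} {α b c : ℝ} (hc : 2 ≤ c) (hcb : c ≤ b) (hα : 1 ≤ |α| * (3 : ℝ) ^ J) :
    ‖gf J α c‖ ≤ 2 * (|α| * (3 : ℝ) ^ J) ^ (-(1 / b)) := by
  have hα1 := alpha_ne hα
  unfold gf
  rw [norm_div, norm3]
  have h1 := M_dec (mm J c) hc hα1
  have h2 := decay (by linarith : 0 < c) (mm_ge (J := J) (by linarith : 0 < c)) hα1
  have h3 := inv_mono hα (by linarith : 0 < c) hcb
  calc ‖M (mm J c) α c‖ / 3 ^ mm J c ≤ 2 * |α| ^ (-(1 / c)) / 3 ^ mm J c := by gcongr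
    _ = 2 * (|α| ^ (-(1 / c)) / 3 ^ mm J c) := by ring
    _ ≤ 2 * (|α| * (3 : ℝ) ^ J) ^ (-(1 / b)) := by linarith

/-- the mean of the normalised sum over the exponent -/
theorem sf_mean {J : ℕ} (hJ : 1 ≤ J) {a b : ℝ} (ha : 2 ≤ a) (hab1 : b - a ≤ 1) {α : ℝ} (hα : 1 ≤ |α| * (3 : ℝ) ^ J) :
    ∫ c in Set.Ioc a b, ‖sf J α c‖ ≤
      8 * ((J : ℝ) + 1) ^ 4 * (((3 : ℝ) ^ J) ^ (-(1 / (2 * b))) + (|α| * (3 : ℝ) ^ J) ^ (-(1 / b))) := by
  have hα1 := alpha_ne hα
  rcases le_or_gt b a with hba | hab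
  · rw [Set.Ioc_eq_empty (not_lt.2 hba), setIntegral_empty]
    positivity
  have hT1 : (1 : ℝ) ≤ (3 : ℝ) ^ J := one_le_pow₀ (by norm_num)
  set U : ℝ := ((3 : ℝ) ^ J) ^ (-(1 / (2 * b))) + (|α| * (3 : ℝ) ^ J) ^ (-(1 / b)) with hU
  have hU0 : 0 ≤ U := by positivity
  set H : ℕ → ℝ → ℝ := fun m c => Set.indicator {c : ℝ | (J : ℝ) ≤ m * c} (fun c => ‖S m α c‖ / 3 ^ m) c with hH
  have hAm : ∀ m : ℕ, MeasurableSet {c : ℝ | (J : ℝ) ≤ m * c} := fun m =>
    measurableSet_le measurable_const (measurable_const.mul measurable_id)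
  have hcm : ∀ m : ℕ, Continuous fun c : ℝ => ‖S m α c‖ / 3 ^ m := fun m => (S_cont2 m α).norm.div_const _
  have hHi : ∀ m : ℕ, IntegrableOn (H m) (Set.Ioc a b) := by
    intro m
    apply Integrable.indicator _ (hAm m)
    exact ((hcm m).integrableOn_Icc).mono_set Set.Ioc_subset_Icc_self
  have hH0 : ∀ (m : ℕ) (c : ℝ), 0 ≤ H m c := by
    intro m c
    rw [hH]
    exact Set.indicator_nonneg (fun c _ => by positivity) c
  have h1 : ∀ c ∈ Set.Ioc a b, ‖sf J α c‖ ≤ ∑ m ∈ range (J + 1), H m c := by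
    intro c hc
    have hc1 : 1 ≤ c := by linarith [hc.1]
    have hm : mm J c ∈ range (J + 1) := by
      rw [mem_range]
      have := mm_le (J := J) hc1
      omega
    refine le_trans ?_ (single_le_sum (fun m _ => hH0 m c) hm)
    rw [hH]
    simp only
    rw [Set.indicator_of_mem (by
      show (J : ℝ) ≤ mm J c * c
      exact mm_ge (by linarith))]
    unfold sf
    rw [norm_div, norm3]
  have h2 : ∫ c in Set.Ioc a b, ‖sf J α c‖ ≤ ∫ c in Set.Ioc a b, ∑ m ∈ range (J + 1), H m c := by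
    apply setIntegral_mono_on _ (integrable_finsetSum _ fun m _ => hHi m) measurableSet_Ioc h1
    apply Integrable.norm
    refine Integrable.of_bound (C := 2) (sf_meas2 J α).aestronglyMeasurable (Filter.Eventually.of_forall fun c => sf_le J α c)
  refine h2.trans ?_
  rw [integral_finsetSum _ fun m _ => hHi m]
  have h3 : ∀ m ∈ range (J + 1), ∫ c in Set.Ioc a b, H m c ≤ 8 * ((J : ℝ) + 1) ^ 3 * U := by
    intro m hm
    rw [mem_range] at hm
    have hmJ : (m : ℝ) ≤ J := by exact_mod_cast (by omega : m ≤ J)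
    have hm0 : (0 : ℝ) ≤ m := Nat.cast_nonneg _
    rw [hH]
    simp only
    rw [setIntegral_indicator (hAm m)]
    have hB0 : 0 ≤ 8 * ((J : ℝ) + 1) ^ 3 * U := by positivity
    have hempty : (Set.Ioc a b ∩ {c : ℝ | (J : ℝ) ≤ m * c} = ∅) →
        ∫ c in Set.Ioc a b ∩ {c : ℝ | (J : ℝ) ≤ m * c}, ‖S m α c‖ / 3 ^ m ≤ 8 * ((J : ℝ) + 1) ^ 3 * U := by
      intro h
      rw [h, setIntegral_empty]
      exact hB0
    rcases Nat.eq_zero_or_pos m with h0 | hmpos
    · apply hempty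
      rw [Set.eq_empty_iff_forall_notMem]
      rintro c ⟨_, hc⟩
      simp only [h0, Set.mem_ofPred_eq] at hc
      have : (1 : ℝ) ≤ J := by exact_mod_cast hJ
      push_cast at hc
      linarith
    · have hm1 : (0 : ℝ) < m := by exact_mod_cast hmpos
      set a' : ℝ := max a (J / m) with ha'
      have haa' : a ≤ a' := le_max_left _ _
      have hJm : (J : ℝ) ≤ m * a' := by
        have : (J : ℝ) / m ≤ a' := le_max_right _ _
        rw [div_le_iff₀ hm1] at this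
        linarith
      rcases lt_or_ge b a' with hba' | hab'
      · apply hempty
        rw [Set.eq_empty_iff_forall_notMem]
        rintro c ⟨hc1, hc⟩
        simp only [Set.mem_ofPred_eq] at hc
        have h4 : (J : ℝ) / m ≤ c := by rw [div_le_iff₀ hm1]; linarith
        have h5 : a' ≤ c := max_le hc1.1.le h4
        linarith [hc1.2]
      · have hsub : Set.Ioc a b ∩ {c : ℝ | (J : ℝ) ≤ m * c} ⊆ Set.Icc a' b := by
          rintro c ⟨hc1, hc⟩
          simp only [Set.mem_ofPred_eq] at hc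
          have h4 : (J : ℝ) / m ≤ c := by rw [div_le_iff₀ hm1]; linarith
          exact ⟨max_le hc1.1.le h4, hc1.2⟩
        have h4 : ∫ c in Set.Ioc a b ∩ {c : ℝ | (J : ℝ) ≤ m * c}, ‖S m α c‖ / 3 ^ m ≤
            ∫ c in Set.Icc a' b, ‖S m α c‖ / 3 ^ m := by
          apply setIntegral_mono_set (hcm m).integrableOn_Icc (Filter.Eventually.of_forall fun c => by positivity)
          exact hsub.eventuallyLE
        rw [integral_Icc_eq_integral_Ioc, ← intervalIntegral.integral_of_le hab', intervalIntegral.integral_div] at h4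
        have h5 := S_mean m (ha.trans haa') hab' (by linarith) hα1
        have h6 : 1 / √((3 : ℝ) ^ m) ≤ ((3 : ℝ) ^ J) ^ (-(1 / (2 * b))) := by
          rw [Real.rpow_neg (by positivity), one_div]
          apply inv_anti₀ (by positivity)
          have h7 := pow3_ge (by linarith : 0 < a') hJm
          have h8 : ((3 : ℝ) ^ J) ^ (1 / (2 * b)) ≤ √(((3 : ℝ) ^ J) ^ (1 / a')) := by
            rw [Real.sqrt_eq_rpow, ← Real.rpow_mul (by positivity)]
            apply Real.rpow_le_rpow_of_exponent_le hT1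
            have h9 : 1 / b ≤ 1 / a' := one_div_le_one_div_of_le (by linarith) hab'
            have h10 : 1 / (2 * b) = 1 / b * (1 / 2) := by
              have : b ≠ 0 := by linarith
              field_simp
            rw [h10]
            linarith
          exact h8.trans (Real.sqrt_le_sqrt h7)
        have h7 : |α| ^ (-(1 / a')) / (3 : ℝ) ^ m ≤ (|α| * (3 : ℝ) ^ J) ^ (-(1 / b)) :=
          (decay (by linarith) hJm hα1).trans (inv_mono hα (by linarith) hab')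
        have h8 : (√((3 : ℝ) ^ m) + |α| ^ (-(1 / a'))) / 3 ^ m ≤ U := by
          rw [add_div, hU]
          have h9 : √((3 : ℝ) ^ m) / 3 ^ m = 1 / √((3 : ℝ) ^ m) := by
            rw [div_eq_div_iff (by positivity) (by positivity), Real.mul_self_sqrt (by positivity), one_mul]
          rw [h9]
          linarith
        calc ∫ c in Set.Ioc a b ∩ {c : ℝ | (J : ℝ) ≤ m * c}, ‖S m α c‖ / 3 ^ m ≤
            (∫ c in a'..b, ‖S m α c‖) / 3 ^ m := h4
          _ ≤ (8 * ((m : ℝ) + 1) ^ 3 * (√((3 : ℝ) ^ m) + |α| ^ (-(1 / a')))) / 3 ^ m := by gcongr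
          _ = 8 * ((m : ℝ) + 1) ^ 3 * ((√((3 : ℝ) ^ m) + |α| ^ (-(1 / a'))) / 3 ^ m) := by ring
          _ ≤ 8 * ((J : ℝ) + 1) ^ 3 * U := by
              apply mul_le_mul _ h8 (by positivity) (by positivity)
              gcongr
  refine (sum_le_sum h3).trans (le_of_eq ?_)
  rw [sum_const, card_range, nsmul_eq_mul]
  push_cast
  ring

/-- the normalised deviation for small frequencies -/
theorem sf_low (K : ℕ) {b : ℝ} (hb : 1 ≤ b) : ∃ C : ℝ, 0 < C ∧ ∀ (J : ℕ) (α c : ℝ), 1 ≤ c → c ≤ b →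
    ‖sf J α c - gf J α c‖ ≤ C * (1 + |α| * (3 : ℝ) ^ J) / ((J : ℝ) + 1) ^ K := by
  obtain ⟨C, hC, h⟩ := low K
  refine ⟨C * b ^ K * 3 ^ b, by positivity, fun J α c hc hcb => ?_⟩
  have hb0 : 0 < b := by linarith
  have hc0 : 0 < c := by linarith
  set m := mm J c with hm
  have h1 := h m α c (by linarith)
  have h2 := mm_ge (J := J) hc0
  have h3 := mm_lt (J := J) hc0
  rw [← hm] at h2 h3
  have e1 : ((3 : ℝ) ^ m) ^ c ≤ 3 ^ b * (3 : ℝ) ^ J := by
    rw [← Real.rpow_natCast, ← Real.rpow_natCast, ← Real.rpow_mul (by norm_num), ← Real.rpow_add (by norm_num)]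
    apply Real.rpow_le_rpow_of_exponent_le (by norm_num)
    linarith
  have h3b : (1 : ℝ) ≤ 3 ^ b := Real.one_le_rpow (by norm_num) hb0.le
  have e2 : 1 + |α| * ((3 : ℝ) ^ m) ^ c ≤ 3 ^ b * (1 + |α| * (3 : ℝ) ^ J) := by
    have := mul_le_mul_of_nonneg_left e1 (abs_nonneg α)
    have e3 : |α| * (3 ^ b * (3 : ℝ) ^ J) = 3 ^ b * (|α| * (3 : ℝ) ^ J) := by ring
    rw [e3] at this
    linarith
  have e3 : ((J : ℝ) + 1) / b ≤ (m : ℝ) + 1 := by
    rw [div_le_iff₀ hb0]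
    have : (m : ℝ) * c ≤ m * b := mul_le_mul_of_nonneg_left hcb (Nat.cast_nonneg _)
    nlinarith [(Nat.cast_nonneg m : (0 : ℝ) ≤ m)]
  have e4 : 1 / ((m : ℝ) + 1) ^ K ≤ b ^ K / ((J : ℝ) + 1) ^ K := by
    have e5 : (((J : ℝ) + 1) / b) ^ K ≤ ((m : ℝ) + 1) ^ K := pow_le_pow_left₀ (by positivity) e3 _
    have e6 : b ^ K / ((J : ℝ) + 1) ^ K = 1 / (((J : ℝ) + 1) / b) ^ K := by rw [div_pow]; field_simp
    rw [e6]
    exact one_div_le_one_div_of_le (by positivity) e5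
  unfold sf gf
  rw [← sub_div, norm_div, norm3, ← hm]
  rw [div_le_iff₀ (by positivity)]
  refine h1.trans ?_
  have h4 : C * ((1 + |α| * ((3 : ℝ) ^ m) ^ c) * ((3 : ℝ) ^ m / ((m : ℝ) + 1) ^ K)) =
      C * (3 : ℝ) ^ m * ((1 + |α| * ((3 : ℝ) ^ m) ^ c) * (1 / ((m : ℝ) + 1) ^ K)) := by
    ring
  rw [h4]
  have h5 : (1 + |α| * ((3 : ℝ) ^ m) ^ c) * (1 / ((m : ℝ) + 1) ^ K) ≤
      (3 ^ b * (1 + |α| * (3 : ℝ) ^ J)) * (b ^ K / ((J : ℝ) + 1) ^ K) :=
    mul_le_mul e2 e4 (by positivity) (by positivity)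
  calc C * (3 : ℝ) ^ m * ((1 + |α| * ((3 : ℝ) ^ m) ^ c) * (1 / ((m : ℝ) + 1) ^ K)) ≤
      C * (3 : ℝ) ^ m * ((3 ^ b * (1 + |α| * (3 : ℝ) ^ J)) * (b ^ K / ((J : ℝ) + 1) ^ K)) :=
        mul_le_mul_of_nonneg_left h5 (by positivity)
    _ = _ := by ring

end Pool.Agent.K7.H94.EW
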