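import Mathlib
import Pool.Agent.K7.H94.EW.Nrm

set_option autoImplicit false

/-! Waring-Goldbach with real exponents: the expected error over a box of exponents. -/

namespace Pool.Agent.K7.H94.EW
open Finset MeasureTheory Complex
open Pool.Agent.K7.H74.WS (e norm_e W W_nonneg W_le W_int W_cont W_one)

/-- Lebesgue measure on a box of exponents -/
noncomputable def mu {s : ℕ} (a b : Fin s → ℝ) : Measure (Fin s → ℝ) :=
  Measure.pi fun i => volume.restrict (Set.Ioc (a i) (b i))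

instance muF {s : ℕ} (a b : Fin s → ℝ) : IsFiniteMeasure (mu a b) := by unfold mu; infer_instance

lemma mu_eq {s : ℕ} (a b : Fin s → ℝ) : mu a b = volume.restrict (Set.univ.pi fun i => Set.Ioc (a i) (b i)) := by
  unfold mu
  rw [volume_pi, Measure.restrict_pi_pi]

/-- the sum of the reciprocals of the exponents -/
noncomputable def sg {s : ℕ} (a : Fin s → ℝ) : ℝ := ∑ i, 1 / a i

/-- the conditions on the box of exponents -/
structure Bx {s : ℕ} (a b : Fin s → ℝ) : Prop where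
  ha : ∀ i, 2 ≤ a i
  hab : ∀ i, a i ≤ b i
  hb : ∀ i, b i ≤ a i + 1

lemma mass {s : ℕ} {a b : Fin s → ℝ} (H : Bx a b) : (mu a b).real Set.univ ≤ 1 := by
  rw [measureReal_def, mu, Measure.pi_univ, ENNReal.toReal_prod]
  apply prod_le_one
  · intro i _
    exact ENNReal.toReal_nonneg
  · intro i _
    rw [Measure.restrict_apply_univ, Real.volume_Ioc, ENNReal.toReal_ofReal (by linarith [H.hab i])]
    linarith [H.hb i]

/-- a difference of products -/
lemma prod_diff {ι : Type} (A : Finset ι) (f g : ι → ℂ) (hf : ∀ i, ‖f i‖ ≤ 2) (hg : ∀ i, ‖g i‖ ≤ 2) {E : ℝ}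
    (hE : ∀ i ∈ A, ‖f i - g i‖ ≤ E) (hE0 : 0 ≤ E) :
    ‖∏ i ∈ A, f i - ∏ i ∈ A, g i‖ ≤ A.card * 2 ^ A.card * E := by
  classical
  induction A using Finset.induction_on with
  | empty => simp
  | insert i A hi ih =>
    have ih' := ih fun j hj => hE j (mem_insert_of_mem hj)
    rw [prod_insert hi, prod_insert hi, card_insert_of_notMem hi]
    have e1 : f i * ∏ j ∈ A, f j - g i * ∏ j ∈ A, g j =
        (f i - g i) * ∏ j ∈ A, f j + g i * (∏ j ∈ A, f j - ∏ j ∈ A, g j) := by ring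
    rw [e1]
    refine (norm_add_le _ _).trans ?_
    rw [norm_mul, norm_mul]
    have h1 : ‖∏ j ∈ A, f j‖ ≤ 2 ^ A.card := by
      rw [norm_prod]
      refine (prod_le_prod (fun _ _ => norm_nonneg _) fun j _ => hf j).trans (le_of_eq ?_)
      rw [prod_const]
    have h2 := mul_le_mul (hE i (mem_insert_self _ _)) h1 (norm_nonneg _) hE0
    have h3 := mul_le_mul (hg i) ih' (norm_nonneg _) (by norm_num)
    have h4 : 0 ≤ (2 : ℝ) ^ A.card * E := by positivity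
    push_cast
    rw [pow_succ]
    nlinarith

/-- the deviation of the product -/
noncomputable def dl {s : ℕ} (J : ℕ) (α : ℝ) (c : Fin s → ℝ) : ℝ := ‖∏ i, sf J α (c i) - ∏ i, gf J α (c i)‖

lemma dl_nonneg {s : ℕ} (J : ℕ) (α : ℝ) (c : Fin s → ℝ) : 0 ≤ dl J α c := norm_nonneg _

lemma psf_le {s : ℕ} (J : ℕ) (α : ℝ) (c : Fin s → ℝ) : ‖∏ i, sf J α (c i)‖ ≤ 2 ^ s := by
  rw [norm_prod]
  refine (prod_le_prod (fun _ _ => norm_nonneg _) fun j _ => sf_le J α (c j)).trans (le_of_eq ?_)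
  rw [prod_const, card_univ, Fintype.card_fin]

lemma pgf_le {s : ℕ} (J : ℕ) (α : ℝ) (c : Fin s → ℝ) : ‖∏ i, gf J α (c i)‖ ≤ 2 ^ s := by
  rw [norm_prod]
  refine (prod_le_prod (fun _ _ => norm_nonneg _) fun j _ => (gf_le J α (c j)).trans one_le_two).trans (le_of_eq ?_)
  rw [prod_const, card_univ, Fintype.card_fin]

lemma dl_le {s : ℕ} (J : ℕ) (α : ℝ) (c : Fin s → ℝ) : dl J α c ≤ 2 * 2 ^ s := by
  unfold dl
  refine (norm_sub_le _ _).trans ?_
  have := psf_le J α c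
  have := pgf_le J α c
  linarith

lemma meas_one {T : Type} [MeasurableSpace T] (F : ℝ → ℝ → ℂ) (hF : Measurable fun p : ℝ × ℝ => F p.1 p.2)
    {f g : T → ℝ} (hf : Measurable f) (hg : Measurable g) : Measurable fun t => F (f t) (g t) := by
  have h : Measurable fun t : T => ((f t, g t) : ℝ × ℝ) := hf.prodMk hg
  exact hF.comp h

lemma dl_meas {s : ℕ} (J : ℕ) {T : Type} [MeasurableSpace T] {f : T → ℝ} {g : T → Fin s → ℝ}
    (hf : Measurable f) (hg : Measurable g) : Measurable fun t => dl J (f t) (g t) := by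
  unfold dl
  refine Measurable.norm (Measurable.sub ?_ ?_)
  · refine Finset.measurable_fun_prod _ fun i _ => ?_
    exact meas_one (sf J) (sf_meas J) hf ((measurable_pi_apply i).comp hg)
  · refine Finset.measurable_fun_prod _ fun i _ => ?_
    exact meas_one (gf J) (gf_meas J) hf ((measurable_pi_apply i).comp hg)

/-- small frequencies -/
theorem dl_low (K s : ℕ) {B : ℝ} (hB : 1 ≤ B) : ∃ C : ℝ, 0 < C ∧ ∀ (J : ℕ) (α : ℝ) (c : Fin s → ℝ), (∀ i, 1 ≤ c i) →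
    (∀ i, c i ≤ B) → dl J α c ≤ C * (1 + |α| * (3 : ℝ) ^ J) / ((J : ℝ) + 1) ^ K := by
  obtain ⟨C, hC, h⟩ := sf_low K hB
  refine ⟨((s : ℝ) + 1) * 2 ^ s * C, by positivity, fun J α c h1 h2 => ?_⟩
  have h3 := prod_diff (univ : Finset (Fin s)) (fun i => sf J α (c i)) (fun i => gf J α (c i)) (fun i => sf_le _ _ _)
    (fun i => (gf_le _ _ _).trans one_le_two) (E := C * (1 + |α| * (3 : ℝ) ^ J) / ((J : ℝ) + 1) ^ K)
    (fun i _ => h J α (c i) (h1 i) (h2 i)) (by positivity)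
  rw [card_univ, Fintype.card_fin] at h3
  unfold dl
  refine h3.trans ?_
  have h4 : 0 ≤ (2 : ℝ) ^ s * (C * (1 + |α| * (3 : ℝ) ^ J) / ((J : ℝ) + 1) ^ K) := by positivity
  calc (s : ℝ) * 2 ^ s * (C * (1 + |α| * (3 : ℝ) ^ J) / ((J : ℝ) + 1) ^ K) ≤
      ((s : ℝ) + 1) * 2 ^ s * (C * (1 + |α| * (3 : ℝ) ^ J) / ((J : ℝ) + 1) ^ K) := by nlinarith
    _ = _ := by ring

lemma rpow_neg_sg {s : ℕ} (b : Fin s → ℝ) {z : ℝ} (hz : 0 < z) : ∏ i, z ^ (-(1 / b i)) = z ^ (-sg b) := by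
  rw [sg, ← sum_neg_distrib, Real.rpow_sum_of_pos hz]

/-- large frequencies -/
theorem dl_high {s : ℕ} {a b : Fin s → ℝ} (H : Bx a b) (hs : 2 ≤ sg b) {J : ℕ} (hJ : 1 ≤ J) {α : ℝ}
    (hα : 1 ≤ |α| * (3 : ℝ) ^ J) :
    ∫ c, dl J α c ∂(mu a b) ≤
      2 * (16 * ((J : ℝ) + 1) ^ 4) ^ s * (((3 : ℝ) ^ J) ^ (-(sg b / 2)) + ((|α| * (3 : ℝ) ^ J) ^ 2)⁻¹) := by
  set T : ℝ := (3 : ℝ) ^ J with hTd
  have hT1 : 1 ≤ T := one_le_pow₀ (by norm_num)
  have hT0 : 0 < T := by linarith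
  set A : ℝ := |α| * T with hA
  have hA0 : 0 < A := by linarith
  have hb2 : ∀ i, 2 ≤ b i := fun i => (H.ha i).trans (H.hab i)
  have hmI : ∀ (F : ℝ → ℝ → ℂ), (Measurable fun p : ℝ × ℝ => F p.1 p.2) → (∀ c, ‖F α c‖ ≤ 2) →
      Integrable (fun c : Fin s → ℝ => ∏ i, ‖F α (c i)‖) (mu a b) := by
    intro F hF hF2
    refine Integrable.of_bound (C := 2 ^ s) ?_ (Filter.Eventually.of_forall fun c => ?_)
    · apply Measurable.aestronglyMeasurable
      refine Finset.measurable_fun_prod _ fun i _ => Measurable.norm ?_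
      exact meas_one F hF measurable_const (measurable_pi_apply i)
    · rw [Real.norm_of_nonneg (prod_nonneg fun _ _ => norm_nonneg _)]
      refine (prod_le_prod (fun _ _ => norm_nonneg _) fun j _ => hF2 (c j)).trans (le_of_eq ?_)
      rw [prod_const, card_univ, Fintype.card_fin]
  have i1 := hmI (sf J) (sf_meas J) (fun c => sf_le _ _ _)
  have i2 := hmI (gf J) (gf_meas J) (fun c => (gf_le _ _ _).trans one_le_two)
  have h1 : ∫ c, dl J α c ∂(mu a b) ≤ ∫ c, (∏ i, ‖sf J α (c i)‖ + ∏ i, ‖gf J α (c i)‖) ∂(mu a b) := by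
    apply integral_mono_of_nonneg (Filter.Eventually.of_forall fun c => dl_nonneg _ _ _) (i1.add i2)
      (Filter.Eventually.of_forall fun c => ?_)
    simp only
    unfold dl
    refine (norm_sub_le _ _).trans ?_
    rw [norm_prod, norm_prod]
    exact le_rfl
  rw [integral_add i1 i2] at h1
  have e1 : ∫ c, ∏ i, ‖sf J α (c i)‖ ∂(mu a b) = ∏ i, ∫ x in Set.Ioc (a i) (b i), ‖sf J α x‖ :=
    integral_fintype_prod_eq_prod (𝕜 := ℝ) (fun (i : Fin s) (x : ℝ) => ‖sf J α x‖)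
      (μ := fun i => volume.restrict (Set.Ioc (a i) (b i)))
  have e2 : ∫ c, ∏ i, ‖gf J α (c i)‖ ∂(mu a b) = ∏ i, ∫ x in Set.Ioc (a i) (b i), ‖gf J α x‖ :=
    integral_fintype_prod_eq_prod (𝕜 := ℝ) (fun (i : Fin s) (x : ℝ) => ‖gf J α x‖)
      (μ := fun i => volume.restrict (Set.Ioc (a i) (b i)))
  rw [e1, e2] at h1
  set z : ℝ := min (Real.sqrt T) A with hz
  have hz1 : 1 ≤ z := le_min (Real.one_le_sqrt.2 hT1) hα
  have hz0 : 0 < z := by linarith
  have h2 : ∏ i, ∫ x in Set.Ioc (a i) (b i), ‖sf J α x‖ ≤ (16 * ((J : ℝ) + 1) ^ 4) ^ s * z ^ (-sg b) := by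
    have h3 : ∀ i, ∫ x in Set.Ioc (a i) (b i), ‖sf J α x‖ ≤ (16 * ((J : ℝ) + 1) ^ 4) * z ^ (-(1 / b i)) := by
      intro i
      refine (sf_mean hJ (H.ha i) (by linarith [H.hb i]) hα).trans ?_
      have e3 : T ^ (-(1 / (2 * b i))) ≤ z ^ (-(1 / b i)) := by
        have e4 : T ^ (-(1 / (2 * b i))) = (Real.sqrt T) ^ (-(1 / b i)) := by
          rw [Real.sqrt_eq_rpow, ← Real.rpow_mul hT0.le]
          congr 1
          have : b i ≠ 0 := by linarith [hb2 i]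
          field_simp
        rw [e4]
        apply Real.rpow_le_rpow_of_nonpos hz0 (min_le_left _ _)
        have : 0 < 1 / b i := by have := hb2 i; positivity
        linarith
      have e5 : A ^ (-(1 / b i)) ≤ z ^ (-(1 / b i)) := by
        apply Real.rpow_le_rpow_of_nonpos hz0 (min_le_right _ _)
        have : 0 < 1 / b i := by have := hb2 i; positivity
        linarith
      calc 8 * ((J : ℝ) + 1) ^ 4 * (T ^ (-(1 / (2 * b i))) + A ^ (-(1 / b i))) ≤
          8 * ((J : ℝ) + 1) ^ 4 * (z ^ (-(1 / b i)) + z ^ (-(1 / b i))) := by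
            apply mul_le_mul_of_nonneg_left _ (by positivity)
            linarith
        _ = _ := by ring
    refine (prod_le_prod (fun i _ => integral_nonneg fun _ => norm_nonneg _) fun i _ => h3 i).trans (le_of_eq ?_)
    rw [prod_mul_distrib, prod_const, card_univ, Fintype.card_fin, rpow_neg_sg b hz0]
  have hA2 : A ^ (-sg b) ≤ (A ^ 2)⁻¹ := by
    rw [← Real.rpow_natCast A 2, ← Real.rpow_neg hA0.le]
    apply Real.rpow_le_rpow_of_exponent_le hα
    push_cast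
    linarith
  have hz2 : z ^ (-sg b) ≤ T ^ (-(sg b / 2)) + (A ^ 2)⁻¹ := by
    have p1 : 0 < T ^ (-(sg b / 2)) := Real.rpow_pos_of_pos hT0 _
    have p2 : 0 < (A ^ 2)⁻¹ := by positivity
    rcases le_total (Real.sqrt T) A with h | h
    · rw [hz, min_eq_left h]
      have e3 : (Real.sqrt T) ^ (-sg b) = T ^ (-(sg b / 2)) := by
        rw [Real.sqrt_eq_rpow, ← Real.rpow_mul hT0.le]
        congr 1
        ring
      rw [e3]
      linarith
    · rw [hz, min_eq_right h]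
      linarith
  have h3 : ∏ i, ∫ x in Set.Ioc (a i) (b i), ‖gf J α x‖ ≤ 2 ^ s * (A ^ 2)⁻¹ := by
    have h4 : ∀ i, ∫ x in Set.Ioc (a i) (b i), ‖gf J α x‖ ≤ 2 * A ^ (-(1 / b i)) := by
      intro i
      have h5 := norm_setIntegral_le_of_norm_le_const (μ := volume) (s := Set.Ioc (a i) (b i)) (C := 2 * A ^ (-(1 / b i)))
        (f := fun x => ‖gf J α x‖) (by rw [Real.volume_Ioc]; exact ENNReal.ofReal_lt_top) (fun x hx => by
          rw [norm_norm]
          exact gf_dec (by linarith [H.ha i, hx.1]) hx.2 hα)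
      rw [measureReal_def, Real.volume_Ioc, ENNReal.toReal_ofReal (by linarith [H.hab i])] at h5
      have h6 : 0 ≤ 2 * A ^ (-(1 / b i)) := by positivity
      have h7 : b i - a i ≤ 1 := by linarith [H.hb i]
      have h8 : 2 * A ^ (-(1 / b i)) * (b i - a i) ≤ 2 * A ^ (-(1 / b i)) * 1 := mul_le_mul_of_nonneg_left h7 h6
      exact (le_abs_self _).trans (h5.trans (by linarith))
    refine (prod_le_prod (fun i _ => integral_nonneg fun _ => norm_nonneg _) fun i _ => h4 i).trans ?_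
    rw [prod_mul_distrib, prod_const, card_univ, Fintype.card_fin, rpow_neg_sg b hA0]
    exact mul_le_mul_of_nonneg_left hA2 (by positivity)
  have hJ1 : (1 : ℝ) ≤ ((J : ℝ) + 1) ^ 4 := one_le_pow₀ (by linarith [(Nat.cast_nonneg J : (0 : ℝ) ≤ J)])
  have h4 : (2 : ℝ) ^ s ≤ (16 * ((J : ℝ) + 1) ^ 4) ^ s := pow_le_pow_left₀ (by norm_num) (by linarith) _
  have p1 : 0 < T ^ (-(sg b / 2)) := Real.rpow_pos_of_pos hT0 _
  have p2 : 0 < (A ^ 2)⁻¹ := by positivity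
  have h5 : (2 : ℝ) ^ s * (A ^ 2)⁻¹ ≤ (16 * ((J : ℝ) + 1) ^ 4) ^ s * (T ^ (-(sg b / 2)) + (A ^ 2)⁻¹) := by
    apply mul_le_mul h4 (by linarith) p2.le (by positivity)
  have h6 := mul_le_mul_of_nonneg_left hz2 (by positivity : (0 : ℝ) ≤ (16 * ((J : ℝ) + 1) ^ 4) ^ s)
  linarith

/-- the mean deviation at one frequency -/
theorem dl_mean (K s : ℕ) {B : ℝ} (hB : 1 ≤ B) : ∃ C : ℝ, 0 < C ∧ ∀ (a b : Fin s → ℝ), Bx a b → (∀ i, b i ≤ B) → 2 ≤ sg b →
    ∀ (J : ℕ), 1 ≤ J → ∀ (α Q : ℝ), 1 ≤ Q →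
    ∫ c, dl J α c ∂(mu a b) ≤ 2 * (16 * ((J : ℝ) + 1) ^ 4) ^ s * ((3 : ℝ) ^ J) ^ (-(sg b / 2)) +
      (2 * (C * (1 + Q) / ((J : ℝ) + 1) ^ K) + 4 * (16 * ((J : ℝ) + 1) ^ 4) ^ s * (Q ^ 2)⁻¹) *
        (1 + (α * (3 : ℝ) ^ J / Q) ^ 2)⁻¹ := by
  obtain ⟨C, hC, h⟩ := dl_low K s hB
  refine ⟨C, hC, fun a b H hbB hs J hJ α Q hQ => ?_⟩
  set T : ℝ := (3 : ℝ) ^ J with hTd
  have hT1 : 1 ≤ T := one_le_pow₀ (by norm_num)
  have hT0 : 0 < T := by linarith
  have hQ0 : 0 < Q := by linarith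
  have p1 : 0 < T ^ (-(sg b / 2)) := Real.rpow_pos_of_pos hT0 _
  set L : ℝ := (16 * ((J : ℝ) + 1) ^ 4) ^ s with hL
  have hL0 : 0 < L := by positivity
  set R : ℝ := C * (1 + Q) / ((J : ℝ) + 1) ^ K with hR
  have hR0 : 0 < R := by positivity
  set y : ℝ := (1 + (α * T / Q) ^ 2)⁻¹ with hy
  have hpos : 0 < 1 + (α * T / Q) ^ 2 := by positivity
  have hy0 : 0 < y := by positivity
  rcases le_or_gt (|α| * T) Q with h1 | h1
  · have h2 : ∫ c, dl J α c ∂(mu a b) ≤ R := by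
      have h3 : ∀ᵐ c ∂(mu a b), dl J α c ≤ R := by
        rw [mu_eq]
        filter_upwards [ae_restrict_mem (MeasurableSet.univ_pi fun _ => measurableSet_Ioc)] with c hc
        have hc' : ∀ i, c i ∈ Set.Ioc (a i) (b i) := fun i => hc i (Set.mem_univ i)
        refine (h J α c (fun i => by linarith [H.ha i, (hc' i).1]) (fun i => (hc' i).2.trans (hbB i))).trans ?_
        rw [hR]
        gcongr
      have h4 := integral_mono_of_nonneg (Filter.Eventually.of_forall fun c => dl_nonneg J α c) (integrable_const R) h3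
      rw [integral_const, smul_eq_mul] at h4
      have h5 := mass H
      have h6 : (mu a b).real Set.univ * R ≤ 1 * R := mul_le_mul_of_nonneg_right h5 hR0.le
      exact h4.trans (by linarith)
    have h3 : (α * T / Q) ^ 2 ≤ 1 := by
      rw [← sq_abs, abs_div, abs_mul, abs_of_pos hT0, abs_of_pos hQ0]
      have h4 : |α| * T / Q ≤ 1 := by rw [div_le_one hQ0]; exact h1
      have h5 : 0 ≤ |α| * T / Q := by positivity
      nlinarith
    have h4 : 1 / 2 ≤ y := by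
      rw [hy, ← one_div]
      apply one_div_le_one_div_of_le hpos
      linarith
    have h5 : R ≤ 2 * R * y := by nlinarith
    have h6 : 0 ≤ 2 * L * T ^ (-(sg b / 2)) := by positivity
    have h7 : 0 ≤ 4 * L * (Q ^ 2)⁻¹ * y := by positivity
    calc ∫ c, dl J α c ∂(mu a b) ≤ R := h2
      _ ≤ 2 * L * T ^ (-(sg b / 2)) + (2 * R * y + 4 * L * (Q ^ 2)⁻¹ * y) := by linarith
      _ = _ := by ring
  · have h2 := dl_high H hs hJ (α := α) (by linarith)
    refine h2.trans ?_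
    have hA0 : 0 < |α| * T := by linarith
    have h3 : ((|α| * T) ^ 2)⁻¹ ≤ 2 * (Q ^ 2)⁻¹ * y := by
      have h4 : (α * T / Q) ^ 2 = (|α| * T) ^ 2 / Q ^ 2 := by
        rw [div_pow, mul_pow, mul_pow, sq_abs]
      have h5 : Q ^ 2 ≤ (|α| * T) ^ 2 := pow_le_pow_left₀ hQ0.le h1.le _
      rw [hy, h4, mul_assoc, ← mul_inv, ← div_eq_mul_inv, le_div_iff₀ (by positivity)]
      have h6 : Q ^ 2 * (1 + (|α| * T) ^ 2 / Q ^ 2) = Q ^ 2 + (|α| * T) ^ 2 := by field_simp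
      rw [h6, ← div_eq_inv_mul, div_le_iff₀ (by positivity)]
      linarith
    have h4 : 0 ≤ 2 * R * y := by positivity
    have h5 : 2 * L * ((|α| * T) ^ 2)⁻¹ ≤ 2 * L * (2 * (Q ^ 2)⁻¹ * y) := mul_le_mul_of_nonneg_left h3 (by positivity)
    calc 2 * L * (T ^ (-(sg b / 2)) + ((|α| * T) ^ 2)⁻¹) = 2 * L * T ^ (-(sg b / 2)) + 2 * L * ((|α| * T) ^ 2)⁻¹ := by ring
      _ ≤ 2 * L * T ^ (-(sg b / 2)) + (2 * R * y + 2 * L * (2 * (Q ^ 2)⁻¹ * y)) := by linarith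
      _ = _ := by ring

/-- the total error -/
noncomputable def Err {s : ℕ} (J : ℕ) (h : ℝ) (c : Fin s → ℝ) : ℝ := ∫ β : ℝ, W β * dl J (β / h) c

lemma Err_nonneg {s : ℕ} (J : ℕ) (h : ℝ) (c : Fin s → ℝ) : 0 ≤ Err J h c :=
  integral_nonneg fun β => mul_nonneg (W_nonneg _) (dl_nonneg _ _ _)

lemma Wdl_int2 {s : ℕ} (a b : Fin s → ℝ) (J : ℕ) (h : ℝ) :
    Integrable (fun p : (Fin s → ℝ) × ℝ => W p.2 * dl J (p.2 / h) p.1) ((mu a b).prod volume) := by
  have h1 : Integrable (fun p : (Fin s → ℝ) × ℝ => (2 * 2 ^ s : ℝ) * W p.2) ((mu a b).prod volume) :=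
    (integrable_const (2 * 2 ^ s : ℝ)).mul_prod W_int
  refine h1.mono' (f := fun p : (Fin s → ℝ) × ℝ => W p.2 * dl J (p.2 / h) p.1) ?_ ?_
  · have hW : Measurable fun p : (Fin s → ℝ) × ℝ => W p.2 := W_cont.measurable.comp measurable_snd
    have h4 : Measurable fun p : (Fin s → ℝ) × ℝ => dl J (p.2 / h) p.1 :=
      dl_meas J (measurable_snd.div_const h) measurable_fst
    exact (hW.mul h4).aestronglyMeasurable
  · refine Filter.Eventually.of_forall fun p => ?_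
    rw [Real.norm_of_nonneg (mul_nonneg (W_nonneg _) (dl_nonneg _ _ _)), mul_comm]
    exact mul_le_mul_of_nonneg_right (dl_le _ _ _) (W_nonneg _)

lemma Err_meas {s : ℕ} (a b : Fin s → ℝ) (J : ℕ) (h : ℝ) : Integrable (Err J h) (mu a b) := (Wdl_int2 a b J h).integral_prod_left

/-- the expected error -/
theorem Err_mean (K s : ℕ) {B : ℝ} (hB : 1 ≤ B) : ∃ C : ℝ, 0 < C ∧ ∀ (a b : Fin s → ℝ), Bx a b → (∀ i, b i ≤ B) → 2 ≤ sg b →
    ∀ (J : ℕ), 1 ≤ J → ∀ (h Q : ℝ), 0 < h → 1 ≤ Q →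
    ∫ c, Err J h c ∂(mu a b) ≤ 2 * (16 * ((J : ℝ) + 1) ^ 4) ^ s * ((3 : ℝ) ^ J) ^ (-(sg b / 2)) +
      (2 * (C * (1 + Q) / ((J : ℝ) + 1) ^ K) + 4 * (16 * ((J : ℝ) + 1) ^ 4) ^ s * (Q ^ 2)⁻¹) *
        (h * Q / (3 : ℝ) ^ J * Real.pi) := by
  obtain ⟨C, hC, hd⟩ := dl_mean K s hB
  refine ⟨C, hC, fun a b H hbB hs J hJ h Q hh hQ => ?_⟩
  set T : ℝ := (3 : ℝ) ^ J with hTd
  have hT0 : 0 < T := by positivity
  have hQ0 : 0 < Q := by linarith
  have h1 : ∫ c, Err J h c ∂(mu a b) = ∫ β, W β * ∫ c, dl J (β / h) c ∂(mu a b) := by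
    unfold Err
    rw [integral_integral_swap (f := fun (c : Fin s → ℝ) (β : ℝ) => W β * dl J (β / h) c) (Wdl_int2 a b J h)]
    simp_rw [integral_const_mul]
  rw [h1]
  set c0 : ℝ := h * Q / T with hc
  have hc0 : 0 < c0 := by positivity
  set P1 : ℝ := 2 * (16 * ((J : ℝ) + 1) ^ 4) ^ s * T ^ (-(sg b / 2)) with hP1
  set P2 : ℝ := 2 * (C * (1 + Q) / ((J : ℝ) + 1) ^ K) + 4 * (16 * ((J : ℝ) + 1) ^ 4) ^ s * (Q ^ 2)⁻¹ with hP2
  have hP1' : 0 ≤ P1 := by positivity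
  have hP2' : 0 ≤ P2 := by positivity
  have hi3 : Integrable (fun β : ℝ => (1 + (β / c0) ^ 2)⁻¹) := integrable_inv_one_add_sq.comp_div hc0.ne'
  have hint : Integrable (fun β : ℝ => P1 * W β + P2 * (1 + (β / c0) ^ 2)⁻¹) :=
    (W_int.const_mul _).add (hi3.const_mul _)
  refine (integral_mono_of_nonneg (Filter.Eventually.of_forall fun β => ?_) hint
    (Filter.Eventually.of_forall fun β => ?_)).trans (le_of_eq ?_)
  · exact mul_nonneg (W_nonneg _) (integral_nonneg fun _ => dl_nonneg _ _ _)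
  · simp only
    have h2 := hd a b H hbB hs J hJ (β / h) Q hQ
    have h3 : β / h * T / Q = β / c0 := by rw [hc]; field_simp
    rw [h3] at h2
    have hW0 := W_nonneg β
    have hW1 := W_le β
    have h4 : 0 ≤ P2 * (1 + (β / c0) ^ 2)⁻¹ := by positivity
    calc W β * ∫ c, dl J (β / h) c ∂(mu a b) ≤ W β * (P1 + P2 * (1 + (β / c0) ^ 2)⁻¹) := mul_le_mul_of_nonneg_left h2 hW0
      _ = P1 * W β + W β * (P2 * (1 + (β / c0) ^ 2)⁻¹) := by ring
      _ ≤ P1 * W β + 1 * (P2 * (1 + (β / c0) ^ 2)⁻¹) := by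
          have := mul_le_mul_of_nonneg_right hW1 h4
          linarith
      _ = _ := by ring
  · rw [integral_add (W_int.const_mul _) (hi3.const_mul _), integral_const_mul, integral_const_mul, W_one]
    have e3 : ∫ β : ℝ, (1 + (β / c0) ^ 2)⁻¹ = c0 * Real.pi := by
      rw [Measure.integral_comp_div (fun x : ℝ => (1 + x ^ 2)⁻¹) c0, integral_univ_inv_one_add_sq, abs_of_pos hc0, smul_eq_mul]
    rw [e3]
    ring

end Pool.Agent.K7.H94.EW
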