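import Mathlib
import Pool.Agent.K7.H94.EW.Err

set_option autoImplicit false

/-! Waring-Goldbach with real exponents: the error is small for almost all exponents. -/

namespace Pool.Agent.K7.H94.EW
open Finset MeasureTheory Filter

/-- the expected error with the right choice of the parameters -/
theorem Err_ratio (s : ℕ) {B : ℝ} (hB : 1 ≤ B) : ∃ C : ℝ, 0 < C ∧ ∀ (a b : Fin s → ℝ), Bx a b → (∀ i, b i ≤ B) → 2 ≤ sg b →
    ∀ (J : ℕ), 1 ≤ J → ∀ (θ δ : ℝ), δ ≤ sg b / 2 - 1 - θ →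
    ∫ c, Err J (((3 : ℝ) ^ J) ^ (-θ)) c ∂(mu a b) ≤
      (((3 : ℝ) ^ J) ^ (-θ) / (3 : ℝ) ^ J) *
        (C * (((J : ℝ) + 1) ^ (4 * s) * ((3 : ℝ) ^ J) ^ (-δ)) + C * (1 / ((J : ℝ) + 1) ^ 3)) := by
  obtain ⟨C₀, hC₀, h⟩ := Err_mean (2 * (4 * s + 3) + 3) s hB
  have hpi := Real.pi_pos
  refine ⟨2 * 16 ^ s + 4 * 16 ^ s * Real.pi + 4 * C₀ * Real.pi, by positivity, fun a b H hbB hs J hJ θ δ hδ => ?_⟩
  set T : ℝ := (3 : ℝ) ^ J with hTd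
  have hT1 : 1 ≤ T := one_le_pow₀ (by norm_num)
  have hT0 : 0 < T := by linarith
  set y : ℝ := (J : ℝ) + 1 with hy
  have hy1 : 1 ≤ y := by have : (0 : ℝ) ≤ J := Nat.cast_nonneg _; linarith
  have hy0 : 0 < y := by linarith
  have hη : 0 < T ^ (-θ) := Real.rpow_pos_of_pos hT0 _
  have hQ1 : 1 ≤ y ^ (4 * s + 3) := one_le_pow₀ hy1
  set Q : ℝ := y ^ (4 * s + 3) with hQ
  have hQ0 : 0 < Q := by linarith
  have h1 := h a b H hbB hs J hJ (T ^ (-θ)) Q hη hQ1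
  refine h1.trans ?_
  have e0 : (16 * y ^ 4) ^ s = 16 ^ s * y ^ (4 * s) := by rw [mul_pow, ← pow_mul]
  rw [e0]
  have hTd2 : T ^ (-(sg b / 2)) ≤ T ^ (-θ) / T * T ^ (-δ) := by
    have e1 : T ^ (-θ) / T * T ^ (-δ) = T ^ (-θ - 1 + -δ) := by
      rw [Real.rpow_add hT0, Real.rpow_sub hT0, Real.rpow_one]
    rw [e1]
    apply Real.rpow_le_rpow_of_exponent_le hT1
    linarith
  have hδ0 : 0 < T ^ (-δ) := Real.rpow_pos_of_pos hT0 _
  have eQ : Q * y ^ (-(0 : ℝ)) = Q := by simp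
  -- the two parts of the second term
  have t1 : 2 * (C₀ * (1 + Q) / y ^ (2 * (4 * s + 3) + 3)) * Q ≤ 4 * C₀ * (1 / y ^ 3) := by
    have e1 : y ^ (2 * (4 * s + 3) + 3) = Q * Q * y ^ 3 := by
      rw [hQ, ← pow_add, ← pow_add]
      congr 1
      ring
    rw [e1]
    have e2 : 2 * (C₀ * (1 + Q) / (Q * Q * y ^ 3)) * Q = 2 * C₀ * ((1 + Q) / Q) * (1 / y ^ 3) := by
      field_simp
    rw [e2]
    have e3 : (1 + Q) / Q ≤ 2 := by rw [div_le_iff₀ hQ0]; linarith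
    have e4 : 0 < 1 / y ^ 3 := by positivity
    have e5 : 2 * C₀ * ((1 + Q) / Q) ≤ 2 * C₀ * 2 := mul_le_mul_of_nonneg_left e3 (by positivity)
    have e6 := mul_le_mul_of_nonneg_right e5 e4.le
    linarith
  have t2 : 4 * (16 ^ s * y ^ (4 * s)) * (Q ^ 2)⁻¹ * Q = 4 * 16 ^ s * (1 / y ^ 3) := by
    have e1 : Q = y ^ (4 * s) * y ^ 3 := by rw [hQ, ← pow_add]
    have e2 : y ^ (4 * s) ≠ 0 := by positivity
    rw [e1]
    field_simp
  have hr : 0 < T ^ (-θ) / T := by positivity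
  have t3 : (2 * (C₀ * (1 + Q) / y ^ (2 * (4 * s + 3) + 3)) + 4 * (16 ^ s * y ^ (4 * s)) * (Q ^ 2)⁻¹) *
      (T ^ (-θ) * Q / T * Real.pi) ≤ (T ^ (-θ) / T) * ((4 * C₀ * Real.pi + 4 * 16 ^ s * Real.pi) * (1 / y ^ 3)) := by
    have e1 : (2 * (C₀ * (1 + Q) / y ^ (2 * (4 * s + 3) + 3)) + 4 * (16 ^ s * y ^ (4 * s)) * (Q ^ 2)⁻¹) *
        (T ^ (-θ) * Q / T * Real.pi) = (T ^ (-θ) / T) * (Real.pi * (2 * (C₀ * (1 + Q) / y ^ (2 * (4 * s + 3) + 3)) * Q +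
          4 * (16 ^ s * y ^ (4 * s)) * (Q ^ 2)⁻¹ * Q)) := by ring
    rw [e1, t2]
    apply mul_le_mul_of_nonneg_left _ hr.le
    have := mul_le_mul_of_nonneg_left t1 hpi.le
    linarith
  have t4 : 2 * (16 ^ s * y ^ (4 * s)) * T ^ (-(sg b / 2)) ≤
      (T ^ (-θ) / T) * (2 * 16 ^ s * (y ^ (4 * s) * T ^ (-δ))) := by
    have := mul_le_mul_of_nonneg_left hTd2 (by positivity : (0 : ℝ) ≤ 2 * (16 ^ s * y ^ (4 * s)))
    linarith
  have t5 : 0 ≤ y ^ (4 * s) * T ^ (-δ) := by positivity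
  have t6 : (0 : ℝ) ≤ 1 / y ^ 3 := by positivity
  refine (add_le_add t4 t3).trans ?_
  rw [← mul_add]
  apply mul_le_mul_of_nonneg_left _ hr.le
  apply add_le_add
  · apply mul_le_mul_of_nonneg_right _ t5
    have : 0 ≤ 4 * (16 : ℝ) ^ s * Real.pi + 4 * C₀ * Real.pi := by positivity
    linarith
  · apply mul_le_mul_of_nonneg_right _ t6
    have : 0 ≤ 2 * (16 : ℝ) ^ s := by positivity
    linarith

lemma summ (s : ℕ) (C : ℝ) {δ : ℝ} (hd : 0 < δ) (hC : 0 < C) :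
    Summable fun J : ℕ => ((J : ℝ) + 1) * (C * (((J : ℝ) + 1) ^ (4 * s) * ((3 : ℝ) ^ J) ^ (-δ)) + C * (1 / ((J : ℝ) + 1) ^ 3)) := by
  set r : ℝ := (3 : ℝ) ^ (-δ) with hr
  have hr0 : 0 < r := Real.rpow_pos_of_pos (by norm_num) _
  have hr1 : r < 1 := Real.rpow_lt_one_of_one_lt_of_neg (by norm_num) (by linarith)
  have h1 : Summable fun J : ℕ => (J : ℝ) ^ (4 * s + 1) * r ^ J :=
    summable_pow_mul_geometric_of_norm_lt_one _ (by rwa [Real.norm_of_nonneg hr0.le])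
  have h2 : Summable fun J : ℕ => ((J + 1 : ℕ) : ℝ) ^ (4 * s + 1) * r ^ (J + 1) := (summable_nat_add_iff 1).2 h1
  have h3 := h2.mul_left (C * r⁻¹)
  have h4 : Summable fun J : ℕ => 1 / ((J + 1 : ℕ) : ℝ) ^ 2 :=
    (summable_nat_add_iff 1).2 (Real.summable_one_div_nat_pow.2 (by norm_num : 1 < 2))
  have h5 := h4.mul_left C
  refine (h3.add h5).congr fun J => ?_
  have e1 : ((3 : ℝ) ^ J) ^ (-δ) = r ^ J := by
    rw [hr, ← Real.rpow_natCast, ← Real.rpow_mul (by norm_num), ← Real.rpow_natCast, ← Real.rpow_mul (by norm_num)]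
    congr 1
    ring
  have hJ : (J : ℝ) + 1 ≠ 0 := by positivity
  rw [e1]
  push_cast
  rw [pow_succ r J, pow_succ ((J : ℝ) + 1) (4 * s)]
  field_simp

/-- for almost all exponents the error is small at every large scale -/
theorem ae_err {s : ℕ} {a b : Fin s → ℝ} (H : Bx a b) {B : ℝ} (hB : 1 ≤ B) (hbB : ∀ i, b i ≤ B) (hs : 2 ≤ sg b)
    {θ δ : ℝ} (hδ : 0 < δ) (h1 : δ ≤ sg b / 2 - 1 - θ) :
    ∀ᵐ c ∂(mu a b), ∀ᶠ J : ℕ in atTop, Err J (((3 : ℝ) ^ J) ^ (-θ)) c <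
      (((3 : ℝ) ^ J) ^ (-θ) / (3 : ℝ) ^ J) / ((J : ℝ) + 1) := by
  obtain ⟨C, hC, hE⟩ := Err_ratio s hB
  set N : ℕ → ℝ := fun J => ((3 : ℝ) ^ J) ^ (-θ) / (3 : ℝ) ^ J with hN
  have hN0 : ∀ J, 0 < N J := fun J => by positivity
  set F : ℕ → ℝ := fun J => ((J : ℝ) + 1) * (C * (((J : ℝ) + 1) ^ (4 * s) * ((3 : ℝ) ^ J) ^ (-δ)) + C * (1 / ((J : ℝ) + 1) ^ 3))
    with hF
  set D : ℕ → Set (Fin s → ℝ) := fun J => {c | N (J + 1) / (((J + 1 : ℕ) : ℝ) + 1) ≤ Err (J + 1) (((3 : ℝ) ^ (J + 1)) ^ (-θ)) c}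
    with hD
  have h3 : ∀ J, mu a b (D J) ≤ ENNReal.ofReal (F (J + 1)) := by
    intro J
    have hJ : (0 : ℝ) < ((J + 1 : ℕ) : ℝ) + 1 := by positivity
    have h4 := mul_meas_ge_le_integral_of_nonneg (μ := mu a b)
      (Eventually.of_forall fun c => Err_nonneg (J + 1) (((3 : ℝ) ^ (J + 1)) ^ (-θ)) c)
      (Err_meas a b (J + 1) (((3 : ℝ) ^ (J + 1)) ^ (-θ))) (N (J + 1) / (((J + 1 : ℕ) : ℝ) + 1))
    have h5 := h4.trans (hE a b H hbB hs (J + 1) (by omega) θ δ h1)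
    have h6 : (mu a b).real (D J) ≤ F (J + 1) := by
      have h7 : N (J + 1) / (((J + 1 : ℕ) : ℝ) + 1) * (mu a b).real (D J) ≤
        N (J + 1) * (C * ((((J + 1 : ℕ) : ℝ) + 1) ^ (4 * s) * ((3 : ℝ) ^ (J + 1)) ^ (-δ)) + C * (1 / (((J + 1 : ℕ) : ℝ) + 1) ^ 3)) := h5
      rw [div_mul_eq_mul_div, div_le_iff₀ hJ] at h7
      have h8 : N (J + 1) * (mu a b).real (D J) ≤ N (J + 1) * F (J + 1) := by
        refine h7.trans (le_of_eq ?_)
        rw [hF]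
        simp only
        ring
      exact le_of_mul_le_mul_left h8 (hN0 (J + 1))
    rw [← ENNReal.ofReal_toReal (measure_ne_top (mu a b) (D J))]
    exact ENNReal.ofReal_le_ofReal h6
  have h4 : (∑' J, mu a b (D J)) ≠ ⊤ := by
    have h5 : Summable fun J => F (J + 1) := (summable_nat_add_iff 1).2 (summ s C hδ hC)
    refine ne_top_of_le_ne_top h5.tsum_ofReal_ne_top (ENNReal.tsum_le_tsum h3)
  filter_upwards [ae_eventually_notMem h4] with c hc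
  obtain ⟨n, hn⟩ := eventually_atTop.1 hc
  rw [eventually_atTop]
  refine ⟨n + 1, fun J hJ => ?_⟩
  obtain ⟨m, rfl⟩ : ∃ m, J = m + 1 := ⟨J - 1, by omega⟩
  exact not_le.1 (hn m (by omega))

end Pool.Agent.K7.H94.EW
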