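import Mathlib
import Pool.Agent.K7.H94.EW.Nrm

set_option autoImplicit false

/-! Waring-Goldbach with real exponents: mean squares. -/

namespace Pool.Agent.K7.H94.EW
open Finset MeasureTheory Complex

/-- the mean square of a block -/
theorem block2 {P : ℕ} (hP : 1 ≤ P) {a b : ℝ} (ha : 2 ≤ a) (hab : a ≤ b) (hab1 : b - a ≤ 1) {α : ℝ} (hα : α ≠ 0)
    {u : ℕ → ℝ} {ℓ : ℝ} (hℓ : 0 < ℓ) (hu : ∀ x ∈ Ico P (3 * P), |u x| ≤ ℓ) :
    ∫ c in a..b, ‖B u P α c‖ ^ 2 ≤ (2 * ℓ * (1 + Real.log (2 * P)) * (√(P : ℝ) + |α| ^ (-(1 / a)))) ^ 2 := by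
  have hP1 : (1 : ℝ) ≤ P := by exact_mod_cast hP
  have hP0 : (0 : ℝ) < P := by linarith
  have hα0 : 0 < |α| := abs_pos.2 hα
  have ha0 : 0 < a := by linarith
  have hlog : 0 ≤ Real.log (2 * P) := Real.log_nonneg (by linarith)
  set v : ℝ := |α| ^ (-(1 / a)) with hv
  have hv0 : 0 < v := Real.rpow_pos_of_pos hα0 _
  have hva : v ^ a = |α|⁻¹ := by
    rw [hv, ← Real.rpow_mul hα0.le, show -(1 / a) * a = -1 by field_simp, Real.rpow_neg_one]
  have hs : √(P : ℝ) * √(P : ℝ) = P := Real.mul_self_sqrt hP0.le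
  have hs0 : 0 < √(P : ℝ) := Real.sqrt_pos.2 hP0
  rcases le_or_gt (P : ℝ) v with hPv | hPv
  · have h1 : ∫ c in a..b, ‖B u P α c‖ ^ 2 ≤ ∫ _c in a..b, (2 * P * ℓ) ^ 2 := by
      apply intervalIntegral.integral_mono_on hab (((B_cont2 u hP α).norm.pow 2).intervalIntegrable _ _) (by simp)
      intro c _
      exact pow_le_pow_left₀ (norm_nonneg _) (B_le hu α c) 2
    rw [intervalIntegral.integral_const, smul_eq_mul] at h1
    have h2 : (b - a) * (2 * P * ℓ) ^ 2 ≤ 1 * (2 * P * ℓ) ^ 2 := mul_le_mul_of_nonneg_right hab1 (by positivity)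
    have h3 : (2 * P * ℓ : ℝ) ≤ 2 * ℓ * (1 + Real.log (2 * P)) * (√(P : ℝ) + v) := by
      calc (2 * P * ℓ : ℝ) = 2 * ℓ * 1 * P := by ring
        _ ≤ 2 * ℓ * (1 + Real.log (2 * P)) * (√(P : ℝ) + v) := by
            apply mul_le_mul _ (by linarith) hP0.le (by positivity)
            apply mul_le_mul_of_nonneg_left (by linarith) (by positivity)
    have h4 := pow_le_pow_left₀ (by positivity : (0 : ℝ) ≤ 2 * P * ℓ) h3 2
    linarith
  · refine (sqmean hP ha hab hα hu).trans ?_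
    have h1 : 2 * P * (b - a) ≤ 2 * (P : ℝ) := by nlinarith
    have h2 : 4 * P * (1 + Real.log (2 * P)) / (|α| * (P : ℝ) ^ (a - 1)) ≤ 4 * (1 + Real.log (2 * P)) * v ^ 2 := by
      rw [div_le_iff₀ (by positivity)]
      have e1 : |α| = (v ^ a)⁻¹ := by rw [hva, inv_inv]
      have e2 : (v : ℝ) ^ a = v ^ (a - 2) * v ^ 2 := by
        rw [← Real.rpow_two, ← Real.rpow_add hv0]
        congr 1
        ring
      have e3 : (P : ℝ) ^ (a - 1) = (P : ℝ) ^ (a - 2) * P := by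
        rw [← Real.rpow_add_one hP0.ne']
        congr 1
        ring
      have e4 : v ^ (a - 2) ≤ (P : ℝ) ^ (a - 2) := Real.rpow_le_rpow hv0.le hPv.le (by linarith)
      have e5 : 0 < v ^ (a - 2) := Real.rpow_pos_of_pos hv0 _
      have e6 : 4 * (1 + Real.log (2 * P)) * v ^ 2 * (|α| * (P : ℝ) ^ (a - 1)) =
          4 * P * (1 + Real.log (2 * P)) * ((P : ℝ) ^ (a - 2) / v ^ (a - 2)) := by
        rw [e1, e2, e3]
        field_simp
      rw [e6]
      have e7 : 1 ≤ (P : ℝ) ^ (a - 2) / v ^ (a - 2) := by rw [le_div_iff₀ e5]; linarith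
      calc 4 * P * (1 + Real.log (2 * P)) = 4 * P * (1 + Real.log (2 * P)) * 1 := (mul_one _).symm
        _ ≤ _ := mul_le_mul_of_nonneg_left e7 (by positivity)
    have h3 : 2 * (P : ℝ) + 4 * (1 + Real.log (2 * P)) * v ^ 2 ≤ (2 * (1 + Real.log (2 * P)) * (√(P : ℝ) + v)) ^ 2 := by
      set l := Real.log (2 * P)
      have e0 : (√(P : ℝ) + v) ^ 2 = P + 2 * (√(P : ℝ) * v) + v ^ 2 := by
        have : (√(P : ℝ) + v) ^ 2 = √(P : ℝ) * √(P : ℝ) + 2 * (√(P : ℝ) * v) + v ^ 2 := by ring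
        rw [this, hs]
      have e1 : (2 * (1 + l) * (√(P : ℝ) + v)) ^ 2 = 4 * (1 + l) ^ 2 * (P + 2 * (√(P : ℝ) * v) + v ^ 2) := by
        rw [mul_pow, e0]; ring
      rw [e1]
      have e2 : 1 + l ≤ (1 + l) ^ 2 := by nlinarith
      have e3 : 0 ≤ √(P : ℝ) * v := by positivity
      have e4 : (1 + l) * (P + v ^ 2) ≤ (1 + l) ^ 2 * (P + 2 * (√(P : ℝ) * v) + v ^ 2) := by
        apply mul_le_mul e2 (by linarith) (by positivity) (by positivity)
      nlinarith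
    calc ℓ ^ 2 * (2 * P * (b - a) + 4 * P * (1 + Real.log (2 * P)) / (|α| * (P : ℝ) ^ (a - 1))) ≤
        ℓ ^ 2 * (2 * P + 4 * (1 + Real.log (2 * P)) * v ^ 2) := by
          apply mul_le_mul_of_nonneg_left _ (by positivity)
          linarith
      _ ≤ ℓ ^ 2 * (2 * (1 + Real.log (2 * P)) * (√(P : ℝ) + v)) ^ 2 := mul_le_mul_of_nonneg_left h3 (by positivity)
      _ = _ := by ring

/-- the mean square over the exponent -/
theorem S_mean2 (m : ℕ) {a b : ℝ} (ha : 2 ≤ a) (hab : a ≤ b) (hab1 : b - a ≤ 1) {α : ℝ} (hα : α ≠ 0) :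
    ∫ c in a..b, ‖S m α c‖ ^ 2 ≤ (8 * ((m : ℝ) + 1) ^ 3 * (√((3 : ℝ) ^ m) + |α| ^ (-(1 / a)))) ^ 2 := by
  have hcB : ∀ i : ℕ, Continuous fun c : ℝ => ‖B lw (3 ^ i) α c‖ ^ 2 := fun i =>
    (B_cont2 lw (Nat.one_le_pow i 3 (by norm_num)) α).norm.pow 2
  have h1 : ∫ c in a..b, ‖S m α c‖ ^ 2 ≤ ∫ c in a..b, (m : ℝ) * ∑ i ∈ range m, ‖B lw (3 ^ i) α c‖ ^ 2 := by
    apply intervalIntegral.integral_mono_on hab (((S_cont2 m α).norm.pow 2).intervalIntegrable _ _)
      ((continuous_const.mul (continuous_finsetSum _ fun i _ => hcB i)).intervalIntegrable _ _)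
    intro c _
    have h2 : ‖S m α c‖ ≤ ∑ i ∈ range m, ‖B lw (3 ^ i) α c‖ := by
      rw [S_sum]
      exact norm_sum_le _ _
    have h3 := sq_sum_le_card_mul_sum_sq (s := range m) (f := fun i => ‖B lw (3 ^ i) α c‖)
    rw [card_range] at h3
    exact (pow_le_pow_left₀ (norm_nonneg _) h2 2).trans h3
  refine h1.trans ?_
  rw [intervalIntegral.integral_const_mul,
    intervalIntegral.integral_finsetSum (fun i _ => (hcB i).intervalIntegrable _ _)]
  set v : ℝ := |α| ^ (-(1 / a)) with hv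
  have hv0 : 0 ≤ v := by positivity
  have h2 : ∀ i ∈ range m, ∫ c in a..b, ‖B lw (3 ^ i) α c‖ ^ 2 ≤ (8 * ((m : ℝ) + 1) ^ 2 * (√((3 : ℝ) ^ m) + v)) ^ 2 := by
    intro i hi
    rw [mem_range] at hi
    have hi' : (i : ℝ) + 1 ≤ m := by exact_mod_cast hi
    have hi0 : (0 : ℝ) ≤ i := Nat.cast_nonneg _
    have h3 : 0 < 2 * ((m : ℝ)) := by linarith
    have h4 := block2 (P := 3 ^ i) (Nat.one_le_pow i 3 (by norm_num)) ha hab hab1 hα (u := lw) h3 (by
      intro x hx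
      rw [mem_Ico] at hx
      refine (lw_le (N := 3 ^ (i + 1)) (by rw [pow_succ]; omega)).trans ?_
      push_cast
      rw [Real.log_pow]
      push_cast
      have := log3_le
      nlinarith)
    refine h4.trans ?_
    push_cast
    have h5 : 1 + Real.log (2 * (3 : ℝ) ^ i) ≤ 2 * ((m : ℝ) + 1) := by
      rw [Real.log_mul (by norm_num) (by positivity), Real.log_pow]
      have h6 : Real.log 2 ≤ 1 := by have := Real.log_two_lt_d9; linarith
      have := log3_le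
      nlinarith
    have h6 : √((3 : ℝ) ^ i) ≤ √((3 : ℝ) ^ m) := Real.sqrt_le_sqrt (pow_le_pow_right₀ (by norm_num) hi.le)
    have h7 : 0 ≤ Real.log (2 * (3 : ℝ) ^ i) := Real.log_nonneg (by
      have : (1 : ℝ) ≤ 3 ^ i := one_le_pow₀ (by norm_num)
      linarith)
    apply pow_le_pow_left₀ (by positivity)
    calc 2 * (2 * (m : ℝ)) * (1 + Real.log (2 * (3 : ℝ) ^ i)) * (√((3 : ℝ) ^ i) + v) ≤
        2 * (2 * (m : ℝ)) * (2 * ((m : ℝ) + 1)) * (√((3 : ℝ) ^ m) + v) := by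
          apply mul_le_mul _ (by linarith) (by positivity) (by positivity)
          exact mul_le_mul_of_nonneg_left h5 (by positivity)
      _ ≤ 8 * ((m : ℝ) + 1) ^ 2 * (√((3 : ℝ) ^ m) + v) := by
          apply mul_le_mul_of_nonneg_right _ (by positivity)
          nlinarith
  have h3 := mul_le_mul_of_nonneg_left (sum_le_sum h2) (Nat.cast_nonneg m : (0 : ℝ) ≤ m)
  refine h3.trans ?_
  rw [sum_const, card_range, nsmul_eq_mul]
  have h4 : 0 ≤ (8 * ((m : ℝ) + 1) ^ 2 * (√((3 : ℝ) ^ m) + v)) ^ 2 := by positivity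
  have h5 : (m : ℝ) * m ≤ ((m : ℝ) + 1) ^ 2 := by nlinarith [(Nat.cast_nonneg m : (0 : ℝ) ≤ m)]
  calc (m : ℝ) * ((m : ℝ) * (8 * ((m : ℝ) + 1) ^ 2 * (√((3 : ℝ) ^ m) + v)) ^ 2) =
      (m * m) * (8 * ((m : ℝ) + 1) ^ 2 * (√((3 : ℝ) ^ m) + v)) ^ 2 := by ring
    _ ≤ ((m : ℝ) + 1) ^ 2 * (8 * ((m : ℝ) + 1) ^ 2 * (√((3 : ℝ) ^ m) + v)) ^ 2 := mul_le_mul_of_nonneg_right h5 h4
    _ = _ := by ring

/-- the mean square of the normalised sum over the exponent -/
theorem sf_mean2 {J : ℕ} (hJ : 1 ≤ J) {a b : ℝ} (ha : 2 ≤ a) (hab1 : b - a ≤ 1) {α : ℝ} (hα : 1 ≤ |α| * (3 : ℝ) ^ J) :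
    ∫ c in Set.Ioc a b, ‖sf J α c‖ ^ 2 ≤
      (8 * ((J : ℝ) + 1) ^ 4 * (((3 : ℝ) ^ J) ^ (-(1 / (2 * b))) + (|α| * (3 : ℝ) ^ J) ^ (-(1 / b)))) ^ 2 := by
  have hα1 := alpha_ne hα
  rcases le_or_gt b a with hba | hab
  · rw [Set.Ioc_eq_empty (not_lt.2 hba), setIntegral_empty]
    positivity
  have hT1 : (1 : ℝ) ≤ (3 : ℝ) ^ J := one_le_pow₀ (by norm_num)
  set U : ℝ := ((3 : ℝ) ^ J) ^ (-(1 / (2 * b))) + (|α| * (3 : ℝ) ^ J) ^ (-(1 / b)) with hU
  have hU0 : 0 ≤ U := by positivity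
  set H : ℕ → ℝ → ℝ := fun m c => Set.indicator {c : ℝ | (J : ℝ) ≤ m * c} (fun c => (‖S m α c‖ / 3 ^ m) ^ 2) c with hH
  have hAm : ∀ m : ℕ, MeasurableSet {c : ℝ | (J : ℝ) ≤ m * c} := fun m =>
    measurableSet_le measurable_const (measurable_const.mul measurable_id)
  have hcm : ∀ m : ℕ, Continuous fun c : ℝ => (‖S m α c‖ / 3 ^ m) ^ 2 := fun m => ((S_cont2 m α).norm.div_const _).pow 2
  have hHi : ∀ m : ℕ, IntegrableOn (H m) (Set.Ioc a b) := by
    intro m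
    apply Integrable.indicator _ (hAm m)
    exact ((hcm m).integrableOn_Icc).mono_set Set.Ioc_subset_Icc_self
  have hH0 : ∀ (m : ℕ) (c : ℝ), 0 ≤ H m c := by
    intro m c
    rw [hH]
    exact Set.indicator_nonneg (fun c _ => by positivity) c
  have h1 : ∀ c ∈ Set.Ioc a b, ‖sf J α c‖ ^ 2 ≤ ∑ m ∈ range (J + 1), H m c := by
    intro c hc
    have hc1 : 1 ≤ c := by linarith [hc.1]
    have hm : mm J c ∈ range (J + 1) := by
      rw [mem_range]
      have := mm_le (J := J) hc1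
      omega
    refine le_trans ?_ (single_le_sum (fun m _ => hH0 m c) hm)
    rw [hH]
    simp only
    rw [Set.indicator_of_mem (by
      show (J : ℝ) ≤ mm J c * c
      exact mm_ge (by linarith))]
    unfold sf
    rw [norm_div, norm3]
  have h2 : ∫ c in Set.Ioc a b, ‖sf J α c‖ ^ 2 ≤ ∫ c in Set.Ioc a b, ∑ m ∈ range (J + 1), H m c := by
    apply setIntegral_mono_on _ (integrable_finsetSum _ fun m _ => hHi m) measurableSet_Ioc h1
    refine Integrable.of_bound (C := 4) ((sf_meas2 J α).norm.pow_const 2).aestronglyMeasurable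
      (Filter.Eventually.of_forall fun c => ?_)
    rw [Real.norm_of_nonneg (by positivity)]
    have := sf_le J α c
    nlinarith [norm_nonneg (sf J α c)]
  refine h2.trans ?_
  rw [integral_finsetSum _ fun m _ => hHi m]
  have h3 : ∀ m ∈ range (J + 1), ∫ c in Set.Ioc a b, H m c ≤ (8 * ((J : ℝ) + 1) ^ 3 * U) ^ 2 := by
    intro m hm
    rw [mem_range] at hm
    have hmJ : (m : ℝ) ≤ J := by exact_mod_cast (by omega : m ≤ J)
    have hm0 : (0 : ℝ) ≤ m := Nat.cast_nonneg _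
    rw [hH]
    simp only
    rw [setIntegral_indicator (hAm m)]
    have hB0 : 0 ≤ (8 * ((J : ℝ) + 1) ^ 3 * U) ^ 2 := by positivity
    have hempty : (Set.Ioc a b ∩ {c : ℝ | (J : ℝ) ≤ m * c} = ∅) →
        ∫ c in Set.Ioc a b ∩ {c : ℝ | (J : ℝ) ≤ m * c}, (‖S m α c‖ / 3 ^ m) ^ 2 ≤ (8 * ((J : ℝ) + 1) ^ 3 * U) ^ 2 := by
      intro h
      rw [h, setIntegral_empty]
      exact hB0
    rcases Nat.eq_zero_or_pos m with h0 | hmpos
    · apply hempty
      rw [Set.eq_empty_iff_forall_notMem]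
      rintro c ⟨_, hc⟩
      simp only [h0, Set.mem_ofPred_eq] at hc
      have : (1 : ℝ) ≤ J := by exact_mod_cast hJ
      push_cast at hc
      linarith
    · have hm1 : (0 : ℝ) < m := by exact_mod_cast hmpos
      set a' : ℝ := max a (J / m) with ha'
      have haa' : a ≤ a' := le_max_left _ _
      have hJm : (J : ℝ) ≤ m * a' := by
        have : (J : ℝ) / m ≤ a' := le_max_right _ _
        rw [div_le_iff₀ hm1] at this
        linarith
      rcases lt_or_ge b a' with hba' | hab'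
      · apply hempty
        rw [Set.eq_empty_iff_forall_notMem]
        rintro c ⟨hc1, hc⟩
        simp only [Set.mem_ofPred_eq] at hc
        have h4 : (J : ℝ) / m ≤ c := by rw [div_le_iff₀ hm1]; linarith
        have h5 : a' ≤ c := max_le hc1.1.le h4
        linarith [hc1.2]
      · have hsub : Set.Ioc a b ∩ {c : ℝ | (J : ℝ) ≤ m * c} ⊆ Set.Icc a' b := by
          rintro c ⟨hc1, hc⟩
          simp only [Set.mem_ofPred_eq] at hc
          have h4 : (J : ℝ) / m ≤ c := by rw [div_le_iff₀ hm1]; linarith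
          exact ⟨max_le hc1.1.le h4, hc1.2⟩
        have h4 : ∫ c in Set.Ioc a b ∩ {c : ℝ | (J : ℝ) ≤ m * c}, (‖S m α c‖ / 3 ^ m) ^ 2 ≤
            ∫ c in Set.Icc a' b, (‖S m α c‖ / 3 ^ m) ^ 2 := by
          apply setIntegral_mono_set (hcm m).integrableOn_Icc (Filter.Eventually.of_forall fun c => by positivity)
          exact hsub.eventuallyLE
        simp_rw [div_pow] at h4
        rw [integral_Icc_eq_integral_Ioc, ← intervalIntegral.integral_of_le hab', intervalIntegral.integral_div] at h4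
        have h5 := S_mean2 m (ha.trans haa') hab' (by linarith) hα1
        have h6 : 1 / √((3 : ℝ) ^ m) ≤ ((3 : ℝ) ^ J) ^ (-(1 / (2 * b))) := by
          rw [Real.rpow_neg (by positivity), one_div]
          apply inv_anti₀ (by positivity)
          have h7 := pow3_ge (by linarith : 0 < a') hJm
          have h8 : ((3 : ℝ) ^ J) ^ (1 / (2 * b)) ≤ √(((3 : ℝ) ^ J) ^ (1 / a')) := by
            rw [Real.sqrt_eq_rpow, ← Real.rpow_mul (by positivity)]
            apply Real.rpow_le_rpow_of_exponent_le hT1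
            have h9 : 1 / b ≤ 1 / a' := one_div_le_one_div_of_le (by linarith) hab'
            have h10 : 1 / (2 * b) = 1 / b * (1 / 2) := by
              have : b ≠ 0 := by linarith
              field_simp
            rw [h10]
            linarith
          exact h8.trans (Real.sqrt_le_sqrt h7)
        have h7 : |α| ^ (-(1 / a')) / (3 : ℝ) ^ m ≤ (|α| * (3 : ℝ) ^ J) ^ (-(1 / b)) :=
          (decay (by linarith) hJm hα1).trans (inv_mono hα (by linarith) hab')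
        have h8 : (√((3 : ℝ) ^ m) + |α| ^ (-(1 / a'))) / 3 ^ m ≤ U := by
          rw [add_div, hU]
          have h9 : √((3 : ℝ) ^ m) / 3 ^ m = 1 / √((3 : ℝ) ^ m) := by
            rw [div_eq_div_iff (by positivity) (by positivity), Real.mul_self_sqrt (by positivity), one_mul]
          rw [h9]
          linarith
        have h9 : 8 * ((m : ℝ) + 1) ^ 3 * ((√((3 : ℝ) ^ m) + |α| ^ (-(1 / a'))) / 3 ^ m) ≤ 8 * ((J : ℝ) + 1) ^ 3 * U := by
          apply mul_le_mul _ h8 (by positivity) (by positivity)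
          gcongr
        simp_rw [div_pow]
        calc ∫ c in Set.Ioc a b ∩ {c : ℝ | (J : ℝ) ≤ m * c}, ‖S m α c‖ ^ 2 / (3 ^ m) ^ 2 ≤
            (∫ c in a'..b, ‖S m α c‖ ^ 2) / (3 ^ m) ^ 2 := h4
          _ ≤ (8 * ((m : ℝ) + 1) ^ 3 * (√((3 : ℝ) ^ m) + |α| ^ (-(1 / a')))) ^ 2 / (3 ^ m) ^ 2 := by gcongr
          _ = (8 * ((m : ℝ) + 1) ^ 3 * ((√((3 : ℝ) ^ m) + |α| ^ (-(1 / a'))) / 3 ^ m)) ^ 2 := by ring
          _ ≤ (8 * ((J : ℝ) + 1) ^ 3 * U) ^ 2 := pow_le_pow_left₀ (by positivity) h9 2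
  refine (sum_le_sum h3).trans ?_
  rw [sum_const, card_range, nsmul_eq_mul]
  push_cast
  have hJ0 : (0 : ℝ) ≤ J := Nat.cast_nonneg _
  have h4 : (J : ℝ) + 1 ≤ ((J : ℝ) + 1) ^ 2 := by nlinarith
  have h5 := mul_le_mul_of_nonneg_right h4 (by positivity : 0 ≤ (8 * ((J : ℝ) + 1) ^ 3 * U) ^ 2)
  refine h5.trans (le_of_eq ?_)
  ring

end Pool.Agent.K7.H94.EW
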