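import Mathlib
import Pool.Agent.K7.H94.EW.Bc
import Pool.Agent.K7.H94.EW.Sq2

set_option autoImplicit false

/-! Waring-Goldbach with real exponents: the error in mean and in mean square. -/

namespace Pool.Agent.K7.H94.EW
open Finset MeasureTheory Complex
open Pool.Agent.K7.H74.WS (e norm_e W W_nonneg W_le W_int W_cont W_one)

lemma prod_int {s : ℕ} (a b : Fin s → ℝ) (F : ℝ → ℝ → ℂ) (hF : Measurable fun p : ℝ × ℝ => F p.1 p.2) {α : ℝ}
    (h2 : ∀ c, ‖F α c‖ ≤ 2) (k : ℕ) :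
    Integrable (fun c : Fin s → ℝ => ∏ i, ‖F α (c i)‖ ^ k) (mu a b) ∧
    ∫ c, ∏ i, ‖F α (c i)‖ ^ k ∂(mu a b) = ∏ i, ∫ x in Set.Ioc (a i) (b i), ‖F α x‖ ^ k := by
  constructor
  · refine Integrable.of_bound (C := (2 ^ k) ^ s) ?_ (Filter.Eventually.of_forall fun c => ?_)
    · apply Measurable.aestronglyMeasurable
      refine Finset.measurable_fun_prod _ fun i _ => Measurable.pow_const (Measurable.norm ?_) k
      exact meas_one F hF measurable_const (measurable_pi_apply i)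
    · rw [Real.norm_of_nonneg (prod_nonneg fun _ _ => by positivity)]
      refine (prod_le_prod (fun _ _ => by positivity) fun j _ => pow_le_pow_left₀ (norm_nonneg _) (h2 (c j)) k).trans
        (le_of_eq ?_)
      rw [prod_const, card_univ, Fintype.card_fin]
  · exact integral_fintype_prod_eq_prod (𝕜 := ℝ) (fun (i : Fin s) (x : ℝ) => ‖F α x‖ ^ k)
      (μ := fun i => volume.restrict (Set.Ioc (a i) (b i)))

lemma gf_int {s : ℕ} {a b : Fin s → ℝ} (H : Bx a b) {J : ℕ} {α : ℝ} (hα : 1 ≤ |α| * (3 : ℝ) ^ J) (k : ℕ) :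
    ∏ i, ∫ x in Set.Ioc (a i) (b i), ‖gf J α x‖ ^ k ≤ (2 ^ s * (|α| * (3 : ℝ) ^ J) ^ (-sg b)) ^ k := by
  set A : ℝ := |α| * (3 : ℝ) ^ J with hA
  have hA0 : 0 < A := by linarith
  have h4 : ∀ i, ∫ x in Set.Ioc (a i) (b i), ‖gf J α x‖ ^ k ≤ (2 * A ^ (-(1 / b i))) ^ k := by
    intro i
    have h5 := norm_setIntegral_le_of_norm_le_const (μ := volume) (s := Set.Ioc (a i) (b i)) (C := (2 * A ^ (-(1 / b i))) ^ k)
      (f := fun x => ‖gf J α x‖ ^ k) (by rw [Real.volume_Ioc]; exact ENNReal.ofReal_lt_top) (fun x hx => by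
        rw [norm_pow, norm_norm]
        exact pow_le_pow_left₀ (norm_nonneg _) (gf_dec (by linarith [H.ha i, hx.1]) hx.2 hα) k)
    rw [measureReal_def, Real.volume_Ioc, ENNReal.toReal_ofReal (by linarith [H.hab i])] at h5
    have h6 : 0 ≤ (2 * A ^ (-(1 / b i))) ^ k := by positivity
    have h7 : b i - a i ≤ 1 := by linarith [H.hb i]
    have h8 : (2 * A ^ (-(1 / b i))) ^ k * (b i - a i) ≤ (2 * A ^ (-(1 / b i))) ^ k * 1 := mul_le_mul_of_nonneg_left h7 h6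
    exact (le_abs_self _).trans (h5.trans (by linarith))
  refine (prod_le_prod (fun i _ => integral_nonneg fun _ => by positivity) fun i _ => h4 i).trans (le_of_eq ?_)
  rw [prod_pow, prod_mul_distrib, prod_const, card_univ, Fintype.card_fin, rpow_neg_sg b hA0]

lemma sf_z {J : ℕ} {b α z : ℝ} (hb : 2 ≤ b) (hz0 : 0 < z) (hz1 : z ≤ √((3 : ℝ) ^ J)) (hz2 : z ≤ |α| * (3 : ℝ) ^ J) :
    8 * ((J : ℝ) + 1) ^ 4 * (((3 : ℝ) ^ J) ^ (-(1 / (2 * b))) + (|α| * (3 : ℝ) ^ J) ^ (-(1 / b))) ≤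
      16 * ((J : ℝ) + 1) ^ 4 * z ^ (-(1 / b)) := by
  set T : ℝ := (3 : ℝ) ^ J with hTd
  have hT0 : 0 < T := by positivity
  set A : ℝ := |α| * T with hA
  have e3 : T ^ (-(1 / (2 * b))) ≤ z ^ (-(1 / b)) := by
    have e4 : T ^ (-(1 / (2 * b))) = (Real.sqrt T) ^ (-(1 / b)) := by
      rw [Real.sqrt_eq_rpow, ← Real.rpow_mul hT0.le]
      congr 1
      have : b ≠ 0 := by linarith
      field_simp
    rw [e4]
    apply Real.rpow_le_rpow_of_nonpos hz0 hz1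
    have : 0 < 1 / b := by positivity
    linarith
  have e5 : A ^ (-(1 / b)) ≤ z ^ (-(1 / b)) := by
    apply Real.rpow_le_rpow_of_nonpos hz0 hz2
    have : 0 < 1 / b := by positivity
    linarith
  calc 8 * ((J : ℝ) + 1) ^ 4 * (T ^ (-(1 / (2 * b))) + A ^ (-(1 / b))) ≤
      8 * ((J : ℝ) + 1) ^ 4 * (z ^ (-(1 / b)) + z ^ (-(1 / b))) := by
        apply mul_le_mul_of_nonneg_left _ (by positivity)
        linarith
    _ = _ := by ring

lemma sf_int {s : ℕ} {a b : Fin s → ℝ} (H : Bx a b) {J : ℕ} (hJ : 1 ≤ J) {α z : ℝ} (hα : 1 ≤ |α| * (3 : ℝ) ^ J)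
    (hz0 : 0 < z) (hz1 : z ≤ √((3 : ℝ) ^ J)) (hz2 : z ≤ |α| * (3 : ℝ) ^ J) (k : ℕ) (hk : k = 1 ∨ k = 2) :
    ∏ i, ∫ x in Set.Ioc (a i) (b i), ‖sf J α x‖ ^ k ≤ ((16 * ((J : ℝ) + 1) ^ 4) ^ s * z ^ (-sg b)) ^ k := by
  have h4 : ∀ i, ∫ x in Set.Ioc (a i) (b i), ‖sf J α x‖ ^ k ≤ (16 * ((J : ℝ) + 1) ^ 4 * z ^ (-(1 / b i))) ^ k := by
    intro i
    have hb2 : 2 ≤ b i := (H.ha i).trans (H.hab i)
    have h5 := sf_z (J := J) (α := α) hb2 hz0 hz1 hz2
    rcases hk with rfl | rfl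
    · simp only [pow_one]
      exact (sf_mean hJ (H.ha i) (by linarith [H.hb i]) hα).trans h5
    · exact (sf_mean2 hJ (H.ha i) (by linarith [H.hb i]) hα).trans (pow_le_pow_left₀ (by positivity) h5 2)
  refine (prod_le_prod (fun i _ => integral_nonneg fun _ => by positivity) fun i _ => h4 i).trans (le_of_eq ?_)
  rw [prod_pow, prod_mul_distrib, prod_const, card_univ, Fintype.card_fin, rpow_neg_sg b hz0]

lemma two_le_L (s J : ℕ) : (2 : ℝ) ^ s ≤ (16 * ((J : ℝ) + 1) ^ 4) ^ s := by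
  have hJ1 : (1 : ℝ) ≤ ((J : ℝ) + 1) ^ 4 := one_le_pow₀ (by linarith [(Nat.cast_nonneg J : (0 : ℝ) ≤ J)])
  exact pow_le_pow_left₀ (by norm_num) (by linarith) _

/-- middle frequencies, in mean -/
theorem dl_mid {s : ℕ} {a b : Fin s → ℝ} (H : Bx a b) {J : ℕ} (hJ : 1 ≤ J) {α : ℝ} (hα : 1 ≤ |α| * (3 : ℝ) ^ J)
    (hα2 : |α| * (3 : ℝ) ^ J ≤ √((3 : ℝ) ^ J)) :
    ∫ c, dl J α c ∂(mu a b) ≤ 2 * (16 * ((J : ℝ) + 1) ^ 4) ^ s * (|α| * (3 : ℝ) ^ J) ^ (-sg b) := by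
  set A : ℝ := |α| * (3 : ℝ) ^ J with hA
  have hA0 : 0 < A := by linarith
  obtain ⟨i1, e1⟩ := prod_int a b (sf J) (sf_meas J) (α := α) (fun c => sf_le _ _ _) 1
  obtain ⟨i2, e2⟩ := prod_int a b (gf J) (gf_meas J) (α := α) (fun c => (gf_le _ _ _).trans one_le_two) 1
  have h1 : ∫ c, dl J α c ∂(mu a b) ≤ ∫ c, (∏ i, ‖sf J α (c i)‖ ^ 1 + ∏ i, ‖gf J α (c i)‖ ^ 1) ∂(mu a b) := by
    apply integral_mono_of_nonneg (Filter.Eventually.of_forall fun c => dl_nonneg _ _ _) (i1.add i2)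
      (Filter.Eventually.of_forall fun c => ?_)
    simp only [pow_one]
    unfold dl
    refine (norm_sub_le _ _).trans ?_
    rw [norm_prod, norm_prod]
    exact le_rfl
  rw [integral_add i1 i2, e1, e2] at h1
  have h2 := sf_int H hJ hα hA0 hα2 le_rfl 1 (Or.inl rfl)
  have h3 := gf_int H hα 1
  rw [pow_one] at h2 h3
  have h4 := two_le_L s J
  have h5 : 0 ≤ A ^ (-sg b) := by positivity
  have h6 := mul_le_mul_of_nonneg_right h4 h5
  refine h1.trans ((add_le_add h2 h3).trans ?_)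
  linarith

/-- large frequencies, in mean square -/
theorem dl_hi {s : ℕ} {a b : Fin s → ℝ} (H : Bx a b) {J : ℕ} (hJ : 1 ≤ J) {α : ℝ} (hα : √((3 : ℝ) ^ J) ≤ |α| * (3 : ℝ) ^ J) :
    ∫ c, dl J α c ^ 2 ∂(mu a b) ≤ 4 * ((16 * ((J : ℝ) + 1) ^ 4) ^ s) ^ 2 * ((3 : ℝ) ^ J) ^ (-sg b) := by
  set T : ℝ := (3 : ℝ) ^ J with hTd
  have hT1 : 1 ≤ T := one_le_pow₀ (by norm_num)
  have hT0 : 0 < T := by linarith
  set A : ℝ := |α| * T with hA
  have hs1 : 1 ≤ √T := Real.one_le_sqrt.2 hT1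
  have hA0 : 0 < A := by linarith
  have hsg : 0 ≤ sg b := sum_nonneg fun i _ => by have := (H.ha i).trans (H.hab i); positivity
  obtain ⟨i1, e1⟩ := prod_int a b (sf J) (sf_meas J) (α := α) (fun c => sf_le _ _ _) 2
  obtain ⟨i2, e2⟩ := prod_int a b (gf J) (gf_meas J) (α := α) (fun c => (gf_le _ _ _).trans one_le_two) 2
  have h1 : ∫ c, dl J α c ^ 2 ∂(mu a b) ≤ ∫ c, (2 * ∏ i, ‖sf J α (c i)‖ ^ 2 + 2 * ∏ i, ‖gf J α (c i)‖ ^ 2) ∂(mu a b) := by
    apply integral_mono_of_nonneg (Filter.Eventually.of_forall fun c => by positivity)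
      ((i1.const_mul 2).add (i2.const_mul 2)) (Filter.Eventually.of_forall fun c => ?_)
    have h2 : dl J α c ≤ ∏ i, ‖sf J α (c i)‖ + ∏ i, ‖gf J α (c i)‖ := by
      unfold dl
      refine (norm_sub_le _ _).trans ?_
      rw [norm_prod, norm_prod]
    have h3 := pow_le_pow_left₀ (dl_nonneg J α c) h2 2
    refine h3.trans ?_
    show _ ≤ 2 * ∏ i, ‖sf J α (c i)‖ ^ 2 + 2 * ∏ i, ‖gf J α (c i)‖ ^ 2
    rw [prod_pow, prod_pow]
    nlinarith [sq_nonneg (∏ i, ‖sf J α (c i)‖ - ∏ i, ‖gf J α (c i)‖)]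
  rw [integral_add (i1.const_mul 2) (i2.const_mul 2), integral_const_mul, integral_const_mul, e1, e2] at h1
  have hsT0 : 0 < √T := by linarith
  have h2 := sf_int H hJ (α := α) (by linarith) hsT0 le_rfl hα 2 (Or.inr rfl)
  have h3 := gf_int H (J := J) (α := α) (by linarith) 2
  have e3 : ((√T) ^ (-sg b)) ^ 2 = T ^ (-sg b) := by
    rw [← Real.rpow_natCast, ← Real.rpow_mul hsT0.le, Real.sqrt_eq_rpow, ← Real.rpow_mul hT0.le]
    congr 1
    push_cast
    ring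
  rw [mul_pow, e3] at h2
  have h4 : (2 ^ s * A ^ (-sg b)) ^ 2 ≤ ((16 * ((J : ℝ) + 1) ^ 4) ^ s) ^ 2 * T ^ (-sg b) := by
    rw [← e3, ← mul_pow]
    apply pow_le_pow_left₀ (by positivity)
    apply mul_le_mul (two_le_L s J) _ (by positivity) (by positivity)
    exact Real.rpow_le_rpow_of_nonpos hsT0 hα (by linarith)
  linarith

/-- the cut -/
noncomputable def cut (J : ℕ) (h : ℝ) : Set ℝ := Set.Icc (-(h / √((3 : ℝ) ^ J))) (h / √((3 : ℝ) ^ J))

lemma cut_meas (J : ℕ) (h : ℝ) : MeasurableSet (cut J h) := measurableSet_Icc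

lemma mem_cut {J : ℕ} {h β : ℝ} (hh : 0 < h) : β ∈ cut J h ↔ |β / h| * (3 : ℝ) ^ J ≤ √((3 : ℝ) ^ J) := by
  have hT0 : (0 : ℝ) < (3 : ℝ) ^ J := by positivity
  have hs : √((3 : ℝ) ^ J) * √((3 : ℝ) ^ J) = (3 : ℝ) ^ J := Real.mul_self_sqrt hT0.le
  have hs0 : 0 < √((3 : ℝ) ^ J) := Real.sqrt_pos.2 hT0
  have hc : β ∈ cut J h ↔ |β| ≤ h / √((3 : ℝ) ^ J) := by
    unfold cut
    rw [Set.mem_Icc, abs_le]
  rw [hc, abs_div, abs_of_pos hh, le_div_iff₀ hs0, div_mul_eq_mul_div, div_le_iff₀ hh]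
  constructor
  · intro h1
    have h2 : |β| * √((3 : ℝ) ^ J) * √((3 : ℝ) ^ J) ≤ h * √((3 : ℝ) ^ J) :=
      mul_le_mul_of_nonneg_right h1 hs0.le
    rw [mul_assoc, hs] at h2
    linarith
  · intro h1
    have h2 : √((3 : ℝ) ^ J) * (|β| * √((3 : ℝ) ^ J)) ≤ √((3 : ℝ) ^ J) * h := by
      have h3 : √((3 : ℝ) ^ J) * (|β| * √((3 : ℝ) ^ J)) = |β| * (√((3 : ℝ) ^ J) * √((3 : ℝ) ^ J)) := by
        ring
      rw [h3, hs]; linarith
    exact le_of_mul_le_mul_left h2 hs0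

/-- the error of the small frequencies -/
noncomputable def ErrL {s : ℕ} (J : ℕ) (h : ℝ) (c : Fin s → ℝ) : ℝ := ∫ β in cut J h, W β * dl J (β / h) c

/-- the mean square error of the large frequencies -/
noncomputable def ErrH {s : ℕ} (J : ℕ) (h : ℝ) (c : Fin s → ℝ) : ℝ := ∫ β in (cut J h)ᶜ, W β * dl J (β / h) c ^ 2

lemma ErrL_nonneg {s : ℕ} (J : ℕ) (h : ℝ) (c : Fin s → ℝ) : 0 ≤ ErrL J h c :=
  integral_nonneg fun β => mul_nonneg (W_nonneg _) (dl_nonneg _ _ _)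

lemma ErrH_nonneg {s : ℕ} (J : ℕ) (h : ℝ) (c : Fin s → ℝ) : 0 ≤ ErrH J h c :=
  integral_nonneg fun β => mul_nonneg (W_nonneg _) (by positivity)

lemma Wdlk_int {s : ℕ} (a b : Fin s → ℝ) (J : ℕ) (h : ℝ) (k : ℕ) (A : Set ℝ) :
    Integrable (fun p : (Fin s → ℝ) × ℝ => W p.2 * dl J (p.2 / h) p.1 ^ k) ((mu a b).prod (volume.restrict A)) := by
  have h1 : Integrable (fun p : (Fin s → ℝ) × ℝ => ((2 * 2 ^ s : ℝ) ^ k) * W p.2) ((mu a b).prod (volume.restrict A)) :=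
    (integrable_const ((2 * 2 ^ s : ℝ) ^ k)).mul_prod W_int.integrableOn
  refine h1.mono' (f := fun p : (Fin s → ℝ) × ℝ => W p.2 * dl J (p.2 / h) p.1 ^ k) ?_ ?_
  · have hW : Measurable fun p : (Fin s → ℝ) × ℝ => W p.2 := W_cont.measurable.comp measurable_snd
    have h4 : Measurable fun p : (Fin s → ℝ) × ℝ => dl J (p.2 / h) p.1 :=
      dl_meas J (measurable_snd.div_const h) measurable_fst
    exact (hW.mul (h4.pow_const k)).aestronglyMeasurable
  · refine Filter.Eventually.of_forall fun p => ?_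
    have h5 : 0 ≤ dl J (p.2 / h) p.1 ^ k := pow_nonneg (dl_nonneg _ _ _) k
    rw [Real.norm_of_nonneg (mul_nonneg (W_nonneg _) h5), mul_comm]
    exact mul_le_mul_of_nonneg_right (pow_le_pow_left₀ (dl_nonneg _ _ _) (dl_le _ _ _) k) (W_nonneg _)

lemma ErrL_int {s : ℕ} (a b : Fin s → ℝ) (J : ℕ) (h : ℝ) : Integrable (ErrL J h) (mu a b) := by
  have h1 := (Wdlk_int a b J h 1 (cut J h)).integral_prod_left
  simp only [pow_one] at h1
  exact h1

lemma ErrH_int {s : ℕ} (a b : Fin s → ℝ) (J : ℕ) (h : ℝ) : Integrable (ErrH J h) (mu a b) :=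
  (Wdlk_int a b J h 2 (cut J h)ᶜ).integral_prod_left

/-- the majorant -/
lemma maj {lam : ℝ} (hlam : 1 < lam) {q : ℝ} (hq : 0 < q) :
    Integrable (fun β : ℝ => (1 + |β / q|) ^ (-lam)) ∧
    ∫ β : ℝ, (1 + |β / q|) ^ (-lam) = q * ∫ x : ℝ, (1 + |x|) ^ (-lam) := by
  have h1 : Integrable fun x : ℝ => (1 + ‖x‖) ^ (-lam) := integrable_one_add_norm (by simpa using hlam)
  simp only [Real.norm_eq_abs] at h1
  refine ⟨h1.comp_div hq.ne', ?_⟩
  rw [Measure.integral_comp_div (fun x : ℝ => (1 + |x|) ^ (-lam)) q, abs_of_pos hq, smul_eq_mul]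

/-- the expected error of the small frequencies -/
theorem ErrL_mean (K s : ℕ) {B : ℝ} (hB : 1 ≤ B) : ∃ C : ℝ, 0 < C ∧ ∀ (a b : Fin s → ℝ), Bx a b → (∀ i, b i ≤ B) → 1 < sg b →
    ∀ (J : ℕ), 1 ≤ J → ∀ (h Q : ℝ), 0 < h → 1 ≤ Q →
    ∫ c, ErrL J h c ∂(mu a b) ≤ 2 ^ sg b * (∫ x : ℝ, (1 + |x|) ^ (-sg b)) * (h / (3 : ℝ) ^ J) *
      (Q * (C * (1 + Q) / ((J : ℝ) + 1) ^ K) + 2 * (16 * ((J : ℝ) + 1) ^ 4) ^ s * Q ^ (1 - sg b)) := by
  obtain ⟨C, hC, hd⟩ := dl_low K s hB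
  refine ⟨C, hC, fun a b H hbB hs J hJ h Q hh hQ => ?_⟩
  set T : ℝ := (3 : ℝ) ^ J with hTd
  have hT1 : 1 ≤ T := one_le_pow₀ (by norm_num)
  have hT0 : 0 < T := by linarith
  have hQ0 : 0 < Q := by linarith
  set lam : ℝ := sg b with hlam
  set R : ℝ := C * (1 + Q) / ((J : ℝ) + 1) ^ K with hR
  have hR0 : 0 < R := by positivity
  set L : ℝ := 2 * (16 * ((J : ℝ) + 1) ^ 4) ^ s with hL
  have hL0 : 0 < L := by positivity
  set q : ℝ := Q * h / T with hq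
  have hq0 : 0 < q := by positivity
  obtain ⟨hmi, hmv⟩ := maj hs hq0
  have h1 : ∫ c, ErrL J h c ∂(mu a b) = ∫ β in cut J h, W β * ∫ c, dl J (β / h) c ∂(mu a b) := by
    unfold ErrL
    have h2 := Wdlk_int a b J h 1 (cut J h)
    simp only [pow_one] at h2
    rw [integral_integral_swap (f := fun (c : Fin s → ℝ) (β : ℝ) => W β * dl J (β / h) c) h2]
    simp_rw [integral_const_mul]
  rw [h1]
  have hpt : ∀ β ∈ cut J h, W β * ∫ c, dl J (β / h) c ∂(mu a b) ≤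
      2 ^ lam * (R + L * Q ^ (-lam)) * (1 + |β / q|) ^ (-lam) := by
    intro β hβ
    rw [mem_cut hh] at hβ
    have hm0 : 0 ≤ ∫ c, dl J (β / h) c ∂(mu a b) := integral_nonneg fun c => dl_nonneg _ _ _
    have hW : W β * ∫ c, dl J (β / h) c ∂(mu a b) ≤ 1 * ∫ c, dl J (β / h) c ∂(mu a b) :=
      mul_le_mul_of_nonneg_right (W_le β) hm0
    rw [one_mul] at hW
    refine hW.trans ?_
    have hA : |β / h| * T = Q * |β / q| := by
      rw [hq, abs_div, abs_div, abs_of_pos hh, abs_of_pos (by positivity : 0 < Q * h / T)]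
      field_simp
    set x : ℝ := |β / q| with hx
    have hx0 : 0 ≤ x := abs_nonneg _
    have hQl : 0 ≤ Q ^ (-lam) := by positivity
    rcases le_or_gt x 1 with hx1 | hx1
    · have h3 : ∫ c, dl J (β / h) c ∂(mu a b) ≤ R := by
        have h4 : ∀ᵐ c ∂(mu a b), dl J (β / h) c ≤ R := by
          rw [mu_eq]
          filter_upwards [ae_restrict_mem (MeasurableSet.univ_pi fun _ => measurableSet_Ioc)] with c hc
          have hc' : ∀ i, c i ∈ Set.Ioc (a i) (b i) := fun i => hc i (Set.mem_univ i)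
          refine (hd J (β / h) c (fun i => by linarith [H.ha i, (hc' i).1]) (fun i => (hc' i).2.trans (hbB i))).trans ?_
          rw [hR, hA]
          have : Q * x ≤ Q := by nlinarith
          gcongr
        have h5 := integral_mono_of_nonneg (Filter.Eventually.of_forall fun c => dl_nonneg J (β / h) c) (integrable_const R) h4
        rw [integral_const, smul_eq_mul] at h5
        have h6 : (mu a b).real Set.univ * R ≤ 1 * R := mul_le_mul_of_nonneg_right (mass H) hR0.le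
        exact h5.trans (by linarith)
      have h4 : 1 ≤ 2 ^ lam * (1 + x) ^ (-lam) := by
        rw [Real.rpow_neg (by linarith), ← div_eq_mul_inv, le_div_iff₀ (by positivity), one_mul]
        exact Real.rpow_le_rpow (by linarith) (by linarith) (by linarith)
      calc ∫ c, dl J (β / h) c ∂(mu a b) ≤ R := h3
        _ ≤ (R + L * Q ^ (-lam)) * 1 := by
            have : 0 ≤ L * Q ^ (-lam) := by positivity
            linarith
        _ ≤ (R + L * Q ^ (-lam)) * (2 ^ lam * (1 + x) ^ (-lam)) := mul_le_mul_of_nonneg_left h4 (by positivity)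
        _ = _ := by ring
    · have hA1 : 1 ≤ |β / h| * T := by rw [hA]; nlinarith
      have h3 := dl_mid H hJ hA1 hβ
      refine h3.trans ?_
      rw [hA, Real.mul_rpow hQ0.le hx0]
      have h4 : x ^ (-lam) ≤ 2 ^ lam * (1 + x) ^ (-lam) := by
        have h5 : 2 ^ lam * (1 + x) ^ (-lam) = ((1 + x) / 2) ^ (-lam) := by
          rw [Real.div_rpow (by linarith) (by norm_num), Real.rpow_neg (by norm_num : (0 : ℝ) ≤ 2), div_inv_eq_mul, mul_comm]
        rw [h5]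
        exact Real.rpow_le_rpow_of_nonpos (by linarith) (by linarith) (by linarith)
      calc L * (Q ^ (-lam) * x ^ (-lam)) ≤ L * (Q ^ (-lam) * (2 ^ lam * (1 + x) ^ (-lam))) := by gcongr
        _ = (L * Q ^ (-lam)) * (2 ^ lam * (1 + x) ^ (-lam)) := by ring
        _ ≤ (R + L * Q ^ (-lam)) * (2 ^ lam * (1 + x) ^ (-lam)) := by
            apply mul_le_mul_of_nonneg_right (by linarith)
            have : 0 < 1 + x := by linarith
            positivity
        _ = _ := by ring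
  have hint : Integrable fun β : ℝ => 2 ^ lam * (R + L * Q ^ (-lam)) * (1 + |β / q|) ^ (-lam) := hmi.const_mul _
  have h2 : ∫ β in cut J h, W β * ∫ c, dl J (β / h) c ∂(mu a b) ≤
      ∫ β : ℝ, 2 ^ lam * (R + L * Q ^ (-lam)) * (1 + |β / q|) ^ (-lam) := by
    have h3 : ∫ β in cut J h, W β * ∫ c, dl J (β / h) c ∂(mu a b) ≤
        ∫ β in cut J h, 2 ^ lam * (R + L * Q ^ (-lam)) * (1 + |β / q|) ^ (-lam) := by
      apply integral_mono_of_nonneg
      · exact Filter.Eventually.of_forall fun β => mul_nonneg (W_nonneg _) (integral_nonneg fun _ => dl_nonneg _ _ _)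
      · exact hint.integrableOn
      · exact (ae_restrict_iff' (cut_meas J h)).2 (Filter.Eventually.of_forall hpt)
    refine h3.trans (setIntegral_le_integral hint (Filter.Eventually.of_forall fun β => ?_))
    have : 0 < 1 + |β / q| := by positivity
    show 0 ≤ _
    positivity
  refine h2.trans (le_of_eq ?_)
  rw [integral_const_mul, hmv]
  have e1 : Q ^ (1 - lam) = Q * Q ^ (-lam) := by
    rw [← Real.rpow_one_add' hQ0.le (by linarith)]
    ring_nf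
  rw [e1, hq]
  ring

/-- the expected mean square error of the large frequencies -/
theorem ErrH_mean {s : ℕ} {a b : Fin s → ℝ} (H : Bx a b) {J : ℕ} (hJ : 1 ≤ J) {h : ℝ} (hh : 0 < h) :
    ∫ c, ErrH J h c ∂(mu a b) ≤ 4 * ((16 * ((J : ℝ) + 1) ^ 4) ^ s) ^ 2 * ((3 : ℝ) ^ J) ^ (-sg b) := by
  set R : ℝ := 4 * ((16 * ((J : ℝ) + 1) ^ 4) ^ s) ^ 2 * ((3 : ℝ) ^ J) ^ (-sg b) with hR
  have hR0 : 0 ≤ R := by positivity
  have h1 : ∫ c, ErrH J h c ∂(mu a b) = ∫ β in (cut J h)ᶜ, W β * ∫ c, dl J (β / h) c ^ 2 ∂(mu a b) := by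
    unfold ErrH
    rw [integral_integral_swap (f := fun (c : Fin s → ℝ) (β : ℝ) => W β * dl J (β / h) c ^ 2) (Wdlk_int a b J h 2 _)]
    simp_rw [integral_const_mul]
  rw [h1]
  have h2 : ∫ β in (cut J h)ᶜ, W β * ∫ c, dl J (β / h) c ^ 2 ∂(mu a b) ≤ ∫ β in (cut J h)ᶜ, W β * R := by
    apply integral_mono_of_nonneg
    · exact Filter.Eventually.of_forall fun β => mul_nonneg (W_nonneg _) (integral_nonneg fun _ => by positivity)
    · exact (W_int.mul_const R).integrableOn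
    · refine (ae_restrict_iff' (cut_meas J h).compl).2 (Filter.Eventually.of_forall fun β hβ => ?_)
      apply mul_le_mul_of_nonneg_left _ (W_nonneg _)
      rw [Set.mem_compl_iff, mem_cut hh, not_le] at hβ
      exact dl_hi H hJ hβ.le
  refine h2.trans ?_
  have h3 : ∫ β in (cut J h)ᶜ, W β * R ≤ ∫ β, W β * R :=
    setIntegral_le_integral (W_int.mul_const R) (Filter.Eventually.of_forall fun β => mul_nonneg (W_nonneg _) hR0)
  refine h3.trans (le_of_eq ?_)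
  rw [integral_mul_const, W_one, one_mul]

end Pool.Agent.K7.H94.EW
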