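import Mathlib
import Pool.Agent.K7.H94.EW.Mid

set_option autoImplicit false

/-! Waring-Goldbach with real exponents: the two errors are small for almost all exponents. -/

namespace Pool.Agent.K7.H94.EW
open Finset MeasureTheory Filter

/-- a Borel-Cantelli argument -/
theorem bc_gen {Ω : Type*} [MeasurableSpace Ω] {μ : Measure Ω} [IsFiniteMeasure μ] (f : ℕ → Ω → ℝ)
    (hf0 : ∀ J c, 0 ≤ f J c) (hfi : ∀ J, Integrable (f J) μ) (N : ℕ → ℝ) (hN : ∀ J, 0 < N J) {C : ℝ}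
    (hE : ∀ J, 1 ≤ J → ∫ c, f J c ∂μ ≤ C * (1 / ((J : ℝ) + 1) ^ 2) * N J) :
    ∀ᵐ c ∂μ, ∀ᶠ J : ℕ in atTop, f J c < N J := by
  set D : ℕ → Set Ω := fun J => {c | N (J + 1) ≤ f (J + 1) c} with hD
  have h3 : ∀ J, μ (D J) ≤ ENNReal.ofReal (C * (1 / (((J + 1 : ℕ) : ℝ) + 1) ^ 2)) := by
    intro J
    have h4 := mul_meas_ge_le_integral_of_nonneg (μ := μ)
      (Eventually.of_forall fun c => hf0 (J + 1) c) (hfi (J + 1)) (N (J + 1))
    have h5 := h4.trans (hE (J + 1) (by omega))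
    have h6 : μ.real (D J) ≤ C * (1 / (((J + 1 : ℕ) : ℝ) + 1) ^ 2) := by
      have h7 : N (J + 1) * μ.real (D J) ≤ N (J + 1) * (C * (1 / (((J + 1 : ℕ) : ℝ) + 1) ^ 2)) := by
        rw [mul_comm (N (J + 1)) (C * _)]
        exact h5
      exact le_of_mul_le_mul_left h7 (hN (J + 1))
    rw [← ENNReal.ofReal_toReal (measure_ne_top μ (D J))]
    exact ENNReal.ofReal_le_ofReal h6
  have h4 : (∑' J, μ (D J)) ≠ ⊤ := by
    have h5 : Summable fun J : ℕ => C * (1 / (((J + 1 : ℕ) : ℝ) + 1) ^ 2) := by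
      apply Summable.mul_left
      have h6 : Summable fun J : ℕ => 1 / ((J + 2 : ℕ) : ℝ) ^ 2 :=
        (summable_nat_add_iff 2).2 (Real.summable_one_div_nat_pow.2 (by norm_num : 1 < 2))
      refine h6.congr fun J => ?_
      push_cast
      ring
    exact ne_top_of_le_ne_top h5.tsum_ofReal_ne_top (ENNReal.tsum_le_tsum h3)
  filter_upwards [ae_eventually_notMem h4] with c hc
  obtain ⟨n, hn⟩ := eventually_atTop.1 hc
  rw [eventually_atTop]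
  refine ⟨n + 1, fun J hJ => ?_⟩
  obtain ⟨m, rfl⟩ : ∃ m, J = m + 1 := ⟨J - 1, by omega⟩
  exact not_le.1 (hn m (by omega))

/-- the error of the small frequencies is small for almost all exponents -/
theorem ae_errL {s : ℕ} {a b : Fin s → ℝ} (H : Bx a b) {B : ℝ} (hB : 1 ≤ B) (hbB : ∀ i, b i ≤ B) (hs : 1 < sg b)
    (θ : ℝ) :
    ∀ᵐ c ∂(mu a b), ∀ᶠ J : ℕ in atTop, ErrL J (((3 : ℝ) ^ J) ^ (-θ)) c <
      (((3 : ℝ) ^ J) ^ (-θ) / (3 : ℝ) ^ J) / ((J : ℝ) + 1) := by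
  obtain ⟨C1, hC1⟩ := exists_nat_ge ((4 * (s : ℝ) + 3) / (sg b - 1))
  have hC1' : 4 * (s : ℝ) + 3 ≤ C1 * (sg b - 1) := by
    rwa [div_le_iff₀ (by linarith)] at hC1
  obtain ⟨C₀, hC₀, h⟩ := ErrL_mean (2 * C1 + 3) s hB
  have hI : 0 ≤ ∫ x : ℝ, (1 + |x|) ^ (-sg b) := integral_nonneg fun x => by
    show 0 ≤ _
    positivity
  refine bc_gen (fun J c => ErrL J (((3 : ℝ) ^ J) ^ (-θ)) c) (fun J c => ErrL_nonneg _ _ _) (fun J => ErrL_int a b _ _)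
    (fun J => (((3 : ℝ) ^ J) ^ (-θ) / (3 : ℝ) ^ J) / ((J : ℝ) + 1)) (fun J => by positivity)
    (C := 2 ^ sg b * (∫ x : ℝ, (1 + |x|) ^ (-sg b)) * (2 * C₀ + 2 * 16 ^ s)) ?_
  intro J hJ
  set T : ℝ := (3 : ℝ) ^ J with hTd
  have hT1 : 1 ≤ T := one_le_pow₀ (by norm_num)
  have hT0 : 0 < T := by linarith
  set y : ℝ := (J : ℝ) + 1 with hy
  have hy1 : 1 ≤ y := by have : (0 : ℝ) ≤ J := Nat.cast_nonneg _; linarith
  have hy0 : 0 < y := by linarith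
  have hη : 0 < T ^ (-θ) := Real.rpow_pos_of_pos hT0 _
  have hQ1 : 1 ≤ y ^ C1 := one_le_pow₀ hy1
  set Q : ℝ := y ^ C1 with hQ
  have hQ0 : 0 < Q := by linarith
  have h1 := h a b H hbB hs J hJ (T ^ (-θ)) Q hη hQ1
  refine h1.trans ?_
  have t1 : Q * (C₀ * (1 + Q) / y ^ (2 * C1 + 3)) ≤ 2 * C₀ * (1 / y ^ 3) := by
    have e1 : y ^ (2 * C1 + 3) = Q * Q * y ^ 3 := by
      rw [hQ, ← pow_add, ← pow_add]
      congr 1
      ring
    rw [e1]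
    have e2 : Q * (C₀ * (1 + Q) / (Q * Q * y ^ 3)) = C₀ * ((1 + Q) / Q) * (1 / y ^ 3) := by
      field_simp
    rw [e2]
    have e3 : (1 + Q) / Q ≤ 2 := by rw [div_le_iff₀ hQ0]; linarith
    have e4 : 0 < 1 / y ^ 3 := by positivity
    have e5 : C₀ * ((1 + Q) / Q) ≤ C₀ * 2 := mul_le_mul_of_nonneg_left e3 (by positivity)
    have e6 := mul_le_mul_of_nonneg_right e5 e4.le
    linarith
  have t2 : 2 * (16 * y ^ 4) ^ s * Q ^ (1 - sg b) ≤ 2 * 16 ^ s * (1 / y ^ 3) := by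
    have e0 : (16 * y ^ 4) ^ s = 16 ^ s * y ^ (4 * s) := by rw [mul_pow, ← pow_mul]
    have e1 : y ^ (4 * s) * Q ^ (1 - sg b) ≤ 1 / y ^ 3 := by
      have e2 : (1 : ℝ) / y ^ 3 = y ^ (-(3 : ℝ)) := by
        rw [Real.rpow_neg hy0.le, one_div]
        norm_cast
      rw [hQ, e2, ← Real.rpow_natCast y (4 * s), ← Real.rpow_natCast y C1, ← Real.rpow_mul hy0.le, ← Real.rpow_add hy0]
      apply Real.rpow_le_rpow_of_exponent_le hy1
      push_cast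
      linarith
    rw [e0]
    have e3 := mul_le_mul_of_nonneg_left e1 (by positivity : (0 : ℝ) ≤ 2 * 16 ^ s)
    linarith
  have hA : 0 ≤ 2 ^ sg b * (∫ x : ℝ, (1 + |x|) ^ (-sg b)) * (T ^ (-θ) / T) := by positivity
  have t3 := mul_le_mul_of_nonneg_left (add_le_add t1 t2) hA
  refine t3.trans (le_of_eq ?_)
  field_simp

/-- the mean square error of the large frequencies is small for almost all exponents -/
theorem ae_errH {s : ℕ} {a b : Fin s → ℝ} (H : Bx a b) (θ : ℝ) :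
    ∀ᵐ c ∂(mu a b), ∀ᶠ J : ℕ in atTop, ErrH J (((3 : ℝ) ^ J) ^ (-θ)) c <
      ((J : ℝ) + 1) ^ (8 * s + 2) * ((3 : ℝ) ^ J) ^ (-sg b) := by
  refine bc_gen (fun J c => ErrH J (((3 : ℝ) ^ J) ^ (-θ)) c) (fun J c => ErrH_nonneg _ _ _) (fun J => ErrH_int a b _ _)
    (fun J => ((J : ℝ) + 1) ^ (8 * s + 2) * ((3 : ℝ) ^ J) ^ (-sg b)) (fun J => by positivity)
    (C := 4 * (16 ^ s) ^ 2) ?_
  intro J hJ
  have h1 := ErrH_mean H hJ (h := ((3 : ℝ) ^ J) ^ (-θ)) (by positivity)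
  refine h1.trans (le_of_eq ?_)
  have hy0 : (0 : ℝ) < (J : ℝ) + 1 := by positivity
  set y : ℝ := (J : ℝ) + 1 with hy
  have e0 : ((16 * y ^ 4) ^ s) ^ 2 = (16 ^ s) ^ 2 * y ^ (8 * s) := by
    have e1 : ((y ^ 4) ^ s) ^ 2 = y ^ (8 * s) := by
      rw [← pow_mul, ← pow_mul]
      congr 1
      ring
    rw [mul_pow, mul_pow, e1]
  rw [e0, pow_add]
  field_simp

end Pool.Agent.K7.H94.EW
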