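import Mathlib
import Pool.Agent.K7.H94.EW.Bc
import Pool.Agent.K7.H74.WS.Cnt
import Pool.Agent.K7.H89.WE.D

set_option autoImplicit false

/-! Waring-Goldbach with real exponents: weighted counting with windows. -/

namespace Pool.Agent.K7.H94.EW
open Finset MeasureTheory Complex
open Pool.Agent.K7.H74.WS (e norm_e e_cont e_add e_neg e_sub e_zero W W_nonneg W_le W_int W_cont W_one w w_eq w_cont w_nonneg
  w_le e_sum We_int tz tz_window tz_le tz_nonneg tz_cont tz_one tz_zero_left tz_zero_right)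
open Pool.Agent.K7.H89.WE (A1 Vs)

/-- the box of arguments -/
noncomputable def box {s : ℕ} (J : ℕ) (c : Fin s → ℝ) : Finset (Fin s → ℕ) := Fintype.piFinset fun i => Ico 1 (3 ^ (mm J (c i)))

/-- the sum of the powers -/
noncomputable def sp {s : ℕ} (c : Fin s → ℝ) (x : Fin s → ℕ) : ℝ := ∑ i, (x i : ℝ) ^ (c i)

/-- the weight -/
noncomputable def lp {s : ℕ} (x : Fin s → ℕ) : ℝ := ∏ i, lw (x i)

lemma lp_nonneg {s : ℕ} (x : Fin s → ℕ) : 0 ≤ lp x := prod_nonneg fun i _ => lw_nonneg (x i)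

/-- the weighted number of solutions in a window -/
noncomputable def RF {s : ℕ} (J : ℕ) (η t : ℝ) (c : Fin s → ℝ) : ℝ := ∑ x ∈ box J c, lp x * w ((sp c x - t) / η)

/-- Lebesgue measure on the large box -/
noncomputable def bm {s : ℕ} (J : ℕ) (c : Fin s → ℝ) : Measure (Fin s → ℝ) :=
  Measure.pi fun i => volume.restrict (Set.Ioc (0 : ℝ) ((3 : ℝ) ^ (mm J (c i))))

instance bmFin {s : ℕ} (J : ℕ) (c : Fin s → ℝ) : IsFiniteMeasure (bm J c) := by unfold bm; infer_instance

/-- the sum of the powers, real arguments -/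
noncomputable def su {s : ℕ} (c : Fin s → ℝ) (u : Fin s → ℝ) : ℝ := ∑ i, (u i) ^ (c i)

lemma su_cont {s : ℕ} {c : Fin s → ℝ} (hc : ∀ i, 0 ≤ c i) : Continuous (su c) := by
  unfold su
  exact continuous_finsetSum _ fun i _ => (Real.continuous_rpow_const (hc i)).comp (continuous_apply i)

/-- the expected number -/
noncomputable def VF {s : ℕ} (J : ℕ) (η t : ℝ) (c : Fin s → ℝ) : ℝ := ∫ u, w ((su c u - t) / η) ∂(bm J c)

/-- the product of the lengths -/
noncomputable def PL {s : ℕ} (J : ℕ) (c : Fin s → ℝ) : ℝ := ∏ i, (3 : ℝ) ^ (mm J (c i))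

lemma PL_pos {s : ℕ} (J : ℕ) (c : Fin s → ℝ) : 0 < PL J c := prod_pos fun i _ => by positivity

lemma e_split {s : ℕ} (η t β : ℝ) (v : Fin s → ℝ) :
    e (β * (((∑ i, v i) - t) / η)) = (∏ i, e (β / η * v i)) * e (-(β / η * t)) := by
  rw [← e_sum, ← e_add, ← mul_sum]
  congr 1
  ring

lemma RF_eq {s : ℕ} (J : ℕ) (η t : ℝ) (c : Fin s → ℝ) :
    (RF J η t c : ℂ) = ∫ β : ℝ, (W β : ℂ) * ((∏ i, S (mm J (c i)) (β / η) (c i)) * e (-(β / η * t))) := by
  unfold RF
  push_cast
  have h1 : ∀ x ∈ box J c, (lp x : ℂ) * (w ((sp c x - t) / η) : ℂ) = ∫ β : ℝ, (lp x : ℂ) * ((W β : ℂ) * e (β * ((sp c x - t) / η))) :=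
    fun x _ => by rw [integral_const_mul, ← w_eq]
  rw [sum_congr rfl h1, ← integral_finsetSum _ fun x _ => (We_int _).const_mul _]
  refine integral_congr_ae (Filter.Eventually.of_forall fun β => ?_)
  simp only
  have h2 : ∀ x ∈ box J c, (lp x : ℂ) * ((W β : ℂ) * e (β * ((sp c x - t) / η))) =
      (W β : ℂ) * ((∏ i, ((lw (x i) : ℂ) * e (β / η * (x i : ℝ) ^ (c i)))) * e (-(β / η * t))) := by
    intro x _
    unfold sp
    rw [e_split η t β (fun i => (x i : ℝ) ^ (c i)), prod_mul_distrib]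
    unfold lp
    push_cast
    ring
  rw [sum_congr rfl h2, ← mul_sum, ← sum_mul]
  congr 2
  unfold S box
  rw [prod_univ_sum]

lemma VF_eq {s : ℕ} (J : ℕ) (η t : ℝ) {c : Fin s → ℝ} (hc : ∀ i, 0 ≤ c i) :
    (VF J η t c : ℂ) = ∫ β : ℝ, (W β : ℂ) * ((∏ i, M (mm J (c i)) (β / η) (c i)) * e (-(β / η * t))) := by
  unfold VF
  rw [← integral_complex_ofReal]
  have h1 : ∀ u : Fin s → ℝ, (w ((su c u - t) / η) : ℂ) = ∫ β : ℝ, (W β : ℂ) * e (β * ((su c u - t) / η)) :=
    fun u => w_eq _
  simp_rw [h1]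
  have hint : Integrable (fun p : (Fin s → ℝ) × ℝ => (W p.2 : ℂ) * e (p.2 * ((su c p.1 - t) / η))) ((bm J c).prod volume) := by
    have h2 : Integrable (fun p : (Fin s → ℝ) × ℝ => (1 : ℝ) * W p.2) ((bm J c).prod volume) :=
      (integrable_const (1 : ℝ)).mul_prod W_int
    refine h2.mono' ?_ (Filter.Eventually.of_forall fun p => ?_)
    · have hW : Continuous fun p : (Fin s → ℝ) × ℝ => (W p.2 : ℂ) := continuous_ofReal.comp (W_cont.comp continuous_snd)
      have h4 : Continuous fun p : (Fin s → ℝ) × ℝ => e (p.2 * ((su c p.1 - t) / η)) :=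
        e_cont.comp (continuous_snd.mul ((((su_cont hc).comp continuous_fst).sub continuous_const).div_const η))
      exact (hW.mul h4).aestronglyMeasurable
    · rw [norm_mul, norm_e, mul_one, Complex.norm_of_nonneg (W_nonneg _), one_mul]
  rw [integral_integral_swap (f := fun (u : Fin s → ℝ) (β : ℝ) => (W β : ℂ) * e (β * ((su c u - t) / η))) hint]
  refine integral_congr_ae (Filter.Eventually.of_forall fun β => ?_)
  simp only
  rw [integral_const_mul]
  congr 1
  have h2 : ∀ u : Fin s → ℝ, e (β * ((su c u - t) / η)) = (∏ i, e (β / η * (u i) ^ (c i))) * e (-(β / η * t)) :=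
    fun u => e_split η t β (fun i => (u i) ^ (c i))
  simp_rw [h2]
  rw [integral_mul_const]
  congr 1
  unfold bm
  have h3 := integral_fintype_prod_eq_prod (𝕜 := ℂ) (fun (i : Fin s) (x : ℝ) => e (β / η * x ^ (c i)))
    (μ := fun i => volume.restrict (Set.Ioc (0 : ℝ) ((3 : ℝ) ^ (mm J (c i)))))
  refine h3.trans ?_
  apply prod_congr rfl
  intro i _
  unfold M
  rw [intervalIntegral.integral_of_le (by positivity)]

lemma S_norm {J : ℕ} (α c : ℝ) : S (mm J c) α c = (3 : ℂ) ^ (mm J c) * sf J α c := by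
  unfold sf
  rw [mul_div_cancel₀]
  exact pow_ne_zero _ (by norm_num)

lemma M_norm {J : ℕ} (α c : ℝ) : M (mm J c) α c = (3 : ℂ) ^ (mm J c) * gf J α c := by
  unfold gf
  rw [mul_div_cancel₀]
  exact pow_ne_zero _ (by norm_num)

lemma SM_diff {s : ℕ} (J : ℕ) (α : ℝ) (c : Fin s → ℝ) :
    ‖∏ i, S (mm J (c i)) α (c i) - ∏ i, M (mm J (c i)) α (c i)‖ = PL J c * dl J α c := by
  simp_rw [S_norm, M_norm]
  rw [prod_mul_distrib, prod_mul_distrib, ← mul_sub, norm_mul, norm_prod]
  unfold PL dl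
  congr 1
  exact prod_congr rfl fun i _ => norm3 _

lemma Sp_le {s : ℕ} (J : ℕ) (α : ℝ) (c : Fin s → ℝ) : ‖∏ i, S (mm J (c i)) α (c i)‖ ≤ 2 ^ s * PL J c := by
  rw [norm_prod]
  refine (prod_le_prod (fun i _ => norm_nonneg _) fun i _ => S_le _ _ _).trans (le_of_eq ?_)
  rw [prod_mul_distrib, prod_const, card_univ, Fintype.card_fin]
  rfl

lemma Mp_le {s : ℕ} (J : ℕ) (α : ℝ) (c : Fin s → ℝ) : ‖∏ i, M (mm J (c i)) α (c i)‖ ≤ PL J c := by
  rw [norm_prod]
  exact prod_le_prod (fun i _ => norm_nonneg _) fun i _ => M_le _ _ _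

lemma prod_c_meas {s : ℕ} (F : Fin s → ℝ → ℝ → ℂ) (hF : ∀ i, Continuous fun p : ℝ × ℝ => F i p.1 p.2) (η : ℝ) (c : Fin s → ℝ) :
    Continuous fun β : ℝ => ∏ i, F i (β / η) (c i) :=
  continuous_finsetProd _ fun i _ => (hF i).comp ((continuous_id.div_const η).prodMk continuous_const)

theorem RF_VF {s : ℕ} (J : ℕ) (η t : ℝ) {c : Fin s → ℝ} (hc : ∀ i, 0 ≤ c i) :
    |RF J η t c - VF J η t c| ≤ PL J c * Err J η c := by
  have h2 : Continuous fun β : ℝ => e (-(β / η * t)) := e_cont.comp (by fun_prop)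
  have h0 : Continuous fun β : ℝ => (W β : ℂ) := continuous_ofReal.comp W_cont
  have h1 : ((RF J η t c - VF J η t c : ℝ) : ℂ) =
      ∫ β : ℝ, (W β : ℂ) * (((∏ i, S (mm J (c i)) (β / η) (c i)) - ∏ i, M (mm J (c i)) (β / η) (c i)) * e (-(β / η * t))) := by
    push_cast
    rw [RF_eq, VF_eq J η t hc]
    rw [← integral_sub]
    · refine integral_congr_ae (Filter.Eventually.of_forall fun β => ?_)
      simp only
      ring
    · refine (W_int.const_mul (2 ^ s * PL J c)).mono' ?_ (Filter.Eventually.of_forall fun β => ?_)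
      · have h3 := prod_c_meas (fun i => S (mm J (c i))) (fun i => S_cont _) η c
        exact (h0.mul (h3.mul h2)).aestronglyMeasurable
      · rw [norm_mul, norm_mul, norm_e, mul_one, Complex.norm_of_nonneg (W_nonneg _), mul_comm]
        exact mul_le_mul_of_nonneg_right (Sp_le _ _ _) (W_nonneg _)
    · refine (W_int.const_mul (PL J c)).mono' ?_ (Filter.Eventually.of_forall fun β => ?_)
      · have h3 := prod_c_meas (fun i => M (mm J (c i))) (fun i => M_cont _) η c
        exact (h0.mul (h3.mul h2)).aestronglyMeasurable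
      · rw [norm_mul, norm_mul, norm_e, mul_one, Complex.norm_of_nonneg (W_nonneg _), mul_comm]
        exact mul_le_mul_of_nonneg_right (Mp_le _ _ _) (W_nonneg _)
  have h2 : |RF J η t c - VF J η t c| = ‖((RF J η t c - VF J η t c : ℝ) : ℂ)‖ := by
    rw [Complex.norm_real, Real.norm_eq_abs]
  rw [h2, h1]
  refine (norm_integral_le_integral_norm _).trans (le_of_eq ?_)
  unfold Err
  rw [← integral_const_mul]
  refine integral_congr_ae (Filter.Eventually.of_forall fun β => ?_)
  simp only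
  rw [norm_mul, norm_mul, norm_e, mul_one, Complex.norm_of_nonneg (W_nonneg _), SM_diff]
  ring

theorem windows {s : ℕ} (J : ℕ) {η : ℝ} (hη : 0 < η) (t : ℝ) (N : ℕ) {c : Fin s → ℝ} (hc : ∀ i, 0 ≤ c i) :
    |∑ x ∈ box J c, lp x * tz N ((sp c x - t) / η) - ∫ u, tz N ((su c u - t) / η) ∂(bm J c)| ≤ N * (PL J c * Err J η c) := by
  have h1 : ∑ x ∈ box J c, lp x * tz N ((sp c x - t) / η) = ∑ i ∈ range N, RF J η (t + i * η) c := by
    unfold RF
    rw [sum_comm]
    refine sum_congr rfl fun x _ => ?_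
    rw [← mul_sum, tz_window N hη]
  have h2 : ∫ u, tz N ((su c u - t) / η) ∂(bm J c) = ∑ i ∈ range N, VF J η (t + i * η) c := by
    unfold VF
    rw [← integral_finsetSum]
    · refine integral_congr_ae (Filter.Eventually.of_forall fun u => ?_)
      exact (tz_window N hη _ _).symm
    · intro i _
      refine Integrable.of_bound (C := 1) ?_ (Filter.Eventually.of_forall fun u => ?_)
      · exact (w_cont.comp (((su_cont hc).sub continuous_const).div_const η)).aestronglyMeasurable
      · rw [Real.norm_of_nonneg (w_nonneg _)]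
        exact w_le _
  rw [h1, h2, ← sum_sub_distrib]
  refine (abs_sum_le_sum_abs _ _).trans ?_
  refine (sum_le_sum (s := range N) fun (i : ℕ) _ => RF_VF J η (t + (i : ℝ) * η) hc).trans (le_of_eq ?_)
  rw [sum_const, card_range, nsmul_eq_mul]

/-! ### the volume -/

lemma bm_eq {s : ℕ} (J : ℕ) (c : Fin s → ℝ) :
    bm J c = volume.restrict (Set.univ.pi fun i => Set.Ioc (0 : ℝ) ((3 : ℝ) ^ (mm J (c i)))) := by
  unfold bm
  rw [volume_pi, Measure.restrict_pi_pi]

/-- a large argument has a large power -/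
lemma big {c u : ℝ} {J : ℕ} (hc : 0 < c) (hu : (3 : ℝ) ^ (mm J c) ≤ u) : (3 : ℝ) ^ J ≤ u ^ c := by
  have h1 := pow3_ge hc (mm_ge (J := J) hc)
  have h2 : (0 : ℝ) ≤ ((3 : ℝ) ^ J) ^ (1 / c) := by positivity
  calc (3 : ℝ) ^ J = (((3 : ℝ) ^ J) ^ (1 / c)) ^ c := by
        rw [← Real.rpow_mul (by positivity), one_div_mul_cancel hc.ne', Real.rpow_one]
    _ ≤ u ^ c := Real.rpow_le_rpow h2 (h1.trans hu) hc.le

lemma GF_eq {s : ℕ} {c : Fin s → ℝ} (hc0 : ∀ i, 0 < c i) {J : ℕ} {t : ℝ} (ht : 0 < t) (htT : t ≤ (3 : ℝ) ^ J) :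
    (bm J c).real {u | su c u < t} = Vs c * t ^ sg c := by
  set r : Fin s → ℝ := fun i => t ^ (1 / c i) with hr
  have hr0 : ∀ i, 0 < r i := fun i => Real.rpow_pos_of_pos ht _
  have hrc : ∀ i, (r i) ^ (c i) = t := fun i => by
    rw [hr]
    simp only
    rw [← Real.rpow_mul ht.le, one_div_mul_cancel (hc0 i).ne', Real.rpow_one]
  have hm : MeasurableSet {u : Fin s → ℝ | su c u < t} :=
    measurableSet_lt (su_cont fun i => (hc0 i).le).measurable measurable_const
  set f : (Fin s → ℝ) →ₗ[ℝ] (Fin s → ℝ) := Matrix.toLin' (Matrix.diagonal r) with hf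
  have hfa : ∀ v i, f v i = r i * v i := fun v i => by
    rw [hf, Matrix.toLin'_apply, Matrix.mulVec_diagonal]
  have h1 : {u : Fin s → ℝ | su c u < t} ∩ (Set.univ.pi fun i => Set.Ioc (0 : ℝ) ((3 : ℝ) ^ (mm J (c i)))) =
      f '' A1 c := by
    ext u
    simp only [Set.mem_inter_iff, Set.mem_ofPred_eq, Set.mem_pi, Set.mem_univ, true_implies, Set.mem_Ioc, Set.mem_image]
    constructor
    · rintro ⟨h2, h3⟩
      refine ⟨fun i => u i / r i, ⟨fun i => div_pos (h3 i).1 (hr0 i), ?_⟩, ?_⟩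
      · have e1 : ∀ i, (u i / r i) ^ (c i) = (u i) ^ (c i) / t := fun i => by
          rw [Real.div_rpow (h3 i).1.le (hr0 i).le, hrc]
        simp_rw [e1]
        rw [← sum_div, div_lt_one ht]
        exact h2
      · funext i
        rw [hfa]
        have := (hr0 i).ne'
        field_simp
    · rintro ⟨v, ⟨h2, h3⟩, rfl⟩
      have h4 : su c (f v) = t * ∑ i, (v i) ^ (c i) := by
        unfold su
        rw [mul_sum]
        apply sum_congr rfl
        intro i _
        rw [hfa, Real.mul_rpow (hr0 i).le (h2 i).le, hrc]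
      have h5 : su c (f v) < t := by
        rw [h4]
        calc t * ∑ i, (v i) ^ (c i) < t * 1 := mul_lt_mul_of_pos_left h3 ht
          _ = t := mul_one t
      have h6 : ∀ i, 0 < f v i := fun i => by rw [hfa]; exact mul_pos (hr0 i) (h2 i)
      refine ⟨h5, fun i => ⟨h6 i, ?_⟩⟩
      by_contra h7
      push Not at h7
      have h8 := big (hc0 i) h7.le
      have h9 : (f v i) ^ (c i) ≤ su c (f v) :=
        single_le_sum (f := fun i => (f v i) ^ (c i)) (fun j _ => Real.rpow_nonneg (h6 j).le _) (mem_univ i)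
      linarith
  have hdet : LinearMap.det f = t ^ sg c := by
    rw [hf, LinearMap.det_toLin', Matrix.det_diagonal, sg, Real.rpow_sum_of_pos ht]
  rw [measureReal_def, bm_eq, Measure.restrict_apply hm, h1, Measure.addHaar_image_linearMap, hdet,
    ENNReal.toReal_mul, ENNReal.toReal_ofReal (abs_nonneg _), abs_of_pos (Real.rpow_pos_of_pos ht _), mul_comm]
  rfl

open Classical in
theorem count_lower {s : ℕ} {c : Fin s → ℝ} (hc : ∀ i, 0 < c i) {J : ℕ} {η t : ℝ} (hη : 0 < η) (ht : 0 < t)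
    {N : ℕ} (hN : 1 ≤ N) (hX : t + (N - 1) * η ≤ (3 : ℝ) ^ J) :
    Vs c * ((t + (N - 1) * η) ^ sg c - t ^ sg c) - N * (PL J c * Err J η c) ≤
      ∑ x ∈ (box J c).filter (fun x => t - η < sp c x ∧ sp c x < t + N * η), lp x := by
  have hc' : ∀ i, 0 ≤ c i := fun i => (hc i).le
  have hN1 : (1 : ℝ) ≤ N := by exact_mod_cast hN
  have hb : t ≤ t + (N - 1) * η := by nlinarith
  have h1 := windows J hη t N hc'
  have h2 : ∑ x ∈ box J c, lp x * tz N ((sp c x - t) / η) ≤
      ∑ x ∈ (box J c).filter (fun x => t - η < sp c x ∧ sp c x < t + N * η), lp x := by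
    rw [sum_filter]
    apply sum_le_sum
    intro x _
    have hlp := lp_nonneg x
    split_ifs with h
    · have := mul_le_mul_of_nonneg_left (tz_le N ((sp c x - t) / η)) hlp
      linarith
    · apply le_of_eq
      by_cases h3 : t - η < sp c x
      · have h4 : t + N * η ≤ sp c x := by
          by_contra h5
          push Not at h5
          exact h ⟨h3, h5⟩
        rw [tz_zero_right, mul_zero]
        rw [le_div_iff₀ hη]; linarith
      · push Not at h3
        rw [tz_zero_left, mul_zero]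
        rw [div_le_iff₀ hη]; linarith
  set A : Set (Fin s → ℝ) := {u | su c u < t + (N - 1) * η} with hA
  set B : Set (Fin s → ℝ) := {u | su c u < t} with hB
  have hAm : MeasurableSet A := measurableSet_lt (su_cont hc').measurable measurable_const
  have hBm : MeasurableSet B := measurableSet_lt (su_cont hc').measurable measurable_const
  have hBA : B ⊆ A := fun u hu => lt_of_lt_of_le hu hb
  have hi : Integrable (fun u : Fin s → ℝ => tz N ((su c u - t) / η)) (bm J c) := by
    refine Integrable.of_bound (C := 1) ?_ (Filter.Eventually.of_forall fun u => ?_)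
    · exact ((tz_cont N).comp (((su_cont hc').sub continuous_const).div_const η)).aestronglyMeasurable
    · rw [Real.norm_of_nonneg (tz_nonneg _ _)]
      exact tz_le _ _
  have h3 : (bm J c).real (A \ B) ≤ ∫ u, tz N ((su c u - t) / η) ∂(bm J c) := by
    rw [← integral_indicator_one (hAm.diff hBm)]
    apply integral_mono ((integrable_const (1 : ℝ)).indicator (hAm.diff hBm)) hi
    intro u
    by_cases hu : u ∈ A \ B
    · rw [Set.indicator_of_mem hu]
      have h4 : su c u < t + (N - 1) * η := hu.1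
      have h5 : t ≤ su c u := not_lt.1 hu.2
      simp only
      rw [tz_one]
      · apply div_nonneg _ hη.le
        linarith
      · rw [div_le_iff₀ hη]
        linarith
    · rw [Set.indicator_of_notMem hu]
      exact tz_nonneg _ _
  have h4 : (bm J c).real (A \ B) = Vs c * ((t + (N - 1) * η) ^ sg c - t ^ sg c) := by
    rw [measureReal_sdiff hBA hBm, GF_eq hc (by linarith) hX, GF_eq hc ht (hb.trans hX)]
    ring
  have h5 := abs_le.1 h1
  rw [← h4]
  linarith [h5.1]

open Classical in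
theorem count_upper {s : ℕ} {c : Fin s → ℝ} (hc : ∀ i, 0 < c i) {J : ℕ} {η t : ℝ} (hη : 0 < η)
    (ht : 0 < t - η) {N : ℕ} (hX : t + N * η ≤ (3 : ℝ) ^ J) :
    ∑ x ∈ (box J c).filter (fun x => t ≤ sp c x ∧ sp c x ≤ t + (N - 1) * η), lp x ≤
    Vs c * ((t + N * η) ^ sg c - (t - η) ^ sg c) + N * (PL J c * Err J η c) := by
  have hc' : ∀ i, 0 ≤ c i := fun i => (hc i).le
  have hN0 : (0 : ℝ) ≤ N := Nat.cast_nonneg _
  have hb : t - η ≤ t + N * η := by nlinarith
  have h1 := windows J hη t N hc'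
  have h2 : ∑ x ∈ (box J c).filter (fun x => t ≤ sp c x ∧ sp c x ≤ t + (N - 1) * η), lp x ≤
      ∑ x ∈ box J c, lp x * tz N ((sp c x - t) / η) := by
    rw [sum_filter]
    apply sum_le_sum
    intro x _
    have hlp := lp_nonneg x
    split_ifs with h
    · rw [tz_one, mul_one]
      · apply div_nonneg _ hη.le
        linarith [h.1]
      · rw [div_le_iff₀ hη]
        linarith [h.2]
    · exact mul_nonneg hlp (tz_nonneg _ _)
  set A : Set (Fin s → ℝ) := {u | su c u < t + N * η} with hA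
  set B : Set (Fin s → ℝ) := {u | su c u < t - η} with hB
  have hAm : MeasurableSet A := measurableSet_lt (su_cont hc').measurable measurable_const
  have hBm : MeasurableSet B := measurableSet_lt (su_cont hc').measurable measurable_const
  have hBA : B ⊆ A := fun u hu => lt_of_lt_of_le hu hb
  have hi : Integrable (fun u : Fin s → ℝ => tz N ((su c u - t) / η)) (bm J c) := by
    refine Integrable.of_bound (C := 1) ?_ (Filter.Eventually.of_forall fun u => ?_)
    · exact ((tz_cont N).comp (((su_cont hc').sub continuous_const).div_const η)).aestronglyMeasurable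
    · rw [Real.norm_of_nonneg (tz_nonneg _ _)]
      exact tz_le _ _
  have h3 : ∫ u, tz N ((su c u - t) / η) ∂(bm J c) ≤ (bm J c).real (A \ B) := by
    rw [← integral_indicator_one (hAm.diff hBm)]
    apply integral_mono hi ((integrable_const (1 : ℝ)).indicator (hAm.diff hBm))
    intro u
    by_cases hu : u ∈ A \ B
    · rw [Set.indicator_of_mem hu]
      exact tz_le _ _
    · rw [Set.indicator_of_notMem hu]
      apply le_of_eq
      by_cases h3 : u ∈ A
      · have h6 : u ∈ B := by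
          by_contra h7
          exact hu ⟨h3, h7⟩
        have h7 : su c u < t - η := h6
        exact tz_zero_left (by rw [div_le_iff₀ hη]; linarith)
      · have h7 : t + N * η ≤ su c u := not_lt.1 h3
        exact tz_zero_right (by rw [le_div_iff₀ hη]; linarith)
  have h4 : (bm J c).real (A \ B) = Vs c * ((t + N * η) ^ sg c - (t - η) ^ sg c) := by
    rw [measureReal_sdiff hBA hBm, GF_eq hc (by linarith) hX, GF_eq hc ht (hb.trans hX)]
    ring
  have h5 := abs_le.1 h1
  rw [← h4]
  linarith [h5.2]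

end Pool.Agent.K7.H94.EW
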