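import Mathlib
import Pool.Agent.K7.H74.WS.Cnt

set_option autoImplicit false

/-! An inequality of Plancherel type. -/

namespace Pool.Agent.K7.H94.EW
open Finset MeasureTheory Complex
open Pool.Agent.K7.H74.WS (e norm_e e_cont e_add e_neg e_sub e_zero W W_nonneg W_le W_int W_cont W_one w w_eq w_cont w_nonneg
  w_le e_sum We_int)

lemma conj_e (t : ℝ) : (starRingEnd ℂ) (e t) = e (-t) := by
  have h1 : e t * e (-t) = 1 := by rw [← e_add, add_neg_cancel, e_zero]
  have h2 : e t * (starRingEnd ℂ) (e t) = 1 := by rw [Complex.mul_conj', norm_e]; norm_num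
  have h3 : e t ≠ 0 := by
    intro h
    rw [h, zero_mul] at h1
    exact zero_ne_one h1
  exact mul_left_cancel₀ h3 (h2.trans h1.symm)

/-- the kernel -/
lemma kern {δ : ℝ} (hδ : 0 < δ) (x : ℝ) :
    ∫ y : ℝ, (W (δ * y) : ℂ) * e (x * y) = ((δ⁻¹ * w (x / δ) : ℝ) : ℂ) := by
  have h1 := Measure.integral_comp_mul_left (fun β : ℝ => (W β : ℂ) * e (β * (x / δ))) δ
  have h2 : ∀ y : ℝ, (W (δ * y) : ℂ) * e (δ * y * (x / δ)) = (W (δ * y) : ℂ) * e (x * y) := by
    intro y
    congr 2
    field_simp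
  simp_rw [h2] at h1
  rw [h1, ← w_eq, abs_of_pos (by positivity)]
  push_cast
  rw [Complex.real_smul]
  push_cast
  ring

lemma kern_int {δ : ℝ} (hδ : 0 < δ) : Integrable (fun x : ℝ => δ⁻¹ * w (x / δ)) ∧ ∫ x : ℝ, δ⁻¹ * w (x / δ) = 1 := by
  have hw : Integrable w := by
    have := Pool.Agent.K7.H74.WS.w_int.norm
    refine this.congr (Filter.Eventually.of_forall fun y => ?_)
    simp only
    rw [Complex.norm_real, Real.norm_of_nonneg (w_nonneg y)]
  have hw1 : ∫ y : ℝ, w y = 1 := by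
    have h1 := Pool.Agent.K7.H74.WS.fourier_w 0
    rw [Real.fourier_eq'] at h1
    simp only [inner_zero_right, mul_zero, Complex.ofReal_zero, zero_mul, Complex.exp_zero, one_smul] at h1
    rw [integral_complex_ofReal] at h1
    have h2 : W 0 = 1 := by
      unfold W
      rw [mul_zero, Real.sinc_zero]
      norm_num
    rw [h2] at h1
    exact_mod_cast h1
  refine ⟨(hw.comp_div hδ.ne').const_mul _, ?_⟩
  rw [integral_const_mul, Measure.integral_comp_div w δ, hw1, abs_of_pos hδ, smul_eq_mul, mul_one, inv_mul_cancel₀ hδ.ne']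

/-- the Fourier transform -/
noncomputable def FT (G : ℝ → ℂ) (y : ℝ) : ℂ := ∫ β : ℝ, G β * e (-(β * y))

lemma FT_int {G : ℝ → ℂ} (hG : Integrable G) (y : ℝ) : Integrable fun β : ℝ => G β * e (-(β * y)) := by
  refine hG.norm.mono' ?_ (Filter.Eventually.of_forall fun β => ?_)
  · have h2 : Continuous fun β : ℝ => e (-(β * y)) := e_cont.comp (by fun_prop)
    exact hG.aestronglyMeasurable.mul h2.aestronglyMeasurable
  · rw [norm_mul, norm_e, mul_one]

lemma FT_cont {G : ℝ → ℂ} (hG : Integrable G) : Continuous (FT G) := by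
  unfold FT
  refine continuous_of_dominated (bound := fun β => ‖G β‖) ?_ ?_ hG.norm ?_
  · intro y
    exact (FT_int hG y).aestronglyMeasurable
  · intro y
    refine Filter.Eventually.of_forall fun β => ?_
    rw [norm_mul, norm_e, mul_one]
  · refine Filter.Eventually.of_forall fun β => ?_
    exact continuous_const.mul (e_cont.comp (by fun_prop))

lemma FT_le {G : ℝ → ℂ} (y : ℝ) : ‖FT G y‖ ≤ ∫ β, ‖G β‖ := by
  unfold FT
  refine (norm_integral_le_integral_norm _).trans (le_of_eq ?_)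
  refine integral_congr_ae (Filter.Eventually.of_forall fun β => ?_)
  simp only
  rw [norm_mul, norm_e, mul_one]

lemma Wd_int {δ : ℝ} (hδ : 0 < δ) : Integrable fun y : ℝ => W (δ * y) := W_int.comp_mul_left' hδ.ne'

lemma FTW_int {G : ℝ → ℂ} (hG : Integrable G) {δ : ℝ} (hδ : 0 < δ) : Integrable fun y : ℝ => W (δ * y) * ‖FT G y‖ ^ 2 := by
  refine ((Wd_int hδ).mul_const ((∫ β, ‖G β‖) ^ 2)).mono' ?_ (Filter.Eventually.of_forall fun y => ?_)
  · exact ((W_cont.comp (continuous_const.mul continuous_id)).mul ((FT_cont hG).norm.pow 2)).aestronglyMeasurable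
  · rw [Real.norm_of_nonneg (mul_nonneg (W_nonneg _) (by positivity))]
    apply mul_le_mul_of_nonneg_left _ (W_nonneg _)
    exact pow_le_pow_left₀ (norm_nonneg _) (FT_le y) 2

/-- **an inequality of Plancherel type** -/
theorem planch {G : ℝ → ℂ} (hG : Integrable G) {M : ℝ} (hM : ∀ β, ‖G β‖ ≤ M) {δ : ℝ} (hδ : 0 < δ) :
    ∫ y : ℝ, W (δ * y) * ‖FT G y‖ ^ 2 ≤ ∫ β : ℝ, ‖G β‖ ^ 2 := by
  have hM0 : 0 ≤ M := (norm_nonneg _).trans (hM 0)
  have hG2 : Integrable fun β : ℝ => ‖G β‖ ^ 2 := by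
    refine (hG.norm.const_mul M).mono' (hG.norm.aestronglyMeasurable.pow 2) (Filter.Eventually.of_forall fun β => ?_)
    rw [Real.norm_of_nonneg (by positivity), sq]
    exact mul_le_mul_of_nonneg_right (hM β) (norm_nonneg _)
  -- the shear
  have hsh := measurePreserving_prod_add (volume : Measure ℝ) (volume : Measure ℝ)
  have hGG : Integrable (fun p : ℝ × ℝ => G p.1 * (starRingEnd ℂ) (G (p.1 + p.2))) (volume.prod volume) := by
    have h1 : Integrable (fun p : ℝ × ℝ => G p.1 * (starRingEnd ℂ) (G p.2)) (volume.prod volume) := by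
      have hGc : Integrable fun β : ℝ => (starRingEnd ℂ) (G β) := by
        refine hG.norm.mono' (Complex.continuous_conj.comp_aestronglyMeasurable hG.aestronglyMeasurable)
          (Filter.Eventually.of_forall fun β => ?_)
        rw [RCLike.norm_conj]
      exact hG.mul_prod hGc
    exact hsh.integrable_comp_of_integrable h1
  set K : ℝ → ℝ := fun x => δ⁻¹ * w (x / δ) with hK
  obtain ⟨hKi, hK1⟩ := kern_int hδ
  have hK0 : ∀ x, 0 ≤ K x := fun x => mul_nonneg (by positivity) (w_nonneg _)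
  -- the square
  have hsq : ∀ y : ℝ, ((‖FT G y‖ ^ 2 : ℝ) : ℂ) =
      ∫ p : ℝ × ℝ, (G p.1 * (starRingEnd ℂ) (G (p.1 + p.2))) * e (p.2 * y) ∂(volume.prod volume) := by
    intro y
    have hi : Integrable (fun p : ℝ × ℝ => (G p.1 * (starRingEnd ℂ) (G (p.1 + p.2))) * e (p.2 * y)) (volume.prod volume) := by
      refine hGG.norm.mono' ?_ (Filter.Eventually.of_forall fun p => ?_)
      · have h2 : Continuous fun p : ℝ × ℝ => e (p.2 * y) := e_cont.comp (by fun_prop)
        exact hGG.aestronglyMeasurable.mul h2.aestronglyMeasurable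
      · rw [norm_mul, norm_e, mul_one]
    rw [integral_prod _ hi]
    push_cast
    rw [← Complex.mul_conj']
    have h1 : (starRingEnd ℂ) (FT G y) = ∫ β : ℝ, (starRingEnd ℂ) (G β) * e (β * y) := by
      unfold FT
      rw [← integral_conj]
      refine integral_congr_ae (Filter.Eventually.of_forall fun β => ?_)
      simp only
      rw [map_mul, conj_e, neg_neg]
    unfold FT
    rw [← integral_mul_const]
    refine integral_congr_ae (Filter.Eventually.of_forall fun β => ?_)
    simp only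
    have h2 : (starRingEnd ℂ) (∫ β : ℝ, G β * e (-(β * y))) = ∫ x : ℝ, (starRingEnd ℂ) (G (β + x)) * e ((β + x) * y) := by
      have h3 := h1
      unfold FT at h3
      rw [h3]
      exact (integral_add_left_eq_self (fun b : ℝ => (starRingEnd ℂ) (G b) * e (b * y)) β).symm
    rw [h2, ← integral_const_mul]
    refine integral_congr_ae (Filter.Eventually.of_forall fun x => ?_)
    simp only
    have h4 : e ((β + x) * y) = e (β * y) * e (x * y) := by rw [← e_add]; congr 1; ring
    have h5 : e (-(β * y)) * e (β * y) = 1 := by rw [← e_add, neg_add_cancel, e_zero]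
    rw [h4]
    calc G β * e (-(β * y)) * ((starRingEnd ℂ) (G (β + x)) * (e (β * y) * e (x * y))) =
        (e (-(β * y)) * e (β * y)) * (G β * (starRingEnd ℂ) (G (β + x)) * e (x * y)) := by ring
      _ = _ := by rw [h5, one_mul]
  -- Fubini
  have h1 : ((∫ y : ℝ, W (δ * y) * ‖FT G y‖ ^ 2 : ℝ) : ℂ) =
      ∫ p : ℝ × ℝ, (G p.1 * (starRingEnd ℂ) (G (p.1 + p.2))) * (K p.2 : ℂ) ∂(volume.prod volume) := by
    rw [← integral_complex_ofReal]
    have e1 : ∀ y : ℝ, ((W (δ * y) * ‖FT G y‖ ^ 2 : ℝ) : ℂ) =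
        ∫ p : ℝ × ℝ, (W (δ * y) : ℂ) * ((G p.1 * (starRingEnd ℂ) (G (p.1 + p.2))) * e (p.2 * y)) ∂(volume.prod volume) := by
      intro y
      rw [integral_const_mul, ← hsq y]
      push_cast
      ring
    simp_rw [e1]
    have hi3 : Integrable (fun q : ℝ × (ℝ × ℝ) => (W (δ * q.1) : ℂ) *
        ((G q.2.1 * (starRingEnd ℂ) (G (q.2.1 + q.2.2))) * e (q.2.2 * q.1))) (volume.prod (volume.prod volume)) := by
      have h3 : Integrable (fun q : ℝ × (ℝ × ℝ) => (W (δ * q.1) : ℂ) *
        (G q.2.1 * (starRingEnd ℂ) (G (q.2.1 + q.2.2)))) (volume.prod (volume.prod volume)) :=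
        (Wd_int hδ).ofReal.mul_prod hGG
      refine h3.norm.mono' ?_ (Filter.Eventually.of_forall fun q => ?_)
      · have h2 : Continuous fun q : ℝ × (ℝ × ℝ) => e (q.2.2 * q.1) := e_cont.comp (by fun_prop)
        have h4 := h3.aestronglyMeasurable.mul h2.aestronglyMeasurable
        refine h4.congr (Filter.Eventually.of_forall fun q => ?_)
        simp only [Pi.mul_apply]
        ring
      · rw [norm_mul, norm_mul, norm_mul, norm_mul, norm_mul, norm_e, mul_one]
    rw [integral_integral_swap hi3]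
    refine integral_congr_ae (Filter.Eventually.of_forall fun p => ?_)
    simp only
    have e2 : ∀ y : ℝ, (W (δ * y) : ℂ) * ((G p.1 * (starRingEnd ℂ) (G (p.1 + p.2))) * e (p.2 * y)) =
        (G p.1 * (starRingEnd ℂ) (G (p.1 + p.2))) * ((W (δ * y) : ℂ) * e (p.2 * y)) := fun y => by ring
    simp_rw [e2]
    rw [integral_const_mul, kern hδ]
  -- the bound
  have h2 : ∫ y : ℝ, W (δ * y) * ‖FT G y‖ ^ 2 ≤ ∫ p : ℝ × ℝ, (‖G p.1‖ * ‖G (p.1 + p.2)‖) * K p.2 ∂(volume.prod volume) := by
    have h3 : ∫ y : ℝ, W (δ * y) * ‖FT G y‖ ^ 2 ≤ ‖((∫ y : ℝ, W (δ * y) * ‖FT G y‖ ^ 2 : ℝ) : ℂ)‖ := by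
      rw [Complex.norm_real]
      exact Real.le_norm_self _
    refine h3.trans ?_
    rw [h1]
    refine (norm_integral_le_integral_norm _).trans (le_of_eq ?_)
    refine integral_congr_ae (Filter.Eventually.of_forall fun p => ?_)
    simp only
    rw [norm_mul, norm_mul, RCLike.norm_conj, Complex.norm_real, Real.norm_of_nonneg (hK0 _)]
  refine h2.trans ?_
  have hKb : ∀ x, K x ≤ δ⁻¹ := fun x => by
    rw [hK]
    simp only
    exact (mul_le_mul_of_nonneg_left (w_le _) (by positivity)).trans (le_of_eq (mul_one _))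
  have hKc : Continuous K := continuous_const.mul (w_cont.comp (continuous_id.div_const δ))
  have hi4 : Integrable (fun p : ℝ × ℝ => (‖G p.1‖ * ‖G (p.1 + p.2)‖) * K p.2) (volume.prod volume) := by
    refine (hGG.norm.mul_const δ⁻¹).mono' ?_ (Filter.Eventually.of_forall fun p => ?_)
    · have h3 := hGG.norm.aestronglyMeasurable.mul (hKc.comp continuous_snd).aestronglyMeasurable
      refine h3.congr (Filter.Eventually.of_forall fun p => ?_)
      simp only [Pi.mul_apply, Function.comp]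
      rw [norm_mul, RCLike.norm_conj]
    · rw [Real.norm_of_nonneg (mul_nonneg (by positivity) (hK0 _)), norm_mul, RCLike.norm_conj]
      exact mul_le_mul_of_nonneg_left (hKb _) (by positivity)
  rw [integral_prod_symm _ hi4]
  have h3 : ∀ x : ℝ, ∫ β : ℝ, (‖G β‖ * ‖G (β + x)‖) * K x ≤ (∫ β : ℝ, ‖G β‖ ^ 2) * K x := by
    intro x
    rw [integral_mul_const]
    apply mul_le_mul_of_nonneg_right _ (hK0 x)
    have h4 : Integrable fun β : ℝ => ‖G (β + x)‖ ^ 2 := hG2.comp_add_right x
    have h5 : ∫ β : ℝ, ‖G β‖ * ‖G (β + x)‖ ≤ ∫ β : ℝ, (‖G β‖ ^ 2 / 2 + ‖G (β + x)‖ ^ 2 / 2) := by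
      apply integral_mono_of_nonneg (Filter.Eventually.of_forall fun β => by positivity)
        ((hG2.div_const 2).add (h4.div_const 2)) (Filter.Eventually.of_forall fun β => ?_)
      simp only [Pi.add_apply]
      nlinarith [sq_nonneg (‖G β‖ - ‖G (β + x)‖)]
    refine h5.trans (le_of_eq ?_)
    rw [integral_add (hG2.div_const 2) (h4.div_const 2), integral_div, integral_div,
      integral_add_right_eq_self (fun β : ℝ => ‖G β‖ ^ 2) x]
    ring
  refine (integral_mono_of_nonneg (Filter.Eventually.of_forall fun x => integral_nonneg fun β =>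
    mul_nonneg (by positivity) (hK0 _)) (hKi.const_mul (∫ β : ℝ, ‖G β‖ ^ 2)) (Filter.Eventually.of_forall h3)).trans (le_of_eq ?_)
  rw [integral_const_mul, hK1, mul_one]

end Pool.Agent.K7.H94.EW
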