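import Mathlib
import Pool.Agent.K7.H94.EW.Fin
import Pool.Agent.K7.H94.EW.Bc2
import Pool.Agent.K7.H94.EW.Pl
import Pool.Agent.K7.H89.WE.G

set_option autoImplicit false

/-! Waring-Goldbach with real exponents: the measure of the exceptional set at one scale. -/

namespace Pool.Agent.K7.H94.EW
open Finset MeasureTheory Complex
open Pool.Agent.K7.H74.WS (e norm_e e_cont W W_nonneg W_le W_int W_cont w w_cont w_nonneg w_le w_zero w_half bern_lower)
open Pool.Agent.K7.H89.WE (A1 Vs Vs_nonneg)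

/-- the difference of the two products -/
noncomputable def DG {s : ℕ} (J : ℕ) (h : ℝ) (c : Fin s → ℝ) (β : ℝ) : ℂ :=
  (W β : ℂ) * ((∏ i, S (mm J (c i)) (β / h) (c i)) - ∏ i, M (mm J (c i)) (β / h) (c i))

lemma DG_norm {s : ℕ} (J : ℕ) (h : ℝ) (c : Fin s → ℝ) (β : ℝ) : ‖DG J h c β‖ = W β * (PL J c * dl J (β / h) c) := by
  unfold DG
  rw [norm_mul, Complex.norm_of_nonneg (W_nonneg _), SM_diff]

lemma DG_cont {s : ℕ} (J : ℕ) (h : ℝ) (c : Fin s → ℝ) : Continuous (DG J h c) := by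
  have h0 : Continuous fun β : ℝ => (W β : ℂ) := continuous_ofReal.comp W_cont
  have h3 := prod_c_meas (fun i => S (mm J (c i))) (fun i => S_cont _) h c
  have h4 := prod_c_meas (fun i => M (mm J (c i))) (fun i => M_cont _) h c
  exact h0.mul (h3.sub h4)

lemma DG_le {s : ℕ} (J : ℕ) (h : ℝ) (c : Fin s → ℝ) (β : ℝ) : ‖DG J h c β‖ ≤ (PL J c * (2 * 2 ^ s)) * W β := by
  rw [DG_norm, mul_comm]
  apply mul_le_mul_of_nonneg_right _ (W_nonneg _)
  exact mul_le_mul_of_nonneg_left (dl_le _ _ _) (PL_pos J c).le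

lemma DG_int {s : ℕ} (J : ℕ) (h : ℝ) (c : Fin s → ℝ) : Integrable (DG J h c) :=
  (W_int.const_mul (PL J c * (2 * 2 ^ s))).mono' (DG_cont J h c).aestronglyMeasurable
    (Filter.Eventually.of_forall fun β => DG_le J h c β)

/-- the large frequencies -/
noncomputable def GH {s : ℕ} (J : ℕ) (h : ℝ) (c : Fin s → ℝ) : ℝ → ℂ := (cut J h)ᶜ.indicator (DG J h c)

lemma GH_int {s : ℕ} (J : ℕ) (h : ℝ) (c : Fin s → ℝ) : Integrable (GH J h c) := (DG_int J h c).indicator (cut_meas J h).compl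

lemma GH_le {s : ℕ} (J : ℕ) (h : ℝ) (c : Fin s → ℝ) (β : ℝ) : ‖GH J h c β‖ ≤ PL J c * (2 * 2 ^ s) := by
  unfold GH
  refine (norm_indicator_le_norm_self _ _).trans ((DG_le J h c β).trans ?_)
  have h1 : 0 ≤ PL J c * (2 * 2 ^ s) := mul_nonneg (PL_pos J c).le (by positivity)
  exact (mul_le_mul_of_nonneg_left (W_le β) h1).trans (le_of_eq (mul_one _))

lemma GH_sq {s : ℕ} (J : ℕ) (h : ℝ) (c : Fin s → ℝ) : ∫ β, ‖GH J h c β‖ ^ 2 ≤ PL J c ^ 2 * ErrH J h c := by
  have hk0 : ∀ β, 0 ≤ W β * dl J (β / h) c ^ 2 := fun β => mul_nonneg (W_nonneg _) (by positivity)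
  have hdc : Continuous fun β : ℝ => dl J (β / h) c := by
    have h1 : ∀ β, (3 : ℝ) ^ 0 * dl J (β / h) c =
        ‖((∏ i, S (mm J (c i)) (β / h) (c i)) - ∏ i, M (mm J (c i)) (β / h) (c i))‖ / PL J c := by
      intro β
      rw [SM_diff, pow_zero, one_mul, mul_div_cancel_left₀ _ (PL_pos J c).ne']
    have h2 : (fun β : ℝ => dl J (β / h) c) = fun β : ℝ =>
        ‖((∏ i, S (mm J (c i)) (β / h) (c i)) - ∏ i, M (mm J (c i)) (β / h) (c i))‖ / PL J c := by
      funext β
      rw [← h1 β, pow_zero, one_mul]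
    rw [h2]
    have h3 := prod_c_meas (fun i => S (mm J (c i))) (fun i => S_cont _) h c
    have h4 := prod_c_meas (fun i => M (mm J (c i))) (fun i => M_cont _) h c
    exact (h3.sub h4).norm.div_const _
  have hki : Integrable fun β => W β * dl J (β / h) c ^ 2 := by
    refine (W_int.const_mul ((2 * 2 ^ s : ℝ) ^ 2)).mono' (W_cont.mul (hdc.pow 2)).aestronglyMeasurable
      (Filter.Eventually.of_forall fun β => ?_)
    rw [Real.norm_of_nonneg (hk0 β), mul_comm]
    exact mul_le_mul_of_nonneg_right (pow_le_pow_left₀ (dl_nonneg _ _ _) (dl_le _ _ _) 2) (W_nonneg _)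
  unfold ErrH
  rw [← integral_indicator (cut_meas J h).compl, ← integral_const_mul]
  apply integral_mono_of_nonneg (Filter.Eventually.of_forall fun β => by positivity)
    ((hki.indicator (cut_meas J h).compl).const_mul _) (Filter.Eventually.of_forall fun β => ?_)
  show ‖GH J h c β‖ ^ 2 ≤ PL J c ^ 2 * (cut J h)ᶜ.indicator (fun β => W β * dl J (β / h) c ^ 2) β
  unfold GH
  by_cases hβ : β ∈ (cut J h)ᶜ
  · rw [Set.indicator_of_mem hβ, Set.indicator_of_mem hβ, DG_norm]
    have h1 : W β ^ 2 ≤ W β := by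
      rw [sq]
      exact (mul_le_mul_of_nonneg_left (W_le β) (W_nonneg β)).trans (le_of_eq (mul_one _))
    calc (W β * (PL J c * dl J (β / h) c)) ^ 2 = W β ^ 2 * (PL J c ^ 2 * dl J (β / h) c ^ 2) := by ring
      _ ≤ W β * (PL J c ^ 2 * dl J (β / h) c ^ 2) := mul_le_mul_of_nonneg_right h1 (by positivity)
      _ = _ := by ring
  · rw [Set.indicator_of_notMem hβ, Set.indicator_of_notMem hβ, norm_zero]
    simp

/-- the count and the expected count -/
theorem RF_VF2 {s : ℕ} (J : ℕ) {h : ℝ} (t : ℝ) {c : Fin s → ℝ} (hc : ∀ i, 0 ≤ c i) :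
    |RF J h t c - VF J h t c| ≤ PL J c * ErrL J h c + ‖FT (GH J h c) (t / h)‖ := by
  have hi := FT_int (DG_int J h c) (t / h)
  have h1 : ((RF J h t c - VF J h t c : ℝ) : ℂ) = ∫ β : ℝ, DG J h c β * e (-(β * (t / h))) := by
    have h2 : Continuous fun β : ℝ => e (-(β / h * t)) := e_cont.comp (by fun_prop)
    have h0 : Continuous fun β : ℝ => (W β : ℂ) := continuous_ofReal.comp W_cont
    push_cast
    rw [RF_eq, VF_eq J h t hc]
    rw [← integral_sub]
    · refine integral_congr_ae (Filter.Eventually.of_forall fun β => ?_)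
      simp only
      unfold DG
      have e1 : β / h * t = β * (t / h) := by ring
      rw [e1]
      ring
    · refine (W_int.const_mul (2 ^ s * PL J c)).mono' ?_ (Filter.Eventually.of_forall fun β => ?_)
      · have h3 := prod_c_meas (fun i => S (mm J (c i))) (fun i => S_cont _) h c
        exact (h0.mul (h3.mul h2)).aestronglyMeasurable
      · rw [norm_mul, norm_mul, norm_e, mul_one, Complex.norm_of_nonneg (W_nonneg _), mul_comm]
        exact mul_le_mul_of_nonneg_right (Sp_le _ _ _) (W_nonneg _)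
    · refine (W_int.const_mul (PL J c)).mono' ?_ (Filter.Eventually.of_forall fun β => ?_)
      · have h3 := prod_c_meas (fun i => M (mm J (c i))) (fun i => M_cont _) h c
        exact (h0.mul (h3.mul h2)).aestronglyMeasurable
      · rw [norm_mul, norm_mul, norm_e, mul_one, Complex.norm_of_nonneg (W_nonneg _), mul_comm]
        exact mul_le_mul_of_nonneg_right (Mp_le _ _ _) (W_nonneg _)
  have h2 : |RF J h t c - VF J h t c| = ‖((RF J h t c - VF J h t c : ℝ) : ℂ)‖ := by
    rw [Complex.norm_real, Real.norm_eq_abs]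
  rw [h2, h1, ← integral_add_compl (cut_meas J h) hi]
  refine (norm_add_le _ _).trans (add_le_add ?_ (le_of_eq ?_))
  · refine (norm_integral_le_integral_norm _).trans (le_of_eq ?_)
    unfold ErrL
    rw [← integral_const_mul]
    refine integral_congr_ae (Filter.Eventually.of_forall fun β => ?_)
    simp only
    rw [norm_mul, norm_e, mul_one, DG_norm]
    ring
  · unfold FT
    rw [← integral_indicator (cut_meas J h).compl]
    congr 1
    refine integral_congr_ae (Filter.Eventually.of_forall fun β => ?_)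
    simp only
    unfold GH
    by_cases hβ : β ∈ (cut J h)ᶜ
    · rw [Set.indicator_of_mem hβ, Set.indicator_of_mem hβ]
    · rw [Set.indicator_of_notMem hβ, Set.indicator_of_notMem hβ, zero_mul]

lemma W_low {x : ℝ} (h0 : 0 < x) (h1 : x ≤ 1 / 2) : 1 / 4 ≤ W x := by
  unfold W
  have hp := Real.pi_pos
  have hp4 := Real.pi_le_four
  have h2 : 0 < Real.pi * x := by positivity
  have h3 : Real.pi * x ≤ Real.pi / 2 := by nlinarith
  have h4 := Real.mul_le_sin h2.le h3
  have h5 : 1 / 2 ≤ Real.sinc (Real.pi * x) := by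
    rw [Real.sinc_of_ne_zero h2.ne', le_div_iff₀ h2]
    have h6 : 2 / Real.pi * (Real.pi * x) = 2 * x := by field_simp
    rw [h6] at h4
    nlinarith
  nlinarith

/-- the measure of the set where the large frequencies are large -/
theorem FT_meas {s : ℕ} (J : ℕ) {h : ℝ} (hh : 0 < h) (c : Fin s → ℝ) {L : ℝ} (hL : 0 < L) :
    volume {t : ℝ | 0 < t ∧ t ≤ (3 : ℝ) ^ J ∧ L ≤ ‖FT (GH J h c) (t / h)‖} ≤
      ENNReal.ofReal (4 * h * (PL J c ^ 2 * ErrH J h c) / L ^ 2) := by
  set T : ℝ := (3 : ℝ) ^ J with hTd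
  have hT0 : 0 < T := by positivity
  set δ : ℝ := h / (2 * T) with hδ
  have hδ0 : 0 < δ := by positivity
  set A : Set ℝ := {y | 0 < y ∧ y ≤ T / h ∧ L ≤ ‖FT (GH J h c) y‖} with hA
  have hG := GH_int J h c
  have hpl := (planch hG (GH_le J h c) hδ0).trans (GH_sq J h c)
  have hf0 : ∀ y, 0 ≤ W (δ * y) * ‖FT (GH J h c) y‖ ^ 2 := fun y => mul_nonneg (W_nonneg _) (by positivity)
  have hfi := FTW_int hG hδ0
  have hAm : MeasurableSet A := by
    have h1 : MeasurableSet {y : ℝ | 0 < y} := measurableSet_lt measurable_const measurable_id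
    have h2 : MeasurableSet {y : ℝ | y ≤ T / h} := measurableSet_le measurable_id measurable_const
    have h3 : MeasurableSet {y : ℝ | L ≤ ‖FT (GH J h c) y‖} :=
      measurableSet_le measurable_const (FT_cont hG).norm.measurable
    exact h1.inter (h2.inter h3)
  have hAfin : volume A ≠ ⊤ := by
    have hsub : A ⊆ Set.Ioc 0 (T / h) := fun y hy => ⟨hy.1, hy.2.1⟩
    refine ne_top_of_le_ne_top ?_ (measure_mono hsub)
    rw [Real.volume_Ioc]
    exact ENNReal.ofReal_ne_top
  have h1 : L ^ 2 / 4 * volume.real A ≤ PL J c ^ 2 * ErrH J h c := by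
    have h2 : ∫ _y in A, L ^ 2 / 4 ≤ ∫ y in A, W (δ * y) * ‖FT (GH J h c) y‖ ^ 2 := by
      apply setIntegral_mono_on (integrableOn_const hAfin) hfi.integrableOn hAm
      rintro y ⟨hy0, hy1, hy2⟩
      have h3 : 1 / 4 ≤ W (δ * y) := by
        apply W_low (by positivity)
        rw [hδ]
        rw [le_div_iff₀ hh] at hy1
        rw [div_mul_eq_mul_div, div_le_div_iff₀ (by positivity) (by norm_num)]
        linarith
      have h4 : L ^ 2 ≤ ‖FT (GH J h c) y‖ ^ 2 := pow_le_pow_left₀ hL.le hy2 2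
      have h5 := mul_le_mul h3 h4 (by positivity) (W_nonneg _)
      linarith
    rw [setIntegral_const, smul_eq_mul, mul_comm] at h2
    refine h2.trans ((setIntegral_le_integral hfi (Filter.Eventually.of_forall hf0)).trans hpl)
  have h2 : {t : ℝ | 0 < t ∧ t ≤ T ∧ L ≤ ‖FT (GH J h c) (t / h)‖} = (fun t => h⁻¹ * t) ⁻¹' A := by
    ext t
    show (0 < t ∧ t ≤ T ∧ L ≤ ‖FT (GH J h c) (t / h)‖) ↔
      (0 < h⁻¹ * t ∧ h⁻¹ * t ≤ T / h ∧ L ≤ ‖FT (GH J h c) (h⁻¹ * t)‖)
    rw [inv_mul_eq_div, div_pos_iff_of_pos_right hh, div_le_div_iff_of_pos_right hh]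
  rw [h2, Real.volume_preimage_mul_left (inv_ne_zero hh.ne'), inv_inv, abs_of_pos hh,
    ← ENNReal.ofReal_toReal hAfin, ← ENNReal.ofReal_mul hh.le]
  apply ENNReal.ofReal_le_ofReal
  change h * volume.real A ≤ _
  rw [le_div_iff₀ (by positivity)]
  nlinarith

/-- a lower bound for the expected count -/
theorem VF_lower {s : ℕ} {c : Fin s → ℝ} (hc : ∀ i, 0 < c i) (hρ : 1 ≤ sg c) {J : ℕ} {h t : ℝ} (hh : 0 < h) (ht : h ≤ t)
    (htT : t + h ≤ (3 : ℝ) ^ J) : 1 / 2 * (Vs c * (sg c * (t - h / 2) ^ (sg c - 1) * h)) ≤ VF J h t c := by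
  have hc' : ∀ i, 0 ≤ c i := fun i => (hc i).le
  set A : Set (Fin s → ℝ) := {u | su c u < t + h / 2} with hA
  set B : Set (Fin s → ℝ) := {u | su c u < t - h / 2} with hB
  have hAm : MeasurableSet A := measurableSet_lt (su_cont hc').measurable measurable_const
  have hBm : MeasurableSet B := measurableSet_lt (su_cont hc').measurable measurable_const
  have hab : t - h / 2 ≤ t + h / 2 := by linarith
  have hBA : B ⊆ A := fun u hu => lt_of_lt_of_le hu hab
  have hi : Integrable (fun u : Fin s → ℝ => w ((su c u - t) / h)) (bm J c) := by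
    refine Integrable.of_bound (C := 1) ?_ (Filter.Eventually.of_forall fun u => ?_)
    · exact (w_cont.comp (((su_cont hc').sub continuous_const).div_const h)).aestronglyMeasurable
    · rw [Real.norm_of_nonneg (w_nonneg _)]
      exact w_le _
  have h3 : 1 / 2 * (bm J c).real (A \ B) ≤ VF J h t c := by
    unfold VF
    rw [← integral_indicator_one (hAm.diff hBm), ← integral_const_mul]
    apply integral_mono (((integrable_const (1 : ℝ)).indicator (hAm.diff hBm)).const_mul _) hi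
    intro u
    by_cases hu : u ∈ A \ B
    · have h4 : su c u < t + h / 2 := hu.1
      have h5 : t - h / 2 ≤ su c u := not_lt.1 hu.2
      simp only
      rw [Set.indicator_of_mem hu]
      have h6 : |(su c u - t) / h| ≤ 1 / 2 := by
        rw [abs_div, abs_of_pos hh, div_le_iff₀ hh, abs_le]
        constructor <;> linarith
      have := w_half h6
      simpa using this
    · simp only
      rw [Set.indicator_of_notMem hu, mul_zero]
      exact w_nonneg _
  have h4 : (bm J c).real (A \ B) = Vs c * ((t + h / 2) ^ sg c - (t - h / 2) ^ sg c) := by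
    rw [measureReal_sdiff hBA hBm, GF_eq hc (by linarith) (by linarith), GF_eq hc (by linarith) (by linarith)]
    ring
  rw [h4] at h3
  have h5 := bern_lower (a := t - h / 2) (b := t + h / 2) (by linarith) (by linarith) hρ
  have e1 : t + h / 2 - (t - h / 2) = h := by ring
  rw [e1] at h5
  have h6 := mul_le_mul_of_nonneg_left h5 (Vs_nonneg c)
  linarith

/-- no solutions -/
lemma RF_zero {s : ℕ} {c : Fin s → ℝ} {J : ℕ} {h t : ℝ} (hh : 0 < h)
    (hU : ∀ x : Fin s → ℕ, (∀ i, (x i).Prime) → h ≤ |sp c x - t|) : RF J h t c = 0 := by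
  unfold RF
  apply sum_eq_zero
  intro x _
  by_cases hx : ∀ i, (x i).Prime
  · have h1 : 1 ≤ |(sp c x - t) / h| := by
      rw [abs_div, abs_of_pos hh, one_le_div hh]
      exact hU x hx
    rw [w_zero h1, mul_zero]
  · push Not at hx
    obtain ⟨i, hi⟩ := hx
    have h1 : lp x = 0 := by
      unfold lp
      apply prod_eq_zero (mem_univ i)
      unfold lw
      rw [if_neg hi]
    rw [h1, zero_mul]

/-- the exceptional set -/
def UE {s : ℕ} (c : Fin s → ℝ) (η : ℝ) : Set ℝ :=
  {t | 1 ≤ t ∧ ∀ x : Fin s → ℕ, (∀ i, (x i).Prime) → t ^ (-η) ≤ |sp c x - t|}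

/-- the measure of the exceptional set at one scale -/
theorem scale_bad {s : ℕ} {c : Fin s → ℝ} (hc : ∀ i, 0 < c i) (hρ : 1 ≤ sg c) (hV : 0 < Vs c) {J : ℕ} {h η : ℝ} (hη : 0 ≤ η)
    (hh : h = ((3 : ℝ) ^ J) ^ (-η)) (hT : 12 ≤ (3 : ℝ) ^ J) {c₀ : ℝ} (hc₀ : c₀ = Vs c * (sg c * (1 / 24) ^ (sg c - 1)) / 4)
    (hL : PL J c * ErrL J h c ≤ c₀ * (h * ((3 : ℝ) ^ J) ^ (sg c - 1))) :
    volume (UE c η ∩ Set.Icc ((3 : ℝ) ^ J / 12) ((3 : ℝ) ^ J / 2)) ≤
      ENNReal.ofReal (4 * h * (PL J c ^ 2 * ErrH J h c) / (c₀ * (h * ((3 : ℝ) ^ J) ^ (sg c - 1))) ^ 2) := by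
  set T : ℝ := (3 : ℝ) ^ J with hTd
  have hT0 : 0 < T := by linarith
  have hT1 : 1 ≤ T := by linarith
  set ρ : ℝ := sg c with hρd
  have hh0 : 0 < h := by rw [hh]; positivity
  have hh1 : h ≤ 1 := by
    rw [hh]
    exact Real.rpow_le_one_of_one_le_of_nonpos hT1 (by linarith)
  have hc0 : 0 < c₀ := by
    rw [hc₀]
    have h1 : 0 < ρ := by linarith
    positivity
  have hTρ : 0 < T ^ (ρ - 1) := Real.rpow_pos_of_pos hT0 _
  refine (measure_mono ?_).trans (FT_meas J hh0 c (by positivity : 0 < c₀ * (h * T ^ (ρ - 1))))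
  rintro t ⟨⟨ht1, htU⟩, ht2, ht3⟩
  have ht0 : 0 < t := by linarith
  have htT : t ≤ T := by linarith
  refine ⟨ht0, htT, ?_⟩
  have h1 : RF J h t c = 0 := by
    apply RF_zero hh0
    intro x hx
    refine le_trans ?_ (htU x hx)
    rw [hh]
    exact Real.rpow_le_rpow_of_nonpos ht0 htT (by linarith)
  have h2 := VF_lower (J := J) hc hρ hh0 (t := t) (by linarith) (by linarith)
  have h3 : (1 / 24) ^ (ρ - 1) * T ^ (ρ - 1) ≤ (t - h / 2) ^ (ρ - 1) := by
    rw [← Real.mul_rpow (by norm_num) hT0.le]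
    apply Real.rpow_le_rpow (by positivity) _ (by linarith)
    linarith
  have h4 : 2 * (c₀ * (h * T ^ (ρ - 1))) ≤ VF J h t c := by
    refine le_trans ?_ h2
    have h5 : 0 ≤ 1 / 2 * (Vs c * ρ * h) := by
      have : 0 < ρ := by linarith
      positivity
    have h6 := mul_le_mul_of_nonneg_left h3 h5
    rw [hc₀]
    linarith
  have h5 := RF_VF2 J (h := h) t (fun i => (hc i).le)
  rw [h1, zero_sub, abs_neg] at h5
  have h6 := le_abs_self (VF J h t c)
  linarith

end Pool.Agent.K7.H94.EW
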