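import Mathlib
import Pool.Agent.K7.H94.EW.Fin
import Pool.Agent.K7.H74.WS.Main

set_option autoImplicit false

/-! Waring-Goldbach with real exponents: the asymptotic formula for almost all exponents. -/

namespace Pool.Agent.K7.H94.EW
open Finset MeasureTheory Filter
open Pool.Agent.K7.H74.WS (choose_delta)
open Pool.Agent.K7.H89.WE (A1 Vs Vs_nonneg)

lemma PL_le {s : ℕ} {c : Fin s → ℝ} (hc : ∀ i, 0 < c i) (J : ℕ) : PL J c ≤ 3 ^ s * ((3 : ℝ) ^ J) ^ sg c := by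
  have hT : (0 : ℝ) < (3 : ℝ) ^ J := by positivity
  unfold PL sg
  have h1 : ∏ i, (3 : ℝ) ^ (mm J (c i)) ≤ ∏ i : Fin s, (3 * ((3 : ℝ) ^ J) ^ (1 / c i)) := by
    refine prod_le_prod (fun i _ => by positivity) fun i _ => ?_
    have h2 : (3 : ℝ) * ((3 : ℝ) ^ J) ^ (1 / c i) = (3 : ℝ) ^ ((J : ℝ) / c i + 1) := by
      rw [← Real.rpow_natCast 3 J, ← Real.rpow_mul (by norm_num), Real.rpow_add (by norm_num), Real.rpow_one, mul_comm]
      congr 2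
      ring
    rw [h2, ← Real.rpow_natCast 3 (mm J (c i))]
    apply Real.rpow_le_rpow_of_exponent_le (by norm_num)
    unfold mm
    have := hc i
    exact (Nat.ceil_lt_add_one (by positivity)).le
  refine h1.trans (le_of_eq ?_)
  rw [prod_mul_distrib, prod_const, card_univ, Fintype.card_fin, Real.rpow_sum_of_pos hT]

/-- the asymptotic formula -/
def Asym {s : ℕ} (c : Fin s → ℝ) (κ : ℝ) : Prop :=
  ∀ ε : ℝ, 0 < ε → ∃ τ₀ : ℝ, ∀ τ η : ℝ, τ₀ ≤ τ → τ ^ (-κ) ≤ η → η ≤ 1 →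
      |wc c τ η - 2 * (Vs c * sg c) * (η * τ ^ (sg c - 1))| ≤ ε * (η * τ ^ (sg c - 1))

/-- the asymptotic formula for good exponents -/
theorem det_final {s : ℕ} {c : Fin s → ℝ} (hc : ∀ i, 0 < c i) (hρ : 1 ≤ sg c) {κ θ : ℝ} (hκ : 0 ≤ κ) (hθ : κ < θ)
    (hE : ∀ᶠ J : ℕ in atTop, Err J (((3 : ℝ) ^ J) ^ (-θ)) c <
      (((3 : ℝ) ^ J) ^ (-θ) / (3 : ℝ) ^ J) / ((J : ℝ) + 1)) : Asym c κ := by
  intro ε hε
  have hθ0 : 0 < θ := lt_of_le_of_lt hκ hθ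
  set ρ : ℝ := sg c with hρd
  set C : ℝ := (3 : ℝ) ^ s * (6 : ℝ) ^ (ρ - 1) with hC
  obtain ⟨δ, hδ0, hδ, hlow, hup⟩ := choose_delta (Vs c * ρ) C ρ hε
  obtain ⟨J₀, hJ₀⟩ := eventually_atTop.1 hE
  obtain ⟨J₁, hJ₁⟩ := exists_nat_gt (1 / δ)
  have hlim : Tendsto (fun τ : ℝ => τ ^ (κ - θ)) atTop (nhds 0) := by
    have := tendsto_rpow_neg_atTop (y := -(κ - θ)) (by linarith)
    simpa using this
  obtain ⟨τ₁, hτ₁⟩ := eventually_atTop.1 (hlim.eventually_lt_const hδ0)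
  refine ⟨max (max 1 τ₁) (max (1 / δ) ((3 : ℝ) ^ (max J₀ J₁))), ?_⟩
  intro τ η hτ hη hη1
  have t1 : 1 ≤ τ := (le_max_left _ _).trans ((le_max_left _ _).trans hτ)
  have t2 : τ₁ ≤ τ := (le_max_right _ _).trans ((le_max_left _ _).trans hτ)
  have t3 : 1 / δ ≤ τ := (le_max_left _ _).trans ((le_max_right _ _).trans hτ)
  have t4 : (3 : ℝ) ^ (max J₀ J₁) ≤ τ := (le_max_right _ _).trans ((le_max_right _ _).trans hτ)
  have hτ0 : 0 < τ := by linarith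
  obtain ⟨n, hn1, hn2⟩ := exists_nat_pow_near (by linarith : 1 ≤ 2 * τ) (by norm_num : (1 : ℝ) < 3)
  set J := n + 1 with hJ
  have hJmax : max J₀ J₁ < J := by
    by_contra h1
    push Not at h1
    have h2 : (3 : ℝ) ^ J ≤ (3 : ℝ) ^ (max J₀ J₁) := pow_le_pow_right₀ (by norm_num) h1
    linarith
  have hJ0 : J₀ ≤ J := (le_max_left _ _).trans hJmax.le
  have hJ1 : J₁ ≤ J := (le_max_right _ _).trans hJmax.le
  set X : ℝ := (3 : ℝ) ^ J with hX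
  have hX1 : 1 ≤ X := one_le_pow₀ (by norm_num)
  have hX0 : 0 < X := by linarith
  have hXτ : 2 * τ ≤ X := hn2.le
  have hXτ2 : X ≤ 6 * τ := by
    rw [hX, hJ, pow_succ]
    linarith
  -- the length of the windows
  set h : ℝ := X ^ (-θ) with hh
  have hh0 : 0 < h := Real.rpow_pos_of_pos hX0 _
  have hhη : h ≤ δ * η := by
    have h2 : X ^ (-θ) ≤ τ ^ (-θ) := Real.rpow_le_rpow_of_nonpos hτ0 (by linarith) (by linarith)
    have h3 : τ ^ (-θ) = τ ^ (κ - θ) * τ ^ (-κ) := by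
      rw [← Real.rpow_add hτ0]
      congr 1
      ring
    calc h ≤ τ ^ (κ - θ) * τ ^ (-κ) := h2.trans h3.le
      _ ≤ δ * η := mul_le_mul (hτ₁ τ t2).le hη (Real.rpow_nonneg hτ0.le _) hδ0.le
  have hητ : η ≤ δ * τ := by
    rw [div_le_iff₀ hδ0] at t3
    linarith
  -- the error
  have hXs : 3 ^ s * X ^ (ρ - 1) ≤ C * τ ^ (ρ - 1) := by
    rw [hC, mul_assoc]
    apply mul_le_mul_of_nonneg_left _ (by positivity)
    calc X ^ (ρ - 1) ≤ (6 * τ) ^ (ρ - 1) := Real.rpow_le_rpow hX0.le hXτ2 (by linarith)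
      _ = 6 ^ (ρ - 1) * τ ^ (ρ - 1) := by rw [Real.mul_rpow (by norm_num) hτ0.le]
  have hErr : PL J c * Err J h c ≤ δ * (h * (C * τ ^ (ρ - 1))) := by
    have hJp : (0 : ℝ) < (J : ℝ) + 1 := by positivity
    have h0 : Err J h c ≤ h / X / ((J : ℝ) + 1) := (hJ₀ J hJ0).le
    have h1 : 1 ≤ δ * ((J : ℝ) + 1) := by
      rw [div_lt_iff₀ hδ0] at hJ₁
      have h2 : (J₁ : ℝ) ≤ J := by exact_mod_cast hJ1
      nlinarith
    have h3 : PL J c ≤ 3 ^ s * X ^ ρ := PL_le hc J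
    have h4 : PL J c * Err J h c ≤ (3 ^ s * X ^ ρ) * (h / X / ((J : ℝ) + 1)) :=
      mul_le_mul h3 h0 (Err_nonneg _ _ _) (by positivity)
    refine h4.trans ?_
    have e1 : X ^ ρ = X ^ (ρ - 1) * X := by rw [← Real.rpow_add_one hX0.ne', sub_add_cancel]
    have e2 : (3 : ℝ) ^ s * X ^ ρ * (h / X / ((J : ℝ) + 1)) = h * (3 ^ s * X ^ (ρ - 1)) / ((J : ℝ) + 1) := by
      rw [e1]
      field_simp
    rw [e2, div_le_iff₀ hJp]
    have h5 : h * (3 ^ s * X ^ (ρ - 1)) ≤ h * (C * τ ^ (ρ - 1)) := mul_le_mul_of_nonneg_left hXs hh0.le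
    have h6 : 0 ≤ h * (C * τ ^ (ρ - 1)) := by positivity
    calc h * (3 ^ s * X ^ (ρ - 1)) ≤ h * (C * τ ^ (ρ - 1)) := h5
      _ = 1 * (h * (C * τ ^ (ρ - 1))) := (one_mul _).symm
      _ ≤ (δ * ((J : ℝ) + 1)) * (h * (C * τ ^ (ρ - 1))) := mul_le_mul_of_nonneg_right h1 h6
      _ = _ := by ring
  have hl := det_lower hc hρ hh0 hδ0 hδ hhη hητ hXτ hErr
  have hu := det_upper hc hρ hh0 hδ0 hδ hhη hητ hXτ hErr
  have hη0 : 0 < η := (Real.rpow_pos_of_pos hτ0 _).trans_le hη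
  have hpos : 0 ≤ η * τ ^ (ρ - 1) := mul_nonneg hη0.le (Real.rpow_nonneg hτ0.le _)
  have hl2 := mul_le_mul_of_nonneg_right hlow hpos
  have hu2 := mul_le_mul_of_nonneg_right hup hpos
  rw [abs_le]
  constructor
  · linarith
  · linarith

theorem box_ae {s : ℕ} {a b : Fin s → ℝ} (H : Bx a b) {B : ℝ} (hB : 1 ≤ B) (hbB : ∀ i, b i ≤ B) (hs : 2 ≤ sg b)
    {κ θ δ : ℝ} (hκ : 0 ≤ κ) (hθ : κ < θ) (hδ : 0 < δ) (h1 : δ ≤ sg b / 2 - 1 - θ) :
    ∀ᵐ c : Fin s → ℝ, (∀ i, c i ∈ Set.Ioc (a i) (b i)) → Asym c κ := by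
  have h3 : ∀ᵐ c ∂(mu a b), (∀ i, c i ∈ Set.Ioc (a i) (b i)) → Asym c κ := by
    filter_upwards [ae_err H hB hbB hs hδ h1] with c hc hc2
    have hc0 : ∀ i, 0 < c i := fun i => by linarith [H.ha i, (hc2 i).1]
    have hbc : sg b ≤ sg c := by
      unfold sg
      apply sum_le_sum
      intro i _
      exact one_div_le_one_div_of_le (hc0 i) (hc2 i).2
    exact det_final hc0 (by linarith) hκ hθ hc
  rw [mu_eq, ae_restrict_iff' (MeasurableSet.univ_pi fun _ => measurableSet_Ioc)] at h3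
  filter_upwards [h3] with c hc hc2
  exact hc (fun i _ => hc2 i) hc2

/-- **the asymptotic formula for almost all exponents** -/
theorem main (s : ℕ) : ∀ᵐ c : Fin s → ℝ, (∀ i, 2 ≤ c i) → 2 < sg c → ∀ κ : ℝ, κ < sg c / 2 - 1 → Asym c κ := by
  classical
  -- the countable union
  have h1 : ∀ᵐ c : Fin s → ℝ, ∀ (a b : Fin s → ℚ) (κ θ : ℚ),
      (∃ B δ : ℝ, Bx (fun i => (a i : ℝ)) (fun i => (b i : ℝ)) ∧ 1 ≤ B ∧ (∀ i, (b i : ℝ) ≤ B) ∧ 2 ≤ sg (fun i => (b i : ℝ)) ∧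
        0 ≤ (κ : ℝ) ∧ (κ : ℝ) < θ ∧ 0 < δ ∧ δ ≤ sg (fun i => (b i : ℝ)) / 2 - 1 - θ) →
      (∀ i, c i ∈ Set.Ioc (a i : ℝ) (b i)) → Asym c κ := by
    rw [ae_all_iff]; intro a
    rw [ae_all_iff]; intro b
    rw [ae_all_iff]; intro κ
    rw [ae_all_iff]; intro θ
    by_cases hcond : ∃ B δ : ℝ, Bx (fun i => (a i : ℝ)) (fun i => (b i : ℝ)) ∧ 1 ≤ B ∧ (∀ i, (b i : ℝ) ≤ B) ∧
        2 ≤ sg (fun i => (b i : ℝ)) ∧ 0 ≤ (κ : ℝ) ∧ (κ : ℝ) < θ ∧ 0 < δ ∧ δ ≤ sg (fun i => (b i : ℝ)) / 2 - 1 - θ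
    · obtain ⟨B, δ, H, e1, e2, e3, e4, e5, e6, e7⟩ := hcond
      filter_upwards [box_ae H e1 e2 e3 e4 e5 e6 e7] with c hc _ hc2
      exact hc hc2
    · exact Eventually.of_forall fun c h => absurd h hcond
  have h2 : ∀ᵐ c : Fin s → ℝ, ∀ i, c i ≠ 2 := by
    rw [ae_all_iff]
    intro i
    have h4 : ∀ᵐ x : ℝ, x ≠ 2 := compl_mem_ae_iff.2 (measure_singleton (2 : ℝ))
    rw [volume_pi]
    exact (Measure.quasiMeasurePreserving_eval (fun _ : Fin s => (volume : Measure ℝ)) i).ae h4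
  filter_upwards [h1, h2] with c hc hc2 hge hsg κ hκ
  have hgt : ∀ i, 2 < c i := fun i => lt_of_le_of_ne (hge i) (hc2 i).symm
  have hpos : 0 < sg c / 2 - 1 := by linarith
  obtain ⟨κ', hκ1, hκ2⟩ := exists_rat_btwn (max_lt hκ hpos)
  obtain ⟨θ, hθ1, hθ2⟩ := exists_rat_btwn hκ2
  have hκ0 : 0 ≤ (κ' : ℝ) := (le_max_right _ _).trans hκ1.le
  set B : ℝ := 1 + ∑ i, c i with hB
  have hcB : ∀ i, c i + 1 ≤ B := fun i => by
    have := single_le_sum (f := c) (fun j _ => by linarith [hgt j] : ∀ j ∈ univ, 0 ≤ c j) (mem_univ i)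
    rw [hB]; linarith
  have hB0 : 1 ≤ B := by
    have : 0 ≤ ∑ i, c i := sum_nonneg fun j _ => by linarith [hgt j]
    rw [hB]; linarith
  -- the radius of the box
  set g : ℝ := sg c / 2 - 1 - θ with hg
  have hg0 : 0 < g := by rw [hg]; linarith
  obtain ⟨r, hr0, hr1, hr2, hr3⟩ : ∃ r : ℝ, 0 < r ∧ r ≤ 1 / 8 ∧ (s : ℝ) * r ≤ g / 4 ∧ (s : ℝ) * r ≤ sg c - 2 := by
    have hs1 : (0 : ℝ) < (s : ℝ) + 1 := by positivity
    set m : ℝ := min (1 / 8) (min (g / 4) (sg c - 2)) with hm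
    have hm0 : 0 < m := lt_min (by norm_num) (lt_min (by positivity) (by linarith))
    have hsm : (s : ℝ) * (m / (s + 1)) ≤ m := by
      rw [mul_div_assoc', div_le_iff₀ hs1]
      nlinarith
    refine ⟨m / (s + 1), by positivity, ?_, hsm.trans ?_, hsm.trans ?_⟩
    · have : m / (s + 1) ≤ m := div_le_self hm0.le (by linarith [(Nat.cast_nonneg s : (0 : ℝ) ≤ s)])
      exact this.trans (min_le_left _ _)
    · exact (min_le_right _ _).trans (min_le_left _ _)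
    · exact (min_le_right _ _).trans (min_le_right _ _)
  have hex1 : ∀ i, ∃ q : ℚ, max 2 (c i - r) < q ∧ (q : ℝ) < c i := fun i =>
    exists_rat_btwn (max_lt (hgt i) (by linarith))
  have hex2 : ∀ i, ∃ q : ℚ, c i < q ∧ (q : ℝ) < c i + r := fun i => exists_rat_btwn (by linarith)
  choose a ha1 ha2 using hex1
  choose b hb1 hb2 using hex2
  have ha3 : ∀ i, (2 : ℝ) < a i := fun i => (le_max_left _ _).trans_lt (ha1 i)
  have ha4 : ∀ i, c i - r < a i := fun i => (le_max_right _ _).trans_lt (ha1 i)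
  have hlip : ∀ x y : ℝ, 2 ≤ x → 2 ≤ y → x ≤ y → 1 / x - 1 / y ≤ y - x := by
    intro x y hx hy hxy
    have e1 : 1 / x - 1 / y = (y - x) / (x * y) := by
      field_simp
    have e2 : 1 ≤ x * y := by nlinarith
    rw [e1, div_le_iff₀ (by linarith)]
    exact le_mul_of_one_le_right (by linarith) e2
  have hsb : sg c - s * r ≤ sg (fun i => (b i : ℝ)) := by
    have : sg c - sg (fun i => (b i : ℝ)) ≤ s * r := by
      unfold sg
      rw [← sum_sub_distrib]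
      have e1 : ∑ i : Fin s, (1 / c i - 1 / (b i : ℝ)) ≤ ∑ _i : Fin s, r := by
        apply sum_le_sum
        intro i _
        have := hlip (c i) (b i) (hgt i).le (by linarith [hgt i, hb1 i]) (hb1 i).le
        linarith [hb2 i]
      rw [sum_const, card_univ, Fintype.card_fin, nsmul_eq_mul] at e1
      exact e1
    linarith
  have H : Bx (fun i => (a i : ℝ)) (fun i => (b i : ℝ)) := by
    refine ⟨fun i => (ha3 i).le, fun i => by linarith [ha2 i, hb1 i], fun i => ?_⟩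
    linarith [ha4 i, hb2 i]
  have hres := hc a b κ' θ ⟨B, g / 4, H, hB0, fun i => by linarith [hcB i, hb2 i], by linarith, hκ0, hθ1, by positivity,
    by rw [hg] at *; linarith⟩ (fun i => ⟨ha2 i, (hb1 i).le⟩)
  -- from `κ'` to `κ`
  intro ε hε
  obtain ⟨τ₀, hτ₀⟩ := hres ε hε
  refine ⟨max 1 τ₀, fun τ η hτ hη hη1 => hτ₀ τ η ((le_max_right _ _).trans hτ) ?_ hη1⟩
  refine le_trans ?_ hη
  apply Real.rpow_le_rpow_of_exponent_le ((le_max_left _ _).trans hτ)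
  linarith [(le_max_left κ 0).trans hκ1.le]

end Pool.Agent.K7.H94.EW
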