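import Mathlib
import Pool.Agent.K7.H94.EW.Bad
import Pool.Agent.K7.H94.EW.Main
import Pool.Agent.K7.H77.WG.Ind

set_option autoImplicit false

/-! Waring-Goldbach with real exponents: the exceptional set has small measure for almost all exponents. -/

namespace Pool.Agent.K7.H94.EW
open Finset MeasureTheory Filter
open Pool.Agent.K7.H89.WE (Vs Vs_nonneg Vs_sg)
open Pool.Agent.K7.H77.WG (Small const_le const_le2)

/-- a polynomial is smaller than a power -/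
lemma poly_le (C : ℝ) (k : ℕ) {a b : ℝ} (hab : a < b) :
    ∀ᶠ J : ℕ in atTop, C * (((J : ℝ) + 1) ^ k * ((3 : ℝ) ^ J) ^ a) ≤ ((3 : ℝ) ^ J) ^ b := by
  set r : ℝ := (3 : ℝ) ^ (a - b) with hr
  have hr0 : 0 < r := Real.rpow_pos_of_pos (by norm_num) _
  have hr1 : r < 1 := Real.rpow_lt_one_of_one_lt_of_neg (by norm_num) (by linarith)
  have h1 := tendsto_pow_const_mul_const_pow_of_abs_lt_one k (show |r| < 1 by rwa [abs_of_pos hr0])
  have h2 := (h1.comp (tendsto_add_atTop_nat 1)).const_mul (C * r⁻¹)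
  rw [mul_zero] at h2
  filter_upwards [h2.eventually_lt_const zero_lt_one] with J hJ
  simp only [Function.comp] at hJ
  have e1 : ((3 : ℝ) ^ J) ^ a = r ^ J * ((3 : ℝ) ^ J) ^ b := by
    have e2 : r ^ J = ((3 : ℝ) ^ J) ^ (a - b) := by
      rw [hr, ← Real.rpow_natCast, ← Real.rpow_mul (by norm_num), ← Real.rpow_natCast, ← Real.rpow_mul (by norm_num)]
      congr 1
      ring
    rw [e2, ← Real.rpow_add (by positivity)]
    congr 1
    ring
  have hb0 : 0 < ((3 : ℝ) ^ J) ^ b := by positivity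
  have h3 : C * (((J : ℝ) + 1) ^ k * r ^ J) ≤ 1 := by
    refine le_trans (le_of_eq ?_) hJ.le
    push_cast
    rw [pow_succ]
    field_simp
  rw [e1]
  calc C * (((J : ℝ) + 1) ^ k * (r ^ J * ((3 : ℝ) ^ J) ^ b)) = C * (((J : ℝ) + 1) ^ k * r ^ J) * ((3 : ℝ) ^ J) ^ b := by ring
    _ ≤ 1 * ((3 : ℝ) ^ J) ^ b := mul_le_mul_of_nonneg_right h3 hb0.le
    _ = _ := one_mul _

lemma Vs_pos {s : ℕ} {c : Fin s → ℝ} (hc : ∀ i, 0 < c i) (hρ : 0 < sg c) : 0 < Vs c := by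
  have h1 := Vs_sg hc hρ
  have h2 : 0 < (∏ i, Real.Gamma (1 + 1 / c i)) / Real.Gamma (Pool.Agent.K7.H89.WE.sg c) := by
    apply div_pos
    · exact prod_pos fun i _ => Real.Gamma_pos_of_pos (by have := hc i; positivity)
    · exact Real.Gamma_pos_of_pos hρ
  rw [← h1] at h2
  exact (pos_iff_pos_of_mul_pos h2).2 hρ

/-- from scales to dyadic intervals -/
theorem small_of_good {s : ℕ} {c : Fin s → ℝ} (hc : ∀ i, 0 < c i) (hρ : 1 ≤ sg c) {η lam δ : ℝ} (hη : 0 ≤ η)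
    (hL : ∀ᶠ J : ℕ in atTop, ErrL J (((3 : ℝ) ^ J) ^ (-η)) c <
      (((3 : ℝ) ^ J) ^ (-η) / (3 : ℝ) ^ J) / ((J : ℝ) + 1))
    (hH : ∀ᶠ J : ℕ in atTop, ErrH J (((3 : ℝ) ^ J) ^ (-η)) c <
      ((J : ℝ) + 1) ^ (8 * s + 2) * ((3 : ℝ) ^ J) ^ (-lam))
    (hδ : δ < lam - 1 - η) : Small (UE c η) δ := by
  set ρ : ℝ := sg c with hρd
  have hV : 0 < Vs c := Vs_pos hc (by linarith)
  set c₀ : ℝ := Vs c * (ρ * (1 / 24) ^ (ρ - 1)) / 4 with hc₀
  have hc0 : 0 < c₀ := by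
    have h1 : 0 < ρ := by linarith
    positivity
  set a : ℝ := 2 - lam + η with ha
  set b : ℝ := (a + (1 - δ)) / 2 with hb
  have hab : a < b := by rw [hb]; linarith
  have hbd : b < 1 - δ := by rw [hb]; linarith
  -- the powers of three
  have hpow : Tendsto (fun J : ℕ => (3 : ℝ) ^ J) atTop atTop := tendsto_pow_atTop_atTop_of_one_lt (by norm_num)
  have hlin : Tendsto (fun J : ℕ => (J : ℝ) + 1) atTop atTop := tendsto_atTop_add_const_right _ _ tendsto_natCast_atTop_atTop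
  have hscale : ∀ᶠ J : ℕ in atTop, volume (UE c η ∩ Set.Icc ((3 : ℝ) ^ J / 12) ((3 : ℝ) ^ J / 2)) ≤
      ENNReal.ofReal (((3 : ℝ) ^ J) ^ b) := by
    filter_upwards [hL, hH, hpow.eventually_ge_atTop 12, hlin.eventually_ge_atTop (3 ^ s / c₀),
      poly_le (4 * (3 ^ s) ^ 2 / c₀ ^ 2) (8 * s + 2) hab] with J h1 h2 h3 h4 h5
    set T : ℝ := (3 : ℝ) ^ J with hTd
    have hT0 : 0 < T := by linarith
    set h : ℝ := T ^ (-η) with hh
    have hh0 : 0 < h := Real.rpow_pos_of_pos hT0 _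
    set y : ℝ := (J : ℝ) + 1 with hy
    have hy0 : 0 < y := by positivity
    have hPL := PL_le hc J
    have hPL0 := PL_pos J c
    have eT : T ^ ρ = T ^ (ρ - 1) * T := by rw [← Real.rpow_add_one hT0.ne', sub_add_cancel]
    have hTρ : 0 < T ^ (ρ - 1) := Real.rpow_pos_of_pos hT0 _
    have hLJ : PL J c * ErrL J h c ≤ c₀ * (h * T ^ (ρ - 1)) := by
      have h6 : PL J c * ErrL J h c ≤ (3 ^ s * T ^ ρ) * (h / T / y) :=
        mul_le_mul hPL h1.le (ErrL_nonneg _ _ _) (by positivity)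
      refine h6.trans ?_
      have e2 : 3 ^ s * T ^ ρ * (h / T / y) = (3 ^ s / y) * (h * T ^ (ρ - 1)) := by
        rw [eT]
        field_simp
      rw [e2]
      apply mul_le_mul_of_nonneg_right _ (by positivity)
      rw [div_le_iff₀ hc0] at h4
      rw [div_le_iff₀ hy0]
      linarith
    refine (scale_bad hc hρ hV hη hh h3 hc₀ hLJ).trans (ENNReal.ofReal_le_ofReal ?_)
    refine le_trans ?_ h5
    have h7 : PL J c ^ 2 * ErrH J h c ≤ (3 ^ s * T ^ ρ) ^ 2 * (y ^ (8 * s + 2) * T ^ (-lam)) :=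
      mul_le_mul (pow_le_pow_left₀ hPL0.le hPL 2) h2.le (ErrH_nonneg _ _ _) (by positivity)
    have e3 : T ^ a = T ^ (-lam) * T ^ 2 / h := by
      have e4 : T ^ (2 : ℕ) = T ^ (2 : ℝ) := by norm_cast
      rw [hh, Real.rpow_neg hT0.le η, div_inv_eq_mul, e4, ← Real.rpow_add hT0, ← Real.rpow_add hT0, ha]
      congr 1
      ring
    have h8 : 4 * h * (PL J c ^ 2 * ErrH J h c) / (c₀ * (h * T ^ (ρ - 1))) ^ 2 ≤
        4 * h * ((3 ^ s * T ^ ρ) ^ 2 * (y ^ (8 * s + 2) * T ^ (-lam))) / (c₀ * (h * T ^ (ρ - 1))) ^ 2 := by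
      gcongr
    refine h8.trans (le_of_eq ?_)
    rw [e3, eT]
    field_simp
  -- the dyadic intervals
  obtain ⟨J₀, hJ₀⟩ := eventually_atTop.1 hscale
  set C : ℝ := (12 : ℝ) ^ |b| with hC
  filter_upwards [const_le2 (C := C) (e := (1 - δ) - b) (by linarith),
    (tendsto_pow_atTop_atTop_of_one_lt (one_lt_two (α := ℝ))).eventually_ge_atTop ((3 : ℝ) ^ J₀)] with m h1 h2
  set X : ℝ := (2 : ℝ) ^ m with hX
  have hX1 : 1 ≤ X := one_le_pow₀ (by norm_num)
  have hX0 : 0 < X := by linarith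
  obtain ⟨n, hn1, hn2⟩ := exists_nat_pow_near (by linarith : 1 ≤ 4 * X) (by norm_num : (1 : ℝ) < 3)
  have hJ : J₀ ≤ n + 1 := by
    by_contra h3
    push Not at h3
    have h4 : (3 : ℝ) ^ (n + 1) ≤ 3 ^ J₀ := pow_le_pow_right₀ (by norm_num) h3.le
    linarith
  have h3 := hJ₀ (n + 1) hJ
  set T : ℝ := (3 : ℝ) ^ (n + 1) with hT
  have hTX : T ≤ 12 * X := by rw [hT, pow_succ]; linarith
  have hT0 : 0 < T := by positivity
  have hsub : UE c η ∩ Set.Icc ((2 : ℝ) ^ m) (2 ^ (m + 1)) ⊆ UE c η ∩ Set.Icc (T / 12) (T / 2) := by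
    rintro t ⟨ht, ht1, ht2⟩
    refine ⟨ht, ?_, ?_⟩
    · have : X ≤ t := ht1
      linarith
    · have : t ≤ 2 * X := by rw [hX]; rw [pow_succ] at ht2; linarith
      linarith
  refine (measure_mono hsub).trans (h3.trans (ENNReal.ofReal_le_ofReal ?_))
  have h4 : T ^ b ≤ C * X ^ b := by
    have h5 : T ^ b = (T / X) ^ b * X ^ b := by
      rw [← Real.mul_rpow (by positivity) hX0.le]
      congr 1
      field_simp
    rw [h5]
    apply mul_le_mul_of_nonneg_right _ (by positivity)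
    have h6 : 1 ≤ T / X := by rw [one_le_div hX0]; linarith
    have h7 : T / X ≤ 12 := by rw [div_le_iff₀ hX0]; linarith
    calc (T / X) ^ b ≤ (T / X) ^ |b| := Real.rpow_le_rpow_of_exponent_le h6 (le_abs_self b)
      _ ≤ 12 ^ |b| := Real.rpow_le_rpow (by linarith) h7 (abs_nonneg b)
  calc T ^ b ≤ C * X ^ b := h4
    _ ≤ X ^ ((1 - δ) - b) * X ^ b := mul_le_mul_of_nonneg_right h1 (by positivity)
    _ = X ^ (1 - δ) := by rw [← Real.rpow_add hX0]; congr 1; ring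

/-- small boxes with rational vertices -/
theorem rat_box {s : ℕ} {c : Fin s → ℝ} (hgt : ∀ i, 2 < c i) {g : ℝ} (hg : 0 < g) :
    ∃ (a b : Fin s → ℚ), Bx (fun i => (a i : ℝ)) (fun i => (b i : ℝ)) ∧ (∃ B : ℝ, 1 ≤ B ∧ ∀ i, (b i : ℝ) ≤ B) ∧
      sg c - g ≤ sg (fun i => (b i : ℝ)) ∧ ∀ i, c i ∈ Set.Ioc (a i : ℝ) (b i) := by
  set B : ℝ := 1 + ∑ i, c i with hB
  have hcB : ∀ i, c i + 1 ≤ B := fun i => by
    have := single_le_sum (f := c) (fun j _ => by linarith [hgt j] : ∀ j ∈ univ, 0 ≤ c j) (mem_univ i)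
    rw [hB]; linarith
  have hB0 : 1 ≤ B := by
    have : 0 ≤ ∑ i, c i := sum_nonneg fun j _ => by linarith [hgt j]
    rw [hB]; linarith
  obtain ⟨r, hr0, hr1, hr2⟩ : ∃ r : ℝ, 0 < r ∧ r ≤ 1 / 8 ∧ (s : ℝ) * r ≤ g := by
    have hs1 : (0 : ℝ) < (s : ℝ) + 1 := by positivity
    set m : ℝ := min (1 / 8) g with hm
    have hm0 : 0 < m := lt_min (by norm_num) hg
    have hsm : (s : ℝ) * (m / (s + 1)) ≤ m := by
      rw [mul_div_assoc', div_le_iff₀ hs1]
      nlinarith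
    refine ⟨m / (s + 1), by positivity, ?_, hsm.trans (min_le_right _ _)⟩
    have : m / (s + 1) ≤ m := div_le_self hm0.le (by linarith [(Nat.cast_nonneg s : (0 : ℝ) ≤ s)])
    exact this.trans (min_le_left _ _)
  have hex1 : ∀ i, ∃ q : ℚ, max 2 (c i - r) < q ∧ (q : ℝ) < c i := fun i =>
    exists_rat_btwn (max_lt (hgt i) (by linarith))
  have hex2 : ∀ i, ∃ q : ℚ, c i < q ∧ (q : ℝ) < c i + r := fun i => exists_rat_btwn (by linarith)
  choose a ha1 ha2 using hex1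
  choose b hb1 hb2 using hex2
  have ha3 : ∀ i, (2 : ℝ) < a i := fun i => (le_max_left _ _).trans_lt (ha1 i)
  have ha4 : ∀ i, c i - r < a i := fun i => (le_max_right _ _).trans_lt (ha1 i)
  have hlip : ∀ x y : ℝ, 2 ≤ x → 2 ≤ y → x ≤ y → 1 / x - 1 / y ≤ y - x := by
    intro x y hx hy hxy
    have e1 : 1 / x - 1 / y = (y - x) / (x * y) := by
      field_simp
    have e2 : 1 ≤ x * y := by nlinarith
    rw [e1, div_le_iff₀ (by linarith)]
    exact le_mul_of_one_le_right (by linarith) e2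
  have hsb : sg c - s * r ≤ sg (fun i => (b i : ℝ)) := by
    have : sg c - sg (fun i => (b i : ℝ)) ≤ s * r := by
      unfold sg
      rw [← sum_sub_distrib]
      have e1 : ∑ i : Fin s, (1 / c i - 1 / (b i : ℝ)) ≤ ∑ _i : Fin s, r := by
        apply sum_le_sum
        intro i _
        have := hlip (c i) (b i) (hgt i).le (by linarith [hgt i, hb1 i]) (hb1 i).le
        linarith [hb2 i]
      rw [sum_const, card_univ, Fintype.card_fin, nsmul_eq_mul] at e1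
      exact e1
    linarith
  have H : Bx (fun i => (a i : ℝ)) (fun i => (b i : ℝ)) := by
    refine ⟨fun i => (ha3 i).le, fun i => by linarith [ha2 i, hb1 i], fun i => ?_⟩
    linarith [ha4 i, hb2 i]
  exact ⟨a, b, H, ⟨B, hB0, fun i => by linarith [hcB i, hb2 i]⟩, by linarith, fun i => ⟨ha2 i, (hb1 i).le⟩⟩

/-- **the exceptional set for almost all exponents** -/
theorem base {s : ℕ} {η δ : ℝ} (hη : 0 ≤ η) :
    ∀ᵐ c : Fin s → ℝ, (∀ i, 2 ≤ c i) → δ < sg c - 1 - η → Small (UE c η) δ := by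
  rcases le_or_gt δ 0 with hδ0 | hδ0
  · refine Eventually.of_forall fun c _ _ => Eventually.of_forall fun m => ?_
    refine (measure_mono Set.inter_subset_right).trans ?_
    rw [Real.volume_Icc]
    apply ENNReal.ofReal_le_ofReal
    have h1 : (1 : ℝ) ≤ 2 ^ m := one_le_pow₀ (by norm_num)
    calc (2 : ℝ) ^ (m + 1) - 2 ^ m = ((2 : ℝ) ^ m) ^ (1 : ℝ) := by rw [Real.rpow_one]; ring
      _ ≤ _ := Real.rpow_le_rpow_of_exponent_le h1 (by linarith)
  have h1 : ∀ᵐ c : Fin s → ℝ, ∀ (a b : Fin s → ℚ),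
      (Bx (fun i => (a i : ℝ)) (fun i => (b i : ℝ)) ∧ (∃ B : ℝ, 1 ≤ B ∧ ∀ i, (b i : ℝ) ≤ B) ∧
        δ < sg (fun i => (b i : ℝ)) - 1 - η) →
      (∀ i, c i ∈ Set.Ioc (a i : ℝ) (b i)) → Small (UE c η) δ := by
    rw [ae_all_iff]; intro a
    rw [ae_all_iff]; intro b
    by_cases hcond : Bx (fun i => (a i : ℝ)) (fun i => (b i : ℝ)) ∧ (∃ B : ℝ, 1 ≤ B ∧ ∀ i, (b i : ℝ) ≤ B) ∧
        δ < sg (fun i => (b i : ℝ)) - 1 - η
    · obtain ⟨H, ⟨B, hB, hbB⟩, hs⟩ := hcond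
      have h3 : ∀ᵐ c ∂(mu (fun i => (a i : ℝ)) (fun i => (b i : ℝ))), (∀ i, c i ∈ Set.Ioc (a i : ℝ) (b i)) →
          Small (UE c η) δ := by
        filter_upwards [ae_errL H hB hbB (by linarith) η, ae_errH H η] with c hcL hcH hc2
        have hc0 : ∀ i, 0 < c i := fun i => by linarith [H.ha i, (hc2 i).1]
        have hbc : sg (fun i => (b i : ℝ)) ≤ sg c := by
          unfold sg
          apply sum_le_sum
          intro i _
          exact one_div_le_one_div_of_le (hc0 i) (hc2 i).2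
        exact small_of_good hc0 (by linarith) hη hcL hcH hs
      rw [mu_eq, ae_restrict_iff' (MeasurableSet.univ_pi fun _ => measurableSet_Ioc)] at h3
      filter_upwards [h3] with c hc _ hc2
      exact hc (fun i _ => hc2 i) hc2
    · exact Eventually.of_forall fun c h => absurd h hcond
  have h2 : ∀ᵐ c : Fin s → ℝ, ∀ i, c i ≠ 2 := by
    rw [ae_all_iff]
    intro i
    have h4 : ∀ᵐ x : ℝ, x ≠ 2 := compl_mem_ae_iff.2 (measure_singleton (2 : ℝ))
    rw [volume_pi]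
    exact (Measure.quasiMeasurePreserving_eval (fun _ : Fin s => (volume : Measure ℝ)) i).ae h4
  filter_upwards [h1, h2] with c hc hc2 hge hsg
  have hgt : ∀ i, 2 < c i := fun i => lt_of_le_of_ne (hge i) (hc2 i).symm
  obtain ⟨a, b, H, hB, hg, hmem⟩ := rat_box hgt (g := (sg c - 1 - η - δ) / 2) (by linarith)
  exact hc a b ⟨H, hB, by linarith⟩ hmem

end Pool.Agent.K7.H94.EW
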