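import Mathlib
import Pool.Agent.K7.H94.EW.Sml

set_option autoImplicit false

/-! One more variable doubles the saving; the exponent of the new variable is generic.
The argument for dilations is in `Pool.Agent.K7.H77.WG.Step`. -/

namespace Pool.Agent.K7.H94.EW
open MeasureTheory Set Filter Topology
open Pool.Agent.K7.H77.WG (Small Small_mono const_le const_le2)

/-- the measure of a preimage under an expanding map -/
theorem vol_pre {f f' : ℝ → ℝ} {a b L : ℝ} (hL : 0 < L) (hf : ∀ x, HasDerivAt f (f' x) x)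
    (hf' : ∀ x ∈ Ioc a b, L ≤ f' x) {V : Set ℝ} (hV : MeasurableSet V) :
    volume {x | x ∈ Ioc a b ∧ f x ∈ V} ≤ volume V * ENNReal.ofReal (1 / L) := by
  have hfc : Continuous f := continuous_iff_continuousAt.2 fun x => (hf x).continuousAt
  set A : Set ℝ := {x | x ∈ Ioc a b ∧ f x ∈ V} with hA
  have hAm : MeasurableSet A := measurableSet_Ioc.inter (hfc.measurable hV)
  have hinj : InjOn f (Ioc a b) := by
    apply StrictMonoOn.injOn
    apply strictMonoOn_of_deriv_pos (convex_Ioc a b) hfc.continuousOn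
    intro x hx
    rw [(hf x).deriv]
    exact hL.trans_le (hf' x (interior_subset hx))
  have h1 := lintegral_image_eq_lintegral_abs_deriv_mul hAm (fun x _ => (hf x).hasDerivWithinAt)
    (hinj.mono fun x hx => hx.1) (fun _ => 1)
  simp only [lintegral_const, MeasurableSet.univ, Measure.restrict_apply, univ_inter, one_mul, mul_one] at h1
  have h2 : ENNReal.ofReal L * volume A ≤ volume V := by
    calc ENNReal.ofReal L * volume A = ∫⁻ _ in A, ENNReal.ofReal L := by rw [setLIntegral_const]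
      _ ≤ ∫⁻ x in A, ENNReal.ofReal |f' x| := by
          apply setLIntegral_mono' hAm
          intro x hx
          exact ENNReal.ofReal_le_ofReal ((hf' x hx.1).trans (le_abs_self _))
      _ = volume (f '' A) := h1.symm
      _ ≤ volume V := by
          apply measure_mono
          rintro _ ⟨x, hx, rfl⟩
          exact hx.2
  have h3 : ENNReal.ofReal L * ENNReal.ofReal (1 / L) = 1 := by
    rw [← ENNReal.ofReal_mul hL.le, mul_one_div_cancel hL.ne', ENNReal.ofReal_one]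
  calc volume A = (ENNReal.ofReal L * ENNReal.ofReal (1 / L)) * volume A := by rw [h3, one_mul]
    _ = (ENNReal.ofReal L * volume A) * ENNReal.ofReal (1 / L) := by ring
    _ ≤ _ := by gcongr

/-- two shifted copies of a set -/
theorem two_shifts {V : Set ℝ} (hV : MeasurableSet V) {p q φ' : ℝ → ℝ} (hp : Measurable p) (hq : Measurable q) {a b L : ℝ}
    (hL : 0 < L) (hf : ∀ x, HasDerivAt (fun x => q x - p x) (φ' x) x) (hf' : ∀ x ∈ Ioc a b, L ≤ φ' x) :
    ∫⁻ c in Ioc a b, volume {t : ℝ | t - p c ∈ V ∧ t - q c ∈ V} ≤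
      volume V * volume V * ENNReal.ofReal (1 / L) := by
  have h1 : ∀ c : ℝ, volume {t : ℝ | t - p c ∈ V ∧ t - q c ∈ V} =
      ∫⁻ t, V.indicator (fun _ => (1:ENNReal)) t *
        V.indicator (fun _ => (1:ENNReal)) (t - (q c - p c)) := by
    intro c
    have hm : MeasurableSet {t : ℝ | t - p c ∈ V ∧ t - q c ∈ V} :=
      ((measurable_id.sub_const (p c)) hV).inter ((measurable_id.sub_const (q c)) hV)
    rw [← lintegral_indicator_one hm, ← lintegral_sub_right_eq_self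
      (fun t => V.indicator (fun _ => (1:ENNReal)) t *
        V.indicator (fun _ => (1:ENNReal)) (t - (q c - p c))) (p c)]
    apply lintegral_congr
    intro t
    have e : t - p c - (q c - p c) = t - q c := by ring
    rw [e]
    by_cases ha : t - p c ∈ V <;> by_cases hb : t - q c ∈ V <;>
      simp [Set.indicator, ha, hb]
  simp_rw [h1]
  have hind : Measurable (V.indicator (fun _ => (1:ENNReal))) := measurable_one.indicator hV
  rw [lintegral_lintegral_swap]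
  · have h2 : ∀ t : ℝ, ∫⁻ c in Ioc a b, V.indicator (fun _ => (1:ENNReal)) t *
        V.indicator (fun _ => (1:ENNReal)) (t - (q c - p c)) ≤
        V.indicator (fun _ => (1:ENNReal)) t * (volume V * ENNReal.ofReal (1 / L)) := by
      intro t
      have hcomp : Measurable (fun c : ℝ =>
          V.indicator (fun _ => (1:ENNReal)) (t - (q c - p c))) :=
        hind.comp (measurable_const.sub (hq.sub hp))
      rw [lintegral_const_mul _ hcomp]
      apply mul_le_mul_right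
      set V' : Set ℝ := (fun u => t - u) ⁻¹' V with hV'
      have hV'm : MeasurableSet V' := (measurable_const.sub measurable_id) hV
      have h3 : (fun c : ℝ => V.indicator (fun _ => (1:ENNReal)) (t - (q c - p c))) =
          ((fun c => q c - p c) ⁻¹' V').indicator 1 := by
        funext c
        by_cases ha : t - (q c - p c) ∈ V
        · have hb : c ∈ ((fun c => q c - p c) ⁻¹' V') := ha
          rw [indicator_of_mem ha, indicator_of_mem hb]; rfl
        · have hb : c ∉ ((fun c => q c - p c) ⁻¹' V') := ha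
          rw [indicator_of_notMem ha, indicator_of_notMem hb]
      have hm2 : MeasurableSet ((fun c => q c - p c) ⁻¹' V') := (hq.sub hp) hV'm
      rw [h3, lintegral_indicator_one hm2, Measure.restrict_apply hm2]
      have h4 := vol_pre hL hf hf' hV'm
      have e5 : volume V' = volume V :=
        (volume.measurePreserving_sub_left t).measure_preimage hV.nullMeasurableSet
      rw [e5] at h4
      refine le_trans (measure_mono ?_) h4
      rintro x ⟨hx1, hx2⟩
      exact ⟨hx2, hx1⟩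
    refine (lintegral_mono h2).trans ?_
    have hVint : ∫⁻ a, V.indicator (fun _ => (1:ENNReal)) a = volume V := by
      rw [lintegral_indicator hV, setLIntegral_const, one_mul]
    rw [lintegral_mul_const _ hind, hVint, mul_assoc]
  · apply Measurable.aemeasurable
    exact (hind.comp measurable_snd).mul
      (hind.comp (measurable_snd.sub ((hq.comp measurable_fst).sub (hp.comp measurable_fst))))

/-- two primes -/
theorem two_primes {a b : ℝ} (ha : 2 ≤ a) (hab : a < b) : ∀ᶠ X : ℝ in atTop, ∃ r : ℕ × ℕ, r.1.Prime ∧ r.2.Prime ∧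
    2 * (r.1 : ℝ) ≤ r.2 ∧ (r.2 : ℝ) ^ b ≤ X / 2 ∧ (X / 2) ^ (1 / b) / 4 ≤ r.2 := by
  have hb : 0 < b := by linarith
  have h1 : Tendsto (fun X : ℝ => (X / 2) ^ (1 / b)) atTop atTop :=
    (tendsto_rpow_atTop (by positivity : 0 < 1 / b)).comp (tendsto_id.atTop_div_const (by norm_num))
  filter_upwards [h1.eventually_ge_atTop 16, eventually_gt_atTop 0] with X h2 hX
  set Y : ℝ := (X / 2) ^ (1 / b) with hY
  set n : ℕ := ⌊Y / 8⌋₊ with hn
  have hn1 : (n : ℝ) ≤ Y / 8 := Nat.floor_le (by linarith)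
  have hn2 : Y / 8 < n + 1 := Nat.lt_floor_add_one _
  have hn0 : n ≠ 0 := by
    intro h
    rw [h] at hn2
    norm_num at hn2
    linarith
  obtain ⟨p, hp, hp1, hp2⟩ := Nat.exists_prime_lt_and_le_two_mul n hn0
  obtain ⟨q, hq, hq1, hq2⟩ := Nat.exists_prime_lt_and_le_two_mul (4 * n) (by omega)
  have e1 : (p : ℝ) ≤ 2 * n := by exact_mod_cast hp2
  have e2 : (4 * n : ℝ) < q := by exact_mod_cast hq1
  have e3 : (q : ℝ) ≤ 2 * (4 * n) := by exact_mod_cast hq2
  refine ⟨(p, q), hp, hq, by show 2 * (p : ℝ) ≤ q; linarith, ?_, ?_⟩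
  · show (q : ℝ) ^ b ≤ X / 2
    calc (q : ℝ) ^ b ≤ Y ^ b := Real.rpow_le_rpow (by positivity) (by linarith) hb.le
      _ = X / 2 := by
        rw [hY, ← Real.rpow_mul (by positivity), one_div_mul_cancel hb.ne', Real.rpow_one]
  · show Y / 4 ≤ (q : ℝ)
    linarith

/-- the derivative -/
theorem deriv_low {p q a b c : ℝ} (ha : 2 ≤ a) (hc : c ∈ Ioc a b) (hp : 1 ≤ p) (hpq : 2 * p ≤ q) :
    1 / 2 * q ^ a ≤ q ^ c * Real.log q - p ^ c * Real.log p := by
  have hq : 2 ≤ q := by linarith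
  have h1 : p ^ c ≤ q ^ c / 4 := by
    have e1 : p ^ c ≤ (q / 2) ^ c := Real.rpow_le_rpow (by linarith) (by linarith) (by linarith [hc.1])
    have e2 : (q / 2) ^ c = q ^ c / 2 ^ c := Real.div_rpow (by linarith) (by norm_num) _
    have e3 : (4 : ℝ) ≤ 2 ^ c := by
      calc (4 : ℝ) = 2 ^ (2 : ℝ) := by norm_num
        _ ≤ 2 ^ c := Real.rpow_le_rpow_of_exponent_le (by norm_num) (by linarith [hc.1])
    have e4 : 0 < q ^ c := Real.rpow_pos_of_pos (by linarith) _
    rw [e2] at e1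
    exact e1.trans (div_le_div_of_nonneg_left e4.le (by norm_num) e3)
  have h2 : Real.log p ≤ Real.log q := Real.log_le_log (by linarith) (by linarith)
  have h3 : 0 ≤ Real.log p := Real.log_nonneg hp
  have h4 : 0.69 ≤ Real.log q := by
    have := Real.log_two_gt_d9
    have h5 : Real.log 2 ≤ Real.log q := Real.log_le_log (by norm_num) hq
    linarith
  have h5 : q ^ a ≤ q ^ c := Real.rpow_le_rpow_of_exponent_le (by linarith) hc.1.le
  have h6 : 0 < q ^ a := Real.rpow_pos_of_pos (by linarith) _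
  have h7 : p ^ c * Real.log p ≤ q ^ c / 4 * Real.log q := mul_le_mul h1 h2 h3 (by linarith)
  nlinarith

/-- the numbers `t` for which all `t - p ^ c`, if they are at least `t / 2`, lie in `V` -/
def Vst (V : Set ℝ) (c : ℝ) : Set ℝ :=
  {t | ∀ p : ℕ, p.Prime → (p : ℝ) ^ c ≤ t / 2 → t - (p : ℝ) ^ c ∈ V}

theorem one_dim {V : Set ℝ} (hV : MeasurableSet V) {δ' δ : ℝ} (hS : Small V δ') {a b : ℝ} (ha : 2 ≤ a) (hab : a < b)
    (hδ : δ + (1 - a / b) < 2 * δ') : ∀ᵐ c : ℝ, c ∈ Ioc a b → Small (Vst V c) δ := by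
  have hb0 : 0 < b := by linarith
  have ha0 : 0 < a := by linarith
  -- choice of the two primes
  have hch : ∀ᶠ m : ℕ in atTop, ∃ r : ℕ × ℕ, r.1.Prime ∧ r.2.Prime ∧
    2 * (r.1 : ℝ) ≤ r.2 ∧ (r.2 : ℝ) ^ b ≤ (2 : ℝ) ^ m / 2 ∧ ((2 : ℝ) ^ m / 2) ^ (1 / b) / 4 ≤ r.2 :=
    (tendsto_pow_atTop_atTop_of_one_lt (one_lt_two (α := ℝ))).eventually (two_primes ha hab)
  obtain ⟨pp, hpp⟩ := hch.choice
  -- the set at one scale
  set C₁ : ℝ := ((1:ℝ) / 2) ^ (1 - δ') + 1 with hC₁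
  have hC₁0 : 0 < C₁ := by positivity
  have hVm : ∀ᶠ m : ℕ in atTop, volume (V ∩ Icc ((2:ℝ) ^ m / 2) (2 ^ (m + 1))) ≤
      ENNReal.ofReal (C₁ * ((2:ℝ) ^ m) ^ (1 - δ')) := by
    have h' : ∀ᶠ m : ℕ in atTop, volume (V ∩ Icc ((2:ℝ) ^ (m-1)) (2 ^ (m - 1 + 1))) ≤
        ENNReal.ofReal (((2:ℝ) ^ (m-1)) ^ (1 - δ')) :=
      (tendsto_sub_atTop_nat 1).eventually hS
    filter_upwards [hS, h', eventually_ge_atTop 1] with m h1 h2 h3
    have e1 : m - 1 + 1 = m := by omega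
    rw [e1] at h2
    have e2 : (2:ℝ) ^ (m - 1) = 2 ^ m / 2 := by
      rw [← e1, pow_succ, Nat.add_sub_cancel]; ring
    rw [e2] at h2
    have hsub : V ∩ Icc ((2:ℝ) ^ m / 2) (2 ^ (m + 1)) ⊆
        (V ∩ Icc ((2:ℝ) ^ m / 2) (2 ^ m)) ∪ (V ∩ Icc ((2:ℝ) ^ m) (2 ^ (m + 1))) := by
      rintro t ⟨ht, ht1, ht2⟩
      rcases le_total t (2 ^ m) with h | h
      · exact Or.inl ⟨ht, ht1, h⟩
      · exact Or.inr ⟨ht, h, ht2⟩
    refine (measure_mono hsub).trans ((measure_union_le _ _).trans ((add_le_add h2 h1).trans ?_))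
    rw [← ENNReal.ofReal_add (by positivity) (by positivity)]
    apply ENNReal.ofReal_le_ofReal
    rw [hC₁, add_mul, one_mul]
    apply add_le_add _ le_rfl
    rw [← Real.mul_rpow (by norm_num) (by positivity)]
    apply le_of_eq
    congr 1; ring
  -- the bad exponents
  set e : ℝ := 2 * δ' - δ - (1 - a / b) with he
  have he0 : 0 < e := by linarith
  set Vm : ℕ → Set ℝ := fun m => V ∩ Icc ((2:ℝ) ^ m / 2) (2 ^ (m + 1)) with hVmdef
  have hVmm : ∀ m, MeasurableSet (Vm m) := fun m => hV.inter measurableSet_Icc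
  set P : ℕ → ℝ → ℝ := fun m c => ((pp m).1 : ℝ) ^ c with hP
  set Q : ℕ → ℝ → ℝ := fun m c => ((pp m).2 : ℝ) ^ c with hQ
  have hPm : ∀ m, Measurable (P m) := fun m => measurable_const.pow measurable_id
  have hQm : ∀ m, Measurable (Q m) := fun m => measurable_const.pow measurable_id
  set F : ℕ → ℝ → ENNReal := fun m c =>
    volume {t : ℝ | t - P m c ∈ Vm m ∧ t - Q m c ∈ Vm m} with hF
  have hFm : ∀ m, Measurable (F m) := by
    intro m
    have : MeasurableSet {p : ℝ × ℝ | p.2 - P m p.1 ∈ Vm m ∧ p.2 - Q m p.1 ∈ Vm m} :=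
      ((measurable_snd.sub ((hPm m).comp measurable_fst)) (hVmm m)).inter
        ((measurable_snd.sub ((hQm m).comp measurable_fst)) (hVmm m))
    exact measurable_measure_prodMk_left this
  set D : ℝ := 1 / 2 * (1 / 4) ^ a * (1 / 2) ^ (a / b) with hD
  have hD0 : 0 < D := by positivity
  set ν : Measure ℝ := volume.restrict (Ioc a b) with hν
  have hbad : ∀ᶠ m : ℕ in atTop, ν {c : ℝ | ENNReal.ofReal (((2:ℝ) ^ m) ^ (1 - δ)) ≤ F m c} ≤
      ENNReal.ofReal (C₁ ^ 2 / D * ((2:ℝ) ^ m) ^ (-e)) := by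
    filter_upwards [hpp, hVm] with m h1 h2
    obtain ⟨g1, g2, g3, g4, g5⟩ := h1
    have h2m : (0:ℝ) < 2 ^ m := by positivity
    have hlam : 0 < ((2:ℝ) ^ m) ^ (1 - δ) := Real.rpow_pos_of_pos h2m _
    have hne : ENNReal.ofReal (((2:ℝ) ^ m) ^ (1 - δ)) ≠ 0 := (ENNReal.ofReal_pos.mpr hlam).ne'
    have hp1 : (1 : ℝ) ≤ (pp m).1 := by exact_mod_cast g1.one_lt.le
    have hq1 : (0 : ℝ) < (pp m).2 := by exact_mod_cast g2.pos
    refine (meas_ge_le_lintegral_div (hFm m).aemeasurable hne ENNReal.ofReal_ne_top).trans ?_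
    rw [ENNReal.div_le_iff hne ENNReal.ofReal_ne_top]
    have hDX : D * ((2 : ℝ) ^ m) ^ (a / b) ≤ 1 / 2 * ((pp m).2 : ℝ) ^ a := by
      have e1 : (((2 : ℝ) ^ m / 2) ^ (1 / b) / 4) ^ a = (1 / 4) ^ a * (1 / 2) ^ (a / b) * ((2 : ℝ) ^ m) ^ (a / b) := by
        rw [div_eq_mul_one_div _ (4 : ℝ), Real.mul_rpow (by positivity) (by norm_num), ← Real.rpow_mul (by positivity),
          div_eq_mul_one_div ((2 : ℝ) ^ m) (2 : ℝ), Real.mul_rpow (by positivity) (by norm_num)]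
        have e2 : 1 / b * a = a / b := by ring
        rw [e2]
        ring
      have e3 : (((2 : ℝ) ^ m / 2) ^ (1 / b) / 4) ^ a ≤ ((pp m).2 : ℝ) ^ a :=
        Real.rpow_le_rpow (by positivity) g5 ha0.le
      rw [e1] at e3
      rw [hD]
      linarith
    have hLp : 0 < D * ((2 : ℝ) ^ m) ^ (a / b) := by positivity
    have hts := two_shifts (hVmm m) (hPm m) (hQm m) (a := a) (b := b) hLp
      (φ' := fun c => ((pp m).2 : ℝ) ^ c * Real.log (pp m).2 - ((pp m).1 : ℝ) ^ c * Real.log (pp m).1)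
      (fun x => (Real.hasStrictDerivAt_const_rpow hq1 x).hasDerivAt.sub
        (Real.hasStrictDerivAt_const_rpow (by linarith) x).hasDerivAt)
      (fun x hx => hDX.trans (deriv_low ha hx hp1 g3))
    refine hts.trans ?_
    calc volume (Vm m) * volume (Vm m) * ENNReal.ofReal (1 / (D * ((2 : ℝ) ^ m) ^ (a / b)))
        ≤ ENNReal.ofReal (C₁ * ((2:ℝ) ^ m) ^ (1 - δ')) *
          ENNReal.ofReal (C₁ * ((2:ℝ) ^ m) ^ (1 - δ')) * ENNReal.ofReal (1 / (D * ((2 : ℝ) ^ m) ^ (a / b))) := by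
          gcongr
      _ = ENNReal.ofReal (C₁ * ((2:ℝ) ^ m) ^ (1 - δ') * (C₁ * ((2:ℝ) ^ m) ^ (1 - δ')) *
          (1 / (D * ((2 : ℝ) ^ m) ^ (a / b)))) := by
          rw [← ENNReal.ofReal_mul (by positivity), ← ENNReal.ofReal_mul (by positivity)]
      _ = ENNReal.ofReal (C₁ ^ 2 / D * ((2:ℝ) ^ m) ^ (-e) * ((2:ℝ) ^ m) ^ (1 - δ)) := by
          congr 1
          have e1 : ((2:ℝ) ^ m) ^ (1 - δ') * ((2:ℝ) ^ m) ^ (1 - δ') =
              ((2:ℝ) ^ m) ^ (-e) * ((2:ℝ) ^ m) ^ (1 - δ) * ((2 : ℝ) ^ m) ^ (a / b) := by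
            rw [← Real.rpow_add h2m, ← Real.rpow_add h2m, ← Real.rpow_add h2m]
            congr 1
            rw [he]; ring
          have hab0 : 0 < ((2 : ℝ) ^ m) ^ (a / b) := by positivity
          calc C₁ * ((2:ℝ) ^ m) ^ (1 - δ') * (C₁ * ((2:ℝ) ^ m) ^ (1 - δ')) * (1 / (D * ((2 : ℝ) ^ m) ^ (a / b)))
              = C₁ ^ 2 * (((2:ℝ) ^ m) ^ (1 - δ') * ((2:ℝ) ^ m) ^ (1 - δ')) *
                (1 / (D * ((2 : ℝ) ^ m) ^ (a / b))) := by ring
            _ = _ := by rw [e1]; field_simp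
      _ = _ := by rw [ENNReal.ofReal_mul (by positivity)]
  -- Borel-Cantelli
  have hsum : ∃ m0 : ℕ, ∑' m : ℕ, ν {c : ℝ |
      ENNReal.ofReal (((2:ℝ) ^ (m + m0)) ^ (1 - δ)) ≤ F (m + m0) c} ≠ ⊤ := by
    obtain ⟨m0, hm0⟩ := eventually_atTop.mp hbad
    refine ⟨m0, ?_⟩
    have h1 : ∀ m : ℕ, ν {c : ℝ |
        ENNReal.ofReal (((2:ℝ) ^ (m + m0)) ^ (1 - δ)) ≤ F (m + m0) c} ≤
        ENNReal.ofReal (C₁ ^ 2 / D * ((2:ℝ) ^ (-e)) ^ m0 * ((2:ℝ) ^ (-e)) ^ m) := by
      intro m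
      refine (hm0 (m + m0) (by omega)).trans (le_of_eq ?_)
      congr 1
      have e1 : ((2:ℝ) ^ (m + m0)) ^ (-e) = ((2:ℝ) ^ (-e)) ^ (m + m0) := by
        rw [← Real.rpow_natCast 2 (m + m0), ← Real.rpow_mul (by norm_num),
          ← Real.rpow_natCast ((2:ℝ) ^ (-e)) (m + m0), ← Real.rpow_mul (by norm_num)]
        congr 1; ring
      rw [e1, pow_add]; ring
    refine ne_top_of_le_ne_top ?_ (ENNReal.tsum_le_tsum h1)
    have hr1 : (2:ℝ) ^ (-e) < 1 := Real.rpow_lt_one_of_one_lt_of_neg one_lt_two (by linarith)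
    have hs : Summable (fun m : ℕ => C₁ ^ 2 / D * ((2:ℝ) ^ (-e)) ^ m0 * ((2:ℝ) ^ (-e)) ^ m) :=
      (summable_geometric_of_lt_one (by positivity) hr1).mul_left _
    exact hs.tsum_ofReal_ne_top
  obtain ⟨m0, hm0⟩ := hsum
  have hae := ae_eventually_notMem hm0
  rw [hν, ae_restrict_iff' measurableSet_Ioc] at hae
  filter_upwards [hae] with c hc hcab
  obtain ⟨m1, hm1⟩ := eventually_atTop.mp (hc hcab)
  filter_upwards [hpp, eventually_ge_atTop (m1 + m0)] with m h1 hm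
  have h3 := hm1 (m - m0) (by omega)
  rw [Nat.sub_add_cancel (by omega)] at h3
  have h4 : F m c < ENNReal.ofReal (((2:ℝ) ^ m) ^ (1 - δ)) := by
    by_contra hcon
    push Not at hcon
    exact h3 hcon
  refine le_trans (measure_mono ?_) h4.le
  obtain ⟨g1, g2, g3, g4, g5⟩ := h1
  have h2m : (0:ℝ) < 2 ^ m := by positivity
  have hp1 : (1 : ℝ) ≤ (pp m).1 := by exact_mod_cast g1.one_lt.le
  have hq1 : (1 : ℝ) ≤ (pp m).2 := by exact_mod_cast g2.one_lt.le
  rintro t ⟨ht, ht1, ht2⟩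
  have key : ∀ y : ℕ, y.Prime → (y : ℝ) ≤ (pp m).2 → t - (y : ℝ) ^ c ∈ Vm m := by
    intro y hy1 hy2
    have hy3 : (1 : ℝ) ≤ y := by exact_mod_cast hy1.one_lt.le
    have h5 : (y : ℝ) ^ c ≤ 2 ^ m / 2 := by
      calc (y : ℝ) ^ c ≤ ((pp m).2 : ℝ) ^ c := Real.rpow_le_rpow (by linarith) hy2 (by linarith [hcab.1])
        _ ≤ ((pp m).2 : ℝ) ^ b := Real.rpow_le_rpow_of_exponent_le hq1 hcab.2
        _ ≤ _ := g4
    have h6 : 0 ≤ (y : ℝ) ^ c := by positivity
    exact ⟨ht y hy1 (by linarith), by constructor <;> linarith⟩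
  show t - P m c ∈ Vm m ∧ t - Q m c ∈ Vm m
  exact ⟨key _ g1 (by linarith), key _ g2 le_rfl⟩

theorem one_dim2 {V : Set ℝ} (hV : MeasurableSet V) {δ' δ : ℝ} (hS : Small V δ') (hδ : δ < 2 * δ') :
    ∀ᵐ c : ℝ, 2 ≤ c → Small (Vst V c) δ := by
  have h1 : ∀ᵐ c : ℝ, ∀ (a b : ℚ), (2 ≤ (a : ℝ) ∧ (a : ℝ) < b ∧ δ + (1 - (a : ℝ) / b) < 2 * δ') →
      c ∈ Ioc (a : ℝ) b → Small (Vst V c) δ := by
    rw [ae_all_iff]; intro a
    rw [ae_all_iff]; intro b
    by_cases hcond : 2 ≤ (a : ℝ) ∧ (a : ℝ) < b ∧ δ + (1 - (a : ℝ) / b) < 2 * δ'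
    · filter_upwards [one_dim hV hS hcond.1 hcond.2.1 hcond.2.2] with c hc _
      exact hc
    · exact Eventually.of_forall fun c h => absurd h hcond
  have h4 : ∀ᵐ x : ℝ, x ≠ 2 := compl_mem_ae_iff.2 (measure_singleton (2 : ℝ))
  filter_upwards [h1, h4] with c hc hc2 hge
  have hgt : 2 < c := lt_of_le_of_ne hge (Ne.symm hc2)
  set e : ℝ := 2 * δ' - δ with he
  have he0 : 0 < e := by linarith
  obtain ⟨a, ha1, ha2⟩ := exists_rat_btwn (max_lt hgt (by linarith : c - e / 2 < c))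
  obtain ⟨b, hb1, hb2⟩ := exists_rat_btwn (by linarith : c < c + e / 2)
  have ha3 : 2 < (a : ℝ) := (le_max_left _ _).trans_lt ha1
  have ha4 : c - e / 2 < a := (le_max_right _ _).trans_lt ha1
  refine hc a b ⟨ha3.le, by linarith, ?_⟩ ⟨ha2, hb1.le⟩
  have hb0 : (0 : ℝ) < b := by linarith
  have e1 : 1 - (a : ℝ) / b < e := by
    rw [sub_lt_iff_lt_add, ← sub_lt_iff_lt_add', lt_div_iff₀ hb0]
    nlinarith
  linarith

end Pool.Agent.K7.H94.EW
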