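import Mathlib
import Pool.Agent.K7.H94.EW.Step

set_option autoImplicit false

/-! The induction on the number of additional variables, for generic exponents.
The argument for dilations is in `Pool.Agent.K7.H77.WG.Ind`. -/

namespace Pool.Agent.K7.H94.EW
open MeasureTheory Set Filter Topology
open Pool.Agent.K7.H77.WG (Small Small_mono const_le const_le2)

theorem sp_meas {s : ℕ} (x : Fin s → ℕ) : Measurable fun c : Fin s → ℝ => sp c x := by
  unfold sp
  exact Finset.measurable_fun_sum _ fun i _ => measurable_const.pow (measurable_pi_apply i)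

theorem UE_meas2 (s : ℕ) (η : ℝ) : MeasurableSet {p : (Fin s → ℝ) × ℝ | p.2 ∈ UE p.1 η} := by
  have e : {p : (Fin s → ℝ) × ℝ | p.2 ∈ UE p.1 η} =
      {p | 1 ≤ p.2} ∩ ⋂ x : Fin s → ℕ, ⋂ _ : ∀ i, (x i).Prime, {p | p.2 ^ (-η) ≤ |sp p.1 x - p.2|} := by
    ext p
    simp [UE]
  rw [e]
  refine (measurableSet_le measurable_const measurable_snd).inter
    (MeasurableSet.iInter (fun x => MeasurableSet.iInter fun _ => measurableSet_le (measurable_snd.pow_const _) ?_))
  have h1 : Measurable fun p : (Fin s → ℝ) × ℝ => sp p.1 x - p.2 := ((sp_meas x).comp measurable_fst).sub measurable_snd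
  exact h1.abs

theorem UE_meas {s : ℕ} (c : Fin s → ℝ) (η : ℝ) : MeasurableSet (UE c η) := by
  have h := UE_meas2 s η
  exact (measurable_prodMk_left (x := c)) h

theorem Small_meas (s : ℕ) (η δ : ℝ) :
    MeasurableSet {c : Fin s → ℝ | Small (UE c η) δ} := by
  have e : {c : Fin s → ℝ | Small (UE c η) δ} = ⋃ m0 : ℕ, ⋂ m : ℕ, ⋂ (_ : m0 ≤ m),
      {c | volume (UE c η ∩ Icc ((2:ℝ) ^ m) (2 ^ (m + 1))) ≤
        ENNReal.ofReal (((2:ℝ) ^ m) ^ (1 - δ))} := by
    ext c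
    simp [Pool.Agent.K7.H77.WG.Small, eventually_atTop]
  rw [e]
  refine MeasurableSet.iUnion (fun m0 => MeasurableSet.iInter (fun m => MeasurableSet.iInter
    (fun _ => measurableSet_le ?_ measurable_const)))
  have h : MeasurableSet ({p : (Fin s → ℝ) × ℝ | p.2 ∈ UE p.1 η} ∩
      {p | p.2 ∈ Icc ((2:ℝ) ^ m) (2 ^ (m + 1))}) :=
    (UE_meas2 s η).inter (measurable_snd measurableSet_Icc)
  exact measurable_measure_prodMk_left h

lemma sp_snoc {s : ℕ} (c : Fin s → ℝ) (d : ℝ) (x : Fin s → ℕ) (p : ℕ) :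
    sp (Fin.snoc c d : Fin (s+1) → ℝ) (Fin.snoc x p : Fin (s+1) → ℕ) = sp c x + (p : ℝ) ^ d := by
  unfold sp
  rw [Fin.sum_univ_castSucc]
  simp only [Fin.snoc_castSucc, Fin.snoc_last]

/-- **One more variable.** -/
theorem step {s : ℕ} {A : (Fin s → ℝ) → ℝ} (hA : Measurable A) {κ : ℝ} (hκ : 0 ≤ κ)
    (h : ∀ η δ : ℝ, 0 ≤ η → ∀ᵐ c : Fin s → ℝ, (∀ i, 2 ≤ c i) → δ < A c - κ * η → Small (UE c η) δ) :
    ∀ η δ : ℝ, 0 ≤ η → ∀ᵐ c : Fin (s+1) → ℝ, (∀ i, 2 ≤ c i) →
      δ < 2 * A (fun i => c i.castSucc) - 2 * κ * η → Small (UE c η) δ := by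
  intro η δ hη
  have hbase : ∀ᵐ c : Fin s → ℝ, ∀ q r : ℚ, 0 ≤ (q : ℝ) → (∀ i, 2 ≤ c i) → (r : ℝ) < A c - κ * q → Small (UE c q) r := by
    rw [ae_all_iff]; intro q
    rw [ae_all_iff]; intro r
    by_cases hq : 0 ≤ (q : ℝ)
    · filter_upwards [h q r hq] with c hc _
      exact hc
    · exact Eventually.of_forall fun c h => absurd h hq
  -- the statement on the product
  have hpr : ∀ᵐ c : Fin s → ℝ, ∀ᵐ d : ℝ, (∀ i, 2 ≤ c i) → 2 ≤ d → δ < 2 * A c - 2 * κ * η →
      Small (UE (Fin.snoc c d : Fin (s+1) → ℝ) η) δ := by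
    filter_upwards [hbase] with c hc
    by_cases hcond : (∀ i, 2 ≤ c i) ∧ δ < 2 * A c - 2 * κ * η
    · obtain ⟨hpos, hδ⟩ := hcond
      set g : ℝ := A c - κ * η - δ / 2 with hg
      have hg0 : 0 < g := by rw [hg]; linarith
      have hgk : 0 < g / (2 * (κ + 1)) := by positivity
      obtain ⟨η', h1, h1'⟩ := exists_rat_btwn (by linarith : η < η + g / (2 * (κ + 1)))
      obtain ⟨δ', h2, h2'⟩ := exists_rat_btwn (by linarith : δ / 2 < δ / 2 + g / 4)
      have hη'0 : 0 ≤ (η' : ℝ) := by linarith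
      have h3 : (δ' : ℝ) < A c - κ * η' := by
        have h4 : κ * (g / (2 * (κ + 1))) ≤ g / 2 := by
          rw [mul_div_assoc', div_le_div_iff₀ (by positivity) (by norm_num)]
          nlinarith
        have h5 : κ * η' ≤ κ * (η + g / (2 * (κ + 1))) := mul_le_mul_of_nonneg_left h1'.le hκ
        rw [mul_add] at h5
        linarith
      have h5 := one_dim2 (UE_meas _ _) (hc η' δ' hη'0 hpos h3) (by linarith : δ < 2 * δ')
      filter_upwards [h5] with d hd _ hd2 _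
      have hgap : ∀ᶠ t : ℝ in atTop, (2:ℝ) ^ (η' : ℝ) ≤ t ^ ((η' : ℝ) - η) := const_le (by linarith)
      obtain ⟨t₀, ht₀⟩ := eventually_atTop.mp hgap
      refine Small_mono (t₀ := max t₀ 2) ?_ (hd hd2)
      rintro t ht ⟨ht1, ht2⟩ p hp hpt
      have hty := ht₀ t ((le_max_left _ _).trans ht)
      have ht3 : 2 ≤ t := (le_max_right _ _).trans ht
      have ht0 : 0 < t := by linarith
      set u : ℝ := t - (p : ℝ) ^ d with hu
      have hu1 : t / 2 ≤ u := by rw [hu]; linarith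
      have hu0 : 0 < u := by linarith
      refine ⟨by linarith, fun x hx => ?_⟩
      have h6 := ht2 (Fin.snoc x p) (fun i => by
        refine Fin.lastCases ?_ (fun j => ?_) i
        · rw [Fin.snoc_last]; exact hp
        · rw [Fin.snoc_castSucc]; exact hx j)
      rw [sp_snoc] at h6
      have h7 : sp c x + (p : ℝ) ^ d - t = sp c x - u := by rw [hu]; ring
      rw [h7] at h6
      refine le_trans ?_ h6
      calc u ^ (-(η' : ℝ)) ≤ (t / 2) ^ (-(η' : ℝ)) :=
            Real.rpow_le_rpow_of_nonpos (by positivity) hu1 (by linarith)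
        _ = 2 ^ (η' : ℝ) * t ^ (-(η' : ℝ)) := by
          rw [Real.div_rpow ht0.le (by norm_num), Real.rpow_neg (by norm_num : (0:ℝ) ≤ 2),
            div_inv_eq_mul]
          ring
        _ ≤ t ^ ((η' : ℝ) - η) * t ^ (-(η' : ℝ)) := by gcongr
        _ = t ^ (-η) := by rw [← Real.rpow_add ht0]; congr 1; ring
    · exact Eventually.of_forall (fun β hp _ hδ => absurd ⟨hp, hδ⟩ hcond)
  -- Fubini
  set e := MeasurableEquiv.piFinSuccAbove (fun _ : Fin (s+1) => ℝ) (Fin.last s) with he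
  have hmp : MeasurePreserving e volume volume :=
    volume_preserving_piFinSuccAbove (fun _ : Fin (s+1) => ℝ) (Fin.last s)
  have hms : MeasurableSet {p : ℝ × (Fin s → ℝ) | (∀ i, 2 ≤ p.2 i) → 2 ≤ p.1 → δ < 2 * A p.2 - 2 * κ * η →
      Small (UE (Fin.snoc p.2 p.1 : Fin (s+1) → ℝ) η) δ} := by
    have hsn : Measurable (fun p : ℝ × (Fin s → ℝ) => (Fin.snoc p.2 p.1 : Fin (s+1) → ℝ)) := by
      rw [measurable_pi_iff]
      intro i
      refine Fin.lastCases ?_ (fun j => ?_) i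
      · simp only [Fin.snoc_last]; exact measurable_fst
      · simp only [Fin.snoc_castSucc]; fun_prop
    have m1 : MeasurableSet {p : ℝ × (Fin s → ℝ) | ∀ i, 2 ≤ p.2 i} := by
      have e1 : {p : ℝ × (Fin s → ℝ) | ∀ i, 2 ≤ p.2 i} = ⋂ i, {p | 2 ≤ p.2 i} := by
        ext p; simp
      rw [e1]
      exact MeasurableSet.iInter (fun i => measurableSet_le measurable_const (by fun_prop))
    have m2 : MeasurableSet {p : ℝ × (Fin s → ℝ) | 2 ≤ p.1} :=
      measurableSet_le measurable_const measurable_fst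
    have m4 : MeasurableSet {p : ℝ × (Fin s → ℝ) | δ < 2 * A p.2 - 2 * κ * η} :=
      measurableSet_lt measurable_const (((hA.comp measurable_snd).const_mul 2).sub_const _)
    have m3 : MeasurableSet {p : ℝ × (Fin s → ℝ) | Small (UE (Fin.snoc p.2 p.1 : Fin (s+1) → ℝ) η) δ} :=
      hsn (Small_meas (s+1) η δ)
    have e2 : {p : ℝ × (Fin s → ℝ) | (∀ i, 2 ≤ p.2 i) → 2 ≤ p.1 → δ < 2 * A p.2 - 2 * κ * η →
      Small (UE (Fin.snoc p.2 p.1 : Fin (s+1) → ℝ) η) δ} = {p | ∀ i, 2 ≤ p.2 i}ᶜ ∪ ({p | 2 ≤ p.1}ᶜ ∪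
        ({p | δ < 2 * A p.2 - 2 * κ * η}ᶜ ∪ {p | Small (UE (Fin.snoc p.2 p.1 : Fin (s+1) → ℝ) η) δ})) := by
      ext p
      simp only [mem_ofPred_eq, mem_union, mem_compl_iff]
      tauto
    rw [e2]
    exact m1.compl.union (m2.compl.union (m4.compl.union m3))
  have hpr2 : ∀ᵐ p : ℝ × (Fin s → ℝ), (∀ i, 2 ≤ p.2 i) → 2 ≤ p.1 → δ < 2 * A p.2 - 2 * κ * η →
      Small (UE (Fin.snoc p.2 p.1 : Fin (s+1) → ℝ) η) δ := by
    rw [Measure.volume_eq_prod]
    rw [Measure.ae_prod_iff_ae_ae hms]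
    exact (Measure.ae_ae_comm (p := fun (d : ℝ) (c : Fin s → ℝ) => (∀ i, 2 ≤ c i) → 2 ≤ d → δ < 2 * A c - 2 * κ * η →
      Small (UE (Fin.snoc c d : Fin (s+1) → ℝ) η) δ) hms).mpr hpr
  have hpr3 := hmp.quasiMeasurePreserving.ae hpr2
  filter_upwards [hpr3] with γ hγ hpos hδ
  have e5 : (e γ).2 = fun j => γ j.castSucc := by
    funext j
    show γ ((Fin.last s).succAbove j) = γ j.castSucc
    rw [Fin.succAbove_last]
  have e3 : (Fin.snoc (e γ).2 (e γ).1 : Fin (s+1) → ℝ) = γ := by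
    have e4 : (e γ).1 = γ (Fin.last s) := rfl
    rw [e4, e5]
    funext i
    refine Fin.lastCases ?_ (fun j => ?_) i
    · simp
    · simp
  have h8 := hγ (fun i => by
    show 2 ≤ γ ((Fin.last s).succAbove i)
    exact hpos _) (hpos _) (by rw [e5]; exact hδ)
  rwa [e3] at h8

/-- the saving -/
noncomputable def sav (s j : ℕ) (c : Fin (s + j) → ℝ) : ℝ := 2 ^ j * ((∑ i : Fin s, 1 / c (Fin.castAdd j i)) - 1)

lemma sav_meas (s j : ℕ) : Measurable (sav s j) := by
  unfold sav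
  refine Measurable.const_mul (Measurable.sub_const ?_ _) _
  refine Finset.measurable_fun_sum _ fun i _ => ?_
  exact measurable_const.div (measurable_pi_apply _)

/-- **The exceptional set with additional variables.** -/
theorem exceptional (s j : ℕ) :
    ∀ η δ : ℝ, 0 ≤ η → ∀ᵐ c : Fin (s + j) → ℝ, (∀ i, 2 ≤ c i) → δ < sav s j c - 2 ^ j * η → Small (UE c η) δ := by
  induction j with
  | zero =>
    intro η δ hη
    filter_upwards [base (s := s) (δ := δ) hη] with c hc h2 hδ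
    apply hc h2
    unfold sav at hδ
    rw [pow_zero, one_mul, one_mul] at hδ
    exact hδ
  | succ j ih =>
    intro η δ hη
    filter_upwards [step (s := s + j) (sav_meas s j) (κ := 2 ^ j) (by positivity) ih η δ hη] with c hc h2 hδ
    apply hc h2
    have e1 : sav s (j + 1) c = 2 * sav s j (fun i => c i.castSucc) := by
      unfold sav
      rw [pow_succ]
      have e2 : ∀ i : Fin s, c (Fin.castAdd (j + 1) i) = (fun i : Fin (s + j) => c i.castSucc) (Fin.castAdd j i) := fun i => rfl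
      simp_rw [e2]
      ring
    rw [e1, pow_succ] at hδ
    linarith

/-- if the saving is large then there is no exception -/
theorem none_of_small {s : ℕ} {η η' δ : ℝ} (hη : 0 ≤ η) (hη' : η < η')
    (hδ : 1 + η' < δ) {c : Fin s → ℝ} (h : Small (UE c η') δ) :
    ∀ᶠ t : ℝ in atTop, ∃ x : Fin s → ℕ, (∀ i, (x i).Prime) ∧ |sp c x - t| < t ^ (-η) := by
  set b : Fin s → ℕ → ℝ := fun i y => (Nat.nth Nat.Prime y : ℝ) ^ (c i) with hb
  have h1 : Small (Pool.Agent.K7.H77.WG.U b η' (fun _ => 1)) δ := by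
    refine Small_mono (t₀ := 0) ?_ h
    rintro t _ ⟨ht1, ht2⟩
    refine ⟨ht1, fun x hx => ?_⟩
    have h2 := ht2 (fun i => Nat.count Nat.Prime (x i))
    refine h2.trans (le_of_eq ?_)
    unfold sp
    congr 2
    refine Finset.sum_congr rfl fun i _ => ?_
    simp only [hb, one_mul, Nat.nth_count (hx i)]
  filter_upwards [Pool.Agent.K7.H77.WG.none_of_small hη hη' hδ h1] with t ht
  obtain ⟨x, hx⟩ := ht
  refine ⟨fun i => Nat.nth Nat.Prime (x i), fun i => Nat.prime_nth_prime _, ?_⟩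
  refine lt_of_le_of_lt (le_of_eq ?_) hx
  unfold sp
  congr 2
  refine Finset.sum_congr rfl fun i _ => ?_
  simp only [hb, one_mul]

/-- **All large numbers.** -/
theorem all_large (s j : ℕ) : ∀ᵐ c : Fin (s + j) → ℝ, (∀ i, 2 ≤ c i) → ∀ η : ℝ, 0 ≤ η → 1 + (2 ^ j + 1) * η < sav s j c →
    ∀ᶠ t : ℝ in atTop, ∃ x : Fin (s + j) → ℕ, (∀ i, (x i).Prime) ∧ |sp c x - t| < t ^ (-η) := by
  have hbase : ∀ᵐ c : Fin (s + j) → ℝ, ∀ q r : ℚ, 0 ≤ (q : ℝ) → (∀ i, 2 ≤ c i) → (r : ℝ) < sav s j c - 2 ^ j * q →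
      Small (UE c q) r := by
    rw [ae_all_iff]; intro q
    rw [ae_all_iff]; intro r
    by_cases hq : 0 ≤ (q : ℝ)
    · filter_upwards [exceptional s j q r hq] with c hc _
      exact hc
    · exact Eventually.of_forall fun c h => absurd h hq
  filter_upwards [hbase] with c hc h2 η hη hs
  set D : ℝ := sav s j c - (1 + (2 ^ j + 1) * η) with hD
  have hD0 : 0 < D := by rw [hD]; linarith
  have hj : (0:ℝ) < 2 ^ j + 1 := by positivity
  have hDj : 0 < D / (2 * (2 ^ j + 1)) := by positivity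
  obtain ⟨η', h1, h1'⟩ := exists_rat_btwn (by linarith : η < η + D / (2 * (2 ^ j + 1)))
  have e : (2 ^ j + 1) * (η' : ℝ) < (2 ^ j + 1) * η + D / 2 := by
    have h3 : (2 ^ j + 1) * (η' : ℝ) < (2 ^ j + 1) * (η + D / (2 * (2 ^ j + 1))) := mul_lt_mul_of_pos_left h1' hj
    refine h3.trans_le (le_of_eq ?_)
    field_simp
  obtain ⟨δ, h3, h3'⟩ := exists_rat_btwn (by linarith : 1 + (η' : ℝ) < 1 + η' + D / 4)
  refine none_of_small hη h1 h3 (hc η' δ (by linarith) h2 ?_)
  linarith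

end Pool.Agent.K7.H94.EW
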