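import Mathlib
import Pool.Agent.K7.H94.EW.Ind

set_option autoImplicit false

/-! Arbitrary subsets of the variables, and the number of exceptional natural numbers. -/

namespace Pool.Agent.K7.H94.EW
open MeasureTheory Set Filter Topology
open Pool.Agent.K7.H77.WG (Small Small_mono const_le const_le2)

/-- the saving of a set of variables -/
noncomputable def svg {n : ℕ} (c : Fin n → ℝ) (I : Finset (Fin n)) : ℝ := 2 ^ (n - I.card) * ((∑ i ∈ I, 1 / c i) - 1)

lemma sp_perm {n : ℕ} (π : Equiv.Perm (Fin n)) (c : Fin n → ℝ) (x : Fin n → ℕ) : sp (c ∘ π) (x ∘ π) = sp c x := by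
  unfold sp
  exact Equiv.sum_comp π (fun i => (x i : ℝ) ^ (c i))

lemma UE_perm {n : ℕ} (π : Equiv.Perm (Fin n)) (c : Fin n → ℝ) (η : ℝ) : UE (c ∘ π) η = UE c η := by
  ext t
  constructor
  · rintro ⟨h1, h2⟩
    refine ⟨h1, fun x hx => ?_⟩
    have := h2 (x ∘ π) (fun i => hx (π i))
    rwa [sp_perm] at this
  · rintro ⟨h1, h2⟩
    refine ⟨h1, fun x hx => ?_⟩
    have h3 := h2 (x ∘ π.symm) (fun i => hx (π.symm i))
    have h4 : x = (x ∘ π.symm) ∘ π := by
      funext i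
      simp
    rw [h4, sp_perm]
    exact h3

lemma perm_ae {n : ℕ} (π : Equiv.Perm (Fin n)) {P : (Fin n → ℝ) → Prop} (h : ∀ᵐ c, P c) : ∀ᵐ c : Fin n → ℝ, P (c ∘ π) := by
  have h1 := volume_measurePreserving_piCongrLeft (fun _ : Fin n => ℝ) π.symm
  have h2 := h1.quasiMeasurePreserving.ae h
  filter_upwards [h2] with c hc
  have e : (MeasurableEquiv.piCongrLeft (fun _ : Fin n => ℝ) π.symm) c = c ∘ π := by
    funext i
    have h3 : i = π.symm (π i) := by simp
    rw [h3]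
    rw [MeasurableEquiv.coe_piCongrLeft, Equiv.piCongrLeft_apply_apply]
    simp
  rwa [e] at hc

/-- a permutation that puts a given set first -/
lemma exists_perm {t j : ℕ} (I : Finset (Fin (t + j))) (hI : I.card = t) :
    ∃ π : Equiv.Perm (Fin (t + j)), ∀ f : Fin (t + j) → ℝ, ∑ i : Fin t, f (π (Fin.castAdd j i)) = ∑ i ∈ I, f i := by
  classical
  set J : Finset (Fin (t + j)) := Finset.univ.map (Fin.castAddEmb j) with hJ
  have hJc : J.card = t := by rw [hJ, Finset.card_map, Finset.card_univ, Fintype.card_fin]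
  obtain ⟨π, hπ⟩ : ∃ π : Equiv.Perm (Fin (t + j)), J.map π.toEmbedding = I := by
    have h1 : Fintype.card {x // x ∈ J} = Fintype.card {x // x ∈ I} := by
      rw [Fintype.card_coe, Fintype.card_coe, hJc, hI]
    have e1 : {x // x ∈ J} ≃ {x // x ∈ I} := Fintype.equivOfCardEq h1
    refine ⟨e1.extendSubtype, ?_⟩
    apply Finset.eq_of_subset_of_card_le
    · intro y hy
      rw [Finset.mem_map] at hy
      obtain ⟨x, hx, rfl⟩ := hy
      exact e1.extendSubtype_mem x hx
    · rw [Finset.card_map, hJc, hI]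
  refine ⟨π, fun f => ?_⟩
  rw [← hπ, Finset.sum_map, hJ, Finset.sum_map]
  rfl

/-- **the exceptional set**, all sets of variables -/
theorem exceptional_set (n : ℕ) : ∀ᵐ c : Fin n → ℝ, (∀ i, 2 ≤ c i) → ∀ (I : Finset (Fin n)) (q r : ℚ), 0 ≤ (q : ℝ) →
    (r : ℝ) < svg c I - 2 ^ (n - I.card) * q → Small (UE c q) r := by
  have h0 : ∀ (I : Finset (Fin n)) (q r : ℚ), 0 ≤ (q : ℝ) → ∀ᵐ c : Fin n → ℝ, (∀ i, 2 ≤ c i) →
      (r : ℝ) < svg c I - 2 ^ (n - I.card) * q → Small (UE c q) r := by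
    intro I q r hq
    obtain ⟨t, ht⟩ : ∃ t, I.card = t := ⟨_, rfl⟩
    have htn : t ≤ n := by
      rw [← ht]
      exact (Finset.card_le_univ I).trans (le_of_eq (Fintype.card_fin n))
    obtain ⟨j, rfl⟩ : ∃ j, n = t + j := ⟨n - t, by omega⟩
    obtain ⟨π, hπ⟩ := exists_perm I ht
    filter_upwards [perm_ae π (exceptional t j q r hq)] with c hc h2 hr
    rw [UE_perm] at hc
    apply hc (fun i => h2 (π i))
    have e1 : sav t j (c ∘ π) = svg c I := by
      unfold sav svg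
      rw [ht, Nat.add_sub_cancel_left]
      have := hπ (fun i => 1 / c i)
      simp only [Function.comp]
      rw [this]
    have e2 : t + j - I.card = j := by rw [ht]; omega
    rw [e1]
    rw [e2] at hr
    exact hr
  have h1 : ∀ᵐ c : Fin n → ℝ, ∀ (I : Finset (Fin n)) (q r : ℚ), 0 ≤ (q : ℝ) → (∀ i, 2 ≤ c i) →
      (r : ℝ) < svg c I - 2 ^ (n - I.card) * q → Small (UE c q) r := by
    rw [ae_all_iff]; intro I
    rw [ae_all_iff]; intro q
    rw [ae_all_iff]; intro r
    by_cases hq : 0 ≤ (q : ℝ)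
    · filter_upwards [h0 I q r hq] with c hc _
      exact hc
    · exact Eventually.of_forall fun c h => absurd h hq
  filter_upwards [h1] with c hc h2 I q r hq hr
  exact hc I q r hq h2 hr

/-- **All large numbers.** -/
theorem hits {n : ℕ} {c : Fin n → ℝ} (h2 : ∀ i, 2 ≤ c i) (hc : (∀ i, 2 ≤ c i) → ∀ (I : Finset (Fin n)) (q r : ℚ), 0 ≤ (q : ℝ) →
    (r : ℝ) < svg c I - 2 ^ (n - I.card) * q → Small (UE c q) r) (I : Finset (Fin n)) {η : ℝ} (hη : 0 ≤ η)
    (hs : 1 + (2 ^ (n - I.card) + 1) * η < svg c I) :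
    ∀ᶠ t : ℝ in atTop, ∃ x : Fin n → ℕ, (∀ i, (x i).Prime) ∧ |sp c x - t| < t ^ (-η) := by
  set j : ℕ := n - I.card with hj
  set D : ℝ := svg c I - (1 + (2 ^ j + 1) * η) with hD
  have hD0 : 0 < D := by rw [hD]; linarith
  have hj : (0:ℝ) < 2 ^ j + 1 := by positivity
  have hDj : 0 < D / (2 * (2 ^ j + 1)) := by positivity
  obtain ⟨η', h1, h1'⟩ := exists_rat_btwn (by linarith : η < η + D / (2 * (2 ^ j + 1)))
  have e : (2 ^ j + 1) * (η' : ℝ) < (2 ^ j + 1) * η + D / 2 := by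
    have h3 : (2 ^ j + 1) * (η' : ℝ) < (2 ^ j + 1) * (η + D / (2 * (2 ^ j + 1))) := mul_lt_mul_of_pos_left h1' hj
    refine h3.trans_le (le_of_eq ?_)
    field_simp
  obtain ⟨δ, h3, h3'⟩ := exists_rat_btwn (by linarith : 1 + (η' : ℝ) < 1 + η' + D / 4)
  refine none_of_small hη h1 h3 (hc h2 I η' δ (by linarith) ?_)
  linarith

/-- the exceptional natural numbers -/
def NE {n : ℕ} (c : Fin n → ℝ) : Set ℕ := {m | ∀ p : Fin n → ℕ, (∀ i, (p i).Prime) → ⌊sp c p⌋₊ ≠ m}

open Classical in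
/-- the number of exceptional natural numbers -/
theorem count_exc {n : ℕ} {c : Fin n → ℝ} {η δ : ℝ} (hη : 0 < η) (hδ : δ < 1) (h : Small (UE c η) δ) :
    ∃ C : ℝ, 0 < C ∧ ∀ N : ℕ, 1 ≤ N → (((Finset.range (N + 1)).filter (fun m => m ∈ NE c)).card : ℝ) ≤ C * (N : ℝ) ^ (1 - δ) := by
  obtain ⟨u₀, hu₀⟩ := eventually_atTop.1 ((tendsto_rpow_neg_atTop hη).eventually_le_const (by norm_num : (0 : ℝ) < 1 / 4))
  have h2 : ∀ᶠ m : ℕ in atTop, max u₀ 1 ≤ (2 : ℝ) ^ m :=
    (tendsto_pow_atTop_atTop_of_one_lt (one_lt_two (α := ℝ))).eventually_ge_atTop _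
  obtain ⟨m₀, hm₀⟩ := eventually_atTop.1 (h.and h2)
  set a : ℝ := 1 - δ with ha
  have ha0 : 0 < a := by rw [ha]; linarith
  set r : ℝ := (2 : ℝ) ^ a with hr
  have hr1 : 1 < r := Real.one_lt_rpow (by norm_num) ha0
  set E : ℕ → Finset ℕ := fun m => (Finset.Ico (2 ^ m) (2 ^ (m + 1))).filter (fun k => k ∈ NE c) with hE
  have hEm : ∀ m, m₀ ≤ m → ((E m).card : ℝ) ≤ 2 * r ^ m := by
    intro m hm
    obtain ⟨h3, h4⟩ := hm₀ m hm
    have hsub : (⋃ k ∈ E m, Icc ((k : ℝ) + 1 / 4) (k + 3 / 4)) ⊆ UE c η ∩ Icc ((2:ℝ) ^ m) (2 ^ (m + 1)) := by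
      intro u hu
      simp only [mem_iUnion] at hu
      obtain ⟨k, hk, hu1, hu2⟩ := hu
      rw [hE, Finset.mem_filter, Finset.mem_Ico] at hk
      obtain ⟨⟨hk1, hk2⟩, hk3⟩ := hk
      have hk1' : (2 : ℝ) ^ m ≤ k := by exact_mod_cast hk1
      have hk2' : (k : ℝ) + 1 ≤ 2 ^ (m + 1) := by exact_mod_cast hk2
      have hu3 : u₀ ≤ u := by linarith [le_max_left u₀ 1]
      have hu4 : 1 ≤ u := by linarith [le_max_right u₀ 1]
      refine ⟨⟨hu4, fun x hx => (hu₀ u hu3).trans ?_⟩, by linarith, by linarith⟩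
      have h5 := hk3 x hx
      by_contra h6
      push Not at h6
      rw [abs_lt] at h6
      apply h5
      have hk0 : (0 : ℝ) ≤ k := Nat.cast_nonneg k
      rw [Nat.floor_eq_iff (by linarith)]
      constructor <;> linarith
    have hvol : volume (⋃ k ∈ E m, Icc ((k : ℝ) + 1 / 4) (k + 3 / 4)) = ((E m).card : ENNReal) * ENNReal.ofReal (1 / 2) := by
      rw [measure_biUnion_finset]
      · have e1 : ∀ k ∈ E m, volume (Icc ((k : ℝ) + 1 / 4) (k + 3 / 4)) = ENNReal.ofReal (1 / 2) := by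
          intro k _
          rw [Real.volume_Icc]
          congr 1
          ring
        rw [Finset.sum_congr rfl e1, Finset.sum_const, nsmul_eq_mul]
      · intro k _ l _ hkl
        rw [Function.onFun, Set.disjoint_left]
        rintro u ⟨h6, h7⟩ ⟨h8, h9⟩
        apply hkl
        have h10 : (k : ℝ) < l + 1 := by linarith
        have h11 : (l : ℝ) < k + 1 := by linarith
        have h12 : k < l + 1 := by exact_mod_cast h10
        have h13 : l < k + 1 := by exact_mod_cast h11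
        omega
      · intro k _
        exact measurableSet_Icc
    have h5 := (measure_mono hsub).trans h3
    rw [hvol, ← ENNReal.ofReal_natCast, ← ENNReal.ofReal_mul (by positivity),
      ENNReal.ofReal_le_ofReal_iff (by positivity)] at h5
    have e2 : ((2 : ℝ) ^ m) ^ a = r ^ m := by
      rw [hr, ← Real.rpow_natCast, ← Real.rpow_mul (by norm_num), ← Real.rpow_natCast, ← Real.rpow_mul (by norm_num)]
      congr 1
      ring
    rw [e2] at h5
    linarith
  refine ⟨2 ^ m₀ + 2 * (r / (r - 1)), by have : 0 < r - 1 := by linarith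
                                         positivity, fun N hN => ?_⟩
  have hN1 : (1 : ℝ) ≤ N := by exact_mod_cast hN
  have hNa : 1 ≤ (N : ℝ) ^ a := Real.one_le_rpow hN1 ha0.le
  set L : ℕ := Nat.log 2 N with hL
  have hsub : (Finset.range (N + 1)).filter (fun m => m ∈ NE c) ⊆
      Finset.range (2 ^ m₀) ∪ (Finset.Ico m₀ (L + 1)).biUnion E := by
    intro k hk
    rw [Finset.mem_filter, Finset.mem_range] at hk
    rw [Finset.mem_union, Finset.mem_range, Finset.mem_biUnion]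
    by_cases h3 : k < 2 ^ m₀
    · exact Or.inl h3
    · right
      push Not at h3
      have hk0 : k ≠ 0 := by
        have : 0 < 2 ^ m₀ := by positivity
        omega
      refine ⟨Nat.log 2 k, ?_, ?_⟩
      · rw [Finset.mem_Ico]
        constructor
        · exact Nat.le_log_of_pow_le (by norm_num) h3
        · have : Nat.log 2 k ≤ Nat.log 2 N := Nat.log_mono_right (by omega)
          omega
      · rw [hE, Finset.mem_filter, Finset.mem_Ico]
        exact ⟨⟨Nat.pow_log_le_self 2 hk0, Nat.lt_pow_succ_log_self (by norm_num) k⟩, hk.2⟩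
  have h3 : (((Finset.range (N + 1)).filter (fun m => m ∈ NE c)).card : ℝ) ≤
      2 ^ m₀ + ∑ m ∈ Finset.Ico m₀ (L + 1), ((E m).card : ℝ) := by
    have h4 := (Finset.card_le_card hsub).trans ((Finset.card_union_le _ _).trans
      (Nat.add_le_add_left Finset.card_biUnion_le _))
    rw [Finset.card_range] at h4
    exact_mod_cast h4
  have h4 : ∑ m ∈ Finset.Ico m₀ (L + 1), ((E m).card : ℝ) ≤ 2 * (r / (r - 1)) * (N : ℝ) ^ a := by
    have hr0 : 0 < r - 1 := by linarith
    calc ∑ m ∈ Finset.Ico m₀ (L + 1), ((E m).card : ℝ) ≤ ∑ m ∈ Finset.Ico m₀ (L + 1), 2 * r ^ m :=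
          Finset.sum_le_sum fun m hm => hEm m (Finset.mem_Ico.1 hm).1
      _ ≤ ∑ m ∈ Finset.range (L + 1), 2 * r ^ m := by
          apply Finset.sum_le_sum_of_subset_of_nonneg
          · intro m hm
            exact Finset.mem_range.2 (Finset.mem_Ico.1 hm).2
          · intro m _ _
            positivity
      _ = 2 * ((r ^ (L + 1) - 1) / (r - 1)) := by rw [← Finset.mul_sum, geom_sum_eq hr1.ne']
      _ ≤ 2 * (r ^ (L + 1) / (r - 1)) := by gcongr; linarith
      _ = 2 * (r / (r - 1)) * r ^ L := by rw [pow_succ]; ring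
      _ ≤ _ := by
          apply mul_le_mul_of_nonneg_left _ (by positivity)
          have e2 : r ^ L = ((2 : ℝ) ^ L) ^ a := by
            rw [hr, ← Real.rpow_natCast, ← Real.rpow_mul (by norm_num), ← Real.rpow_natCast, ← Real.rpow_mul (by norm_num)]
            congr 1
            ring
          rw [e2]
          apply Real.rpow_le_rpow (by positivity) _ ha0.le
          have : 2 ^ L ≤ N := Nat.pow_log_le_self 2 (by omega)
          exact_mod_cast this
  have h5 : (2 : ℝ) ^ m₀ ≤ 2 ^ m₀ * (N : ℝ) ^ a := le_mul_of_one_le_right (by positivity) hNa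
  rw [add_mul]
  linarith

open Classical in
/-- the number of exceptional natural numbers, final form -/
theorem exc_final {n : ℕ} {c : Fin n → ℝ} (h2 : ∀ i, 2 ≤ c i) (hc : (∀ i, 2 ≤ c i) → ∀ (I : Finset (Fin n)) (q r : ℚ), 0 ≤ (q : ℝ) →
    (r : ℝ) < svg c I - 2 ^ (n - I.card) * q → Small (UE c q) r) (I : Finset (Fin n)) {ε : ℝ} (hε : 0 < ε) :
    ∃ N₀ : ℕ, ∀ N : ℕ, N₀ ≤ N → (((Finset.range (N + 1)).filter (fun m => m ∈ NE c)).card : ℝ) ≤
      (N : ℝ) ^ (max 0 (1 - svg c I) + ε) := by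
  set D : ℝ := svg c I with hD
  set d : ℝ := max 0 (1 - D) with hd
  have hd0 : 0 ≤ d := le_max_left _ _
  have hd1 : 1 - D ≤ d := le_max_right _ _
  -- the choice of the parameters
  obtain ⟨r, hr1, hr2⟩ := exists_rat_btwn (by linarith : 1 - d - ε / 2 < 1 - d - ε / 4)
  have hj : (0 : ℝ) < 2 ^ (n - I.card) := by positivity
  obtain ⟨q, hq1, hq2⟩ := exists_rat_btwn (by positivity : 0 < ε / 4 / 2 ^ (n - I.card))
  have hq3 : 2 ^ (n - I.card) * (q : ℝ) < ε / 4 := by
    rw [lt_div_iff₀ hj] at hq2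
    linarith
  have hS := hc h2 I q r hq1.le (by linarith)
  obtain ⟨C, hC0, hC⟩ := count_exc hq1 (by linarith) hS
  have h3 : ∀ᶠ N : ℕ in atTop, C ≤ (N : ℝ) ^ (ε / 2) :=
    (tendsto_natCast_atTop_atTop (R := ℝ)).eventually (const_le (by positivity))
  obtain ⟨N₀, hN₀⟩ := eventually_atTop.1 (h3.and (eventually_ge_atTop 1))
  refine ⟨N₀, fun N hN => ?_⟩
  obtain ⟨h4, h5⟩ := hN₀ N hN
  have hN1 : (1 : ℝ) ≤ N := by exact_mod_cast h5
  have hN0 : (0 : ℝ) < N := by linarith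
  calc (((Finset.range (N + 1)).filter (fun m => m ∈ NE c)).card : ℝ) ≤ C * (N : ℝ) ^ (1 - (r : ℝ)) := hC N h5
    _ ≤ (N : ℝ) ^ (ε / 2) * (N : ℝ) ^ (1 - (r : ℝ)) := by gcongr
    _ = (N : ℝ) ^ (ε / 2 + (1 - (r : ℝ))) := by rw [← Real.rpow_add hN0]
    _ ≤ _ := Real.rpow_le_rpow_of_exponent_le hN1 (by linarith)

end Pool.Agent.K7.H94.EW
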